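import Pool.Agent.V7H61.Main

set_option autoImplicit false
set_option linter.unusedSectionVars false

/-!
Higman projectivity is projectivity over the group algebra.
-/

open scoped TensorProduct

universe u v

namespace Pool.Agent.V7H61

section

variable {k : Type u} {G : Type v} [Field k] [Group G] [Fintype G]
variable {V : Type u} [AddCommGroup V] [Module k V]

lemma single_smul_as (ρ : Representation k G V) (g : G) (v : ρ.asModule) :
    (MonoidAlgebra.single g (1 : k)) • v = (ρ g (ρ.asModuleEquiv v) : V) := by
  have := Representation.single_smul (ρ := ρ) (1 : k) g v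
  rw [one_smul] at this
  exact this

theorem HP.projective {ρ : Representation k G V} (h : HP ρ) :
    Module.Projective (MonoidAlgebra k G) ρ.asModule := by
  obtain ⟨θ, hθ⟩ := h
  have hs : Function.Surjective ((Finsupp.linearCombination (MonoidAlgebra k G)
      (id : ρ.asModule → ρ.asModule)).restrictScalars k) := by
    intro x
    exact ⟨Finsupp.single x 1, by simp⟩
  obtain ⟨s, hs⟩ := LinearMap.exists_rightInverse_of_surjective
    ((Finsupp.linearCombination (MonoidAlgebra k G)
      (id : ρ.asModule → ρ.asModule)).restrictScalars k) (LinearMap.range_eq_top.2 hs)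
  have hs' : ∀ x : ρ.asModule, Finsupp.linearCombination (MonoidAlgebra k G)
      (id : ρ.asModule → ρ.asModule) (s x) = x := fun x => LinearMap.congr_fun hs x
  let θ' : ρ.asModule →ₗ[k] ρ.asModule :=
    ρ.asModuleEquiv.symm.toLinearMap ∘ₗ θ ∘ₗ ρ.asModuleEquiv.toLinearMap
  refine Module.projective_def'.2 ⟨LinearMap.sumOfConjugatesEquivariant G (s ∘ₗ θ'), ?_⟩
  apply LinearMap.ext
  intro x
  rw [LinearMap.comp_apply, LinearMap.sumOfConjugatesEquivariant_apply, map_sum]
  have key : ∀ g : G, Finsupp.linearCombination (MonoidAlgebra k G)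
      (id : ρ.asModule → ρ.asModule) ((s ∘ₗ θ').conjugate g x) =
      ρ.asModuleEquiv.symm (ρ g⁻¹ (θ (ρ g (ρ.asModuleEquiv x)))) := by
    intro g
    rw [LinearMap.conjugate_apply, map_smul, LinearMap.comp_apply, hs', single_smul_as,
      single_smul_as]
    rfl
  simp only [key]
  have h1 := LinearMap.congr_fun hθ (ρ.asModuleEquiv x)
  rw [rtr_apply, LinearMap.id_apply] at h1
  rw [← map_sum]
  have h2 : ∑ g : G, ρ g⁻¹ (θ (ρ g (ρ.asModuleEquiv x))) = ρ.asModuleEquiv x := by
    rw [← h1]
    refine Fintype.sum_equiv (Equiv.inv G) _ _ fun g => ?_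
    simp [h1]
  rw [h2]; simp

/-- coefficient at the identity -/
noncomputable def pr1 (k : Type u) (G : Type v) [Field k] [Group G] :
    MonoidAlgebra k G →ₗ[k] MonoidAlgebra k G where
  toFun x := MonoidAlgebra.single 1 (x.coeff 1)
  map_add' x y := by
    rw [← MonoidAlgebra.single_add]; rfl
  map_smul' r x := by
    rw [RingHom.id_apply, MonoidAlgebra.smul_single]; rfl

lemma pr1_sum (x : MonoidAlgebra k G) :
    ∑ g : G, MonoidAlgebra.single g⁻¹ (1 : k) * pr1 k G (MonoidAlgebra.single g (1 : k) * x) =
      x := by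
  classical
  induction x using MonoidAlgebra.induction_linear with
  | zero => simp
  | add x y hx hy =>
    simp only [mul_add, map_add, Finset.sum_add_distrib, hx, hy]
  | single h r =>
    have key : ∀ g : G, pr1 k G (MonoidAlgebra.single g (1 : k) * MonoidAlgebra.single h r) =
        MonoidAlgebra.single 1 (if g * h = 1 then r else 0) := by
      intro g
      rw [MonoidAlgebra.single_mul_single, one_mul]
      change MonoidAlgebra.single 1 ((MonoidAlgebra.single (g * h) r : MonoidAlgebra k G).coeff 1)
        = _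
      congr 1
      exact Finsupp.single_apply
    simp only [key]
    simp only [MonoidAlgebra.single_mul_single, mul_one, one_mul]
    rw [Finset.sum_eq_single h⁻¹]
    · rw [if_pos (inv_mul_cancel h), inv_inv]
    · intro g _ hg
      rw [if_neg, MonoidAlgebra.single_zero]
      intro h1
      exact hg (eq_inv_of_mul_eq_one_left h1)
    · intro h1; exact absurd (Finset.mem_univ _) h1

/-- coefficientwise version on free modules -/
noncomputable def prF (k : Type u) (G : Type v) [Field k] [Group G] (S : Type u) :
    (S →₀ MonoidAlgebra k G) →ₗ[k] (S →₀ MonoidAlgebra k G) :=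
  Finsupp.mapRange.linearMap (pr1 k G)

lemma prF_sum {S : Type u} (x : S →₀ MonoidAlgebra k G) :
    ∑ g : G, MonoidAlgebra.single g⁻¹ (1 : k) • prF k G S (MonoidAlgebra.single g (1 : k) • x) =
      x := by
  apply Finsupp.ext
  intro a
  rw [Finsupp.finsetSum_apply]
  exact pr1_sum (x a)

theorem HP.of_projective {ρ : Representation k G V}
    (h : Module.Projective (MonoidAlgebra k G) ρ.asModule) : HP ρ := by
  obtain ⟨s, hs⟩ := Module.projective_def'.1 h
  have hs' : ∀ x : ρ.asModule, Finsupp.linearCombination (MonoidAlgebra k G)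
      (id : ρ.asModule → ρ.asModule) (s x) = x := fun x => LinearMap.congr_fun hs x
  refine ⟨ρ.asModuleEquiv.toLinearMap ∘ₗ ((Finsupp.linearCombination (MonoidAlgebra k G)
      (id : ρ.asModule → ρ.asModule)).restrictScalars k) ∘ₗ prF k G ρ.asModule ∘ₗ
      (s.restrictScalars k) ∘ₗ ρ.asModuleEquiv.symm.toLinearMap, ?_⟩
  apply LinearMap.ext
  intro v
  rw [rtr_apply, LinearMap.id_apply]
  have h1 := prF_sum (s (ρ.asModuleEquiv.symm v))
  have h2 := congrArg (Finsupp.linearCombination (MonoidAlgebra k G)
      (id : ρ.asModule → ρ.asModule)) h1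
  rw [hs', map_sum] at h2
  have h3 : v = ρ.asModuleEquiv (ρ.asModuleEquiv.symm v) := by simp
  conv_rhs => rw [h3, ← h2]
  rw [map_sum]
  refine Fintype.sum_equiv (Equiv.inv G) _ _ fun g => ?_
  rw [map_smul, ← map_smul s, single_smul_as, Equiv.inv_apply, inv_inv, single_smul_as]
  rfl

theorem hp_iff (ρ : Representation k G V) :
    HP ρ ↔ Module.Projective (MonoidAlgebra k G) ρ.asModule :=
  ⟨HP.projective, HP.of_projective⟩

end

end Pool.Agent.V7H61
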