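import Pool.Agent.V7H61.Leg

set_option autoImplicit false
set_option linter.unusedSectionVars false

/-!
Characteristic two, odd dimension: four copies of `X M` inside `N X M`.
-/

open scoped TensorProduct

universe u v

namespace Pool.Agent.V7H61

section

variable {k : Type u} {G : Type v} [Field k] [Group G]
variable {ι : Type} [Fintype ι] [DecidableEq ι]

/-- trace zero matrices -/
abbrev WW (k : Type u) (ι : Type) [Field k] [Fintype ι] : Type u :=
  LinearMap.ker (con2 k ι k)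

/-- inclusion -/
def wi (k : Type u) (ι : Type) [Field k] [Fintype ι] : WW k ι →ₗ[k] (ι → ι → k) :=
  (LinearMap.ker (con2 k ι k)).subtype

lemma con2_ins2 (v : k) : con2 k ι k (ins2 k ι k v) = (Fintype.card ι : k) * v := by
  rw [con2_apply]
  simp [ins2_apply]

/-- projection -/
def wp (h1 : (Fintype.card ι : k) = 1) : (ι → ι → k) →ₗ[k] WW k ι :=
  LinearMap.codRestrict _ (LinearMap.id - ins2 k ι k ∘ₗ con2 k ι k) (fun f => by
    rw [LinearMap.mem_ker, LinearMap.sub_apply, LinearMap.comp_apply, map_sub, con2_ins2, h1,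
      one_mul, LinearMap.id_apply, sub_self])

lemma wp_apply (h1 : (Fintype.card ι : k) = 1) (f : ι → ι → k) (c e : ι) :
    (wp h1 f : ι → ι → k) c e = f c e - if c = e then ∑ a, f a a else 0 := rfl

lemma wp_wi (h1 : (Fintype.card ι : k) = 1) (w : WW k ι) : wp h1 (wi k ι w) = w := by
  apply Subtype.ext
  funext c e
  rw [wp_apply]
  have : ∑ a, (wi k ι w) a a = 0 := w.2
  rw [this]; simp [wi]

lemma w_tr (w : WW k ι) : ∑ a, (w : ι → ι → k) a a = 0 := w.2

variable {D D' : MRep k G ι}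

/-- the representation on trace zero matrices -/
noncomputable def wr (hP : Pair D D') : Representation k G (WW k ι) :=
  kerRep (con2_eqv hP (1 : Representation k G k))

lemma wi_eqv (hP : Pair D D') : Eqv (wr hP) (leg D (leg D' (1 : Representation k G k)))
    (wi k ι) := fun _ _ => rfl

lemma wp_eqv (hP : Pair D D') (h1 : (Fintype.card ι : k) = 1) :
    Eqv (leg D (leg D' (1 : Representation k G k))) (wr hP) (wp h1) := by
  intro g f
  apply Subtype.ext
  change leg D (leg D' 1) g f - ins2 k ι k (con2 k ι k (leg D (leg D' 1) g f)) =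
    leg D (leg D' (1 : Representation k G k)) g (f - ins2 k ι k (con2 k ι k f))
  rw [con2_eqv hP, ins2_eqv hP, map_sub]

/-- first map -/
def al1 (h1 : (Fintype.card ι : k) = 1) : WW k ι →ₗ[k] (ι → ι → WW k ι) :=
  lmap ι (lmap ι (wp h1)) ∘ₗ lmap ι (ins2 k ι (ι → k)) ∘ₗ wi k ι

/-- second map -/
def al2 (h1 : (Fintype.card ι : k) = 1) : WW k ι →ₗ[k] (ι → ι → WW k ι) :=
  lmap ι (lmap ι (wp h1)) ∘ₗ lmap ι (lmap ι (swp k ι k)) ∘ₗ lmap ι (swp k ι (ι → k)) ∘ₗ
    ins2 k ι (ι → ι → k) ∘ₗ swp k ι k ∘ₗ wi k ι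

/-- first back map -/
def be1 (h1 : (Fintype.card ι : k) = 1) : (ι → ι → WW k ι) →ₗ[k] WW k ι :=
  wp h1 ∘ₗ lmap ι (con2 k ι (ι → k)) ∘ₗ lmap ι (lmap ι (wi k ι))

/-- second back map -/
def be2 (h1 : (Fintype.card ι : k) = 1) : (ι → ι → WW k ι) →ₗ[k] WW k ι :=
  wp h1 ∘ₗ swp k ι k ∘ₗ con2 k ι (ι → ι → k) ∘ₗ lmap ι (swp k ι (ι → k)) ∘ₗ
    lmap ι (lmap ι (swp k ι k)) ∘ₗ lmap ι (lmap ι (wi k ι))

lemma al1_eqv (hP : Pair D D') (h1 : (Fintype.card ι : k) = 1) :
    Eqv (wr hP) (leg D (leg D' (wr hP))) (al1 h1) :=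
  (lmap_eqv D (lmap_eqv D' (wp_eqv hP h1))).comp
    ((lmap_eqv D (ins2_eqv hP.symm _)).comp (wi_eqv hP))

lemma al2_eqv (hP : Pair D D') (h1 : (Fintype.card ι : k) = 1) :
    Eqv (wr hP) (leg D (leg D' (wr hP))) (al2 h1) :=
  (lmap_eqv D (lmap_eqv D' (wp_eqv hP h1))).comp
    ((lmap_eqv D (lmap_eqv D' (swp_eqv D' D _))).comp
      ((lmap_eqv D (swp_eqv D' D' _)).comp
        ((ins2_eqv hP _).comp ((swp_eqv D D' _).comp (wi_eqv hP)))))

lemma be1_eqv (hP : Pair D D') (h1 : (Fintype.card ι : k) = 1) :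
    Eqv (leg D (leg D' (wr hP))) (wr hP) (be1 h1) :=
  (wp_eqv hP h1).comp ((lmap_eqv D (con2_eqv hP.symm _)).comp
    (lmap_eqv D (lmap_eqv D' (wi_eqv hP))))

lemma be2_eqv (hP : Pair D D') (h1 : (Fintype.card ι : k) = 1) :
    Eqv (leg D (leg D' (wr hP))) (wr hP) (be2 h1) :=
  (wp_eqv hP h1).comp ((swp_eqv D' D _).comp ((con2_eqv hP _).comp
    ((lmap_eqv D (swp_eqv D' D' _)).comp ((lmap_eqv D (lmap_eqv D' (swp_eqv D D' _))).comp
      (lmap_eqv D (lmap_eqv D' (wi_eqv hP)))))))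

lemma al1_coe (h1 : (Fintype.card ι : k) = 1) (x : WW k ι) (a b c e : ι) :
    (al1 h1 x a b : ι → ι → k) c e = (if b = c then (x : ι → ι → k) a e else 0) -
      (if c = e then (x : ι → ι → k) a b else 0) := by
  change (wp h1 (fun c => (if b = c then (x : ι → ι → k) a else 0)) : ι → ι → k) c e = _
  rw [wp_apply]
  have e1 : ∀ c e : ι, (if b = c then (x : ι → ι → k) a else 0) e =
      if b = c then (x : ι → ι → k) a e else 0 := by
    intro c e; split_ifs <;> rfl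
  simp only [e1]
  simp

lemma al2_coe (h1 : (Fintype.card ι : k) = 1) (x : WW k ι) (a b c e : ι) :
    (al2 h1 x a b : ι → ι → k) c e = (if a = e then (x : ι → ι → k) c b else 0) -
      (if c = e then (x : ι → ι → k) a b else 0) := by
  change (wp h1 (fun c e => (if a = e then (fun b c => (x : ι → ι → k) c b) else 0) b c)
    : ι → ι → k) c e = _
  rw [wp_apply]
  have e1 : ∀ c e : ι, (if a = e then (fun b c => (x : ι → ι → k) c b) else 0) b c =
      if a = e then (x : ι → ι → k) c b else 0 := by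
    intro c e; split_ifs <;> rfl
  simp only [e1]
  simp

lemma be1_coe (h1 : (Fintype.card ι : k) = 1) (F : ι → ι → WW k ι) (a e : ι) :
    (be1 h1 F : ι → ι → k) a e = (∑ b, (F a b : ι → ι → k) b e) -
      (if a = e then ∑ c, ∑ b, (F c b : ι → ι → k) b c else 0) := by
  change (wp h1 (fun a => ∑ b, (F a b : ι → ι → k) b) : ι → ι → k) a e = _
  rw [wp_apply]
  simp only [Finset.sum_apply]

lemma be2_coe (h1 : (Fintype.card ι : k) = 1) (F : ι → ι → WW k ι) (c b : ι) :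
    (be2 h1 F : ι → ι → k) c b = (∑ a, (F a b : ι → ι → k) c a) -
      (if c = b then ∑ b, ∑ a, (F a b : ι → ι → k) b a else 0) := by
  change (wp h1 (fun c b => (∑ a, (fun b c => (F a b : ι → ι → k) c a)) b c) : ι → ι → k) c b = _
  rw [wp_apply]
  simp only [Finset.sum_apply]

lemma con_ins (h1 : (Fintype.card ι : k) = 1) (x : WW k ι) :
    con2 k ι (WW k ι) (ins2 k ι (WW k ι) x) = x := by
  rw [con2_apply]
  simp only [ins2_apply, if_true]
  rw [Finset.sum_const, Finset.card_univ, ← Nat.cast_smul_eq_nsmul k, h1, one_smul]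

lemma con_al1 (h1 : (Fintype.card ι : k) = 1) (x : WW k ι) :
    con2 k ι (WW k ι) (al1 h1 x) = x := by
  apply Subtype.ext
  funext c e
  rw [con2_apply, Submodule.coe_sum, Finset.sum_apply, Finset.sum_apply]
  simp only [al1_coe, Finset.sum_sub_distrib]
  by_cases h : c = e
  · simp [h, w_tr]
  · simp [h]

lemma con_al2 (h1 : (Fintype.card ι : k) = 1) (x : WW k ι) :
    con2 k ι (WW k ι) (al2 h1 x) = x := by
  apply Subtype.ext
  funext c e
  rw [con2_apply, Submodule.coe_sum, Finset.sum_apply, Finset.sum_apply]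
  simp only [al2_coe, Finset.sum_sub_distrib]
  by_cases h : c = e
  · simp [h, w_tr]
  · simp [h]

lemma be1_ins (h1 : (Fintype.card ι : k) = 1) (x : WW k ι) :
    be1 h1 (ins2 k ι (WW k ι) x) = x := by
  apply Subtype.ext
  funext a e
  rw [be1_coe]
  have e1 : ∀ a b c e : ι, ((ins2 k ι (WW k ι) x a b : WW k ι) : ι → ι → k) c e =
      if a = b then (x : ι → ι → k) c e else 0 := by
    intro a b c e; rw [ins2_apply]; split_ifs <;> rfl
  simp only [e1]
  simp [w_tr]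

lemma be2_ins (h1 : (Fintype.card ι : k) = 1) (x : WW k ι) :
    be2 h1 (ins2 k ι (WW k ι) x) = x := by
  apply Subtype.ext
  funext a e
  rw [be2_coe]
  have e1 : ∀ a b c e : ι, ((ins2 k ι (WW k ι) x a b : WW k ι) : ι → ι → k) c e =
      if a = b then (x : ι → ι → k) c e else 0 := by
    intro a b c e; rw [ins2_apply]; split_ifs <;> rfl
  simp only [e1]
  simp [w_tr]

lemma be1_al1 (h1 : (Fintype.card ι : k) = 1) (x : WW k ι) : be1 h1 (al1 h1 x) = 0 := by
  apply Subtype.ext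
  funext a e
  rw [be1_coe]
  simp only [al1_coe]
  simp [Finset.sum_sub_distrib, h1, w_tr]

lemma be1_al2 (h1 : (Fintype.card ι : k) = 1) (x : WW k ι) : be1 h1 (al2 h1 x) = -x := by
  apply Subtype.ext
  funext a e
  rw [be1_coe]
  simp only [al2_coe]
  simp [Finset.sum_sub_distrib, h1, w_tr]

lemma be2_al1 (h1 : (Fintype.card ι : k) = 1) (x : WW k ι) : be2 h1 (al1 h1 x) = -x := by
  apply Subtype.ext
  funext a e
  rw [be2_coe]
  simp only [al1_coe]
  simp [Finset.sum_sub_distrib, h1, w_tr]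

lemma be2_al2 (h1 : (Fintype.card ι : k) = 1) (x : WW k ι) : be2 h1 (al2 h1 x) = 0 := by
  apply Subtype.ext
  funext a e
  rw [be2_coe]
  simp only [al2_coe]
  simp [Finset.sum_sub_distrib, h1, w_tr]

/-- `A3` -/
def A3 (k : Type u) (ι : Type) [Field k] [Fintype ι] [DecidableEq ι] :
    (ι → WW k ι) →ₗ[k] (ι → ι → ι → WW k ι) :=
  swp k ι (ι → WW k ι) ∘ₗ lmap ι (ins2 k ι (WW k ι))

/-- `B3` -/
def B3 (k : Type u) (ι : Type) [Field k] [Fintype ι] [DecidableEq ι] :
    (ι → ι → ι → WW k ι) →ₗ[k] (ι → WW k ι) :=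
  lmap ι (con2 k ι (WW k ι)) ∘ₗ swp k ι (ι → WW k ι)

lemma A3_apply (f : ι → WW k ι) (i a b : ι) : A3 k ι f i a b = if i = b then f a else 0 := rfl

lemma B3_apply (F : ι → ι → ι → WW k ι) (a : ι) : B3 k ι F a = ∑ i, F i a i := rfl

/-- `g` -/
def gg (h1 : (Fintype.card ι : k) = 1) (x : ι → WW k ι) : ι → WW k ι := fun j =>
  wp h1 (fun c e => (x c : ι → ι → k) j e)

/-- `h` -/
def hh (h1 : (Fintype.card ι : k) = 1) (x : ι → WW k ι) : ι → WW k ι := fun j =>
  wp h1 (fun c e => if j = e then ∑ i, (x i : ι → ι → k) c i else 0)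

lemma gg_coe (h1 : (Fintype.card ι : k) = 1) (x : ι → WW k ι) (j c e : ι) :
    (gg h1 x j : ι → ι → k) c e = (x c : ι → ι → k) j e -
      (if c = e then ∑ i, (x i : ι → ι → k) j i else 0) := rfl

lemma hh_coe (h1 : (Fintype.card ι : k) = 1) (x : ι → WW k ι) (j c e : ι) :
    (hh h1 x j : ι → ι → k) c e = (if j = e then ∑ i, (x i : ι → ι → k) c i else 0) -
      (if c = e then ∑ i, (x i : ι → ι → k) j i else 0) := by
  rw [hh, wp_apply]; simp

lemma gg_gg (h1 : (Fintype.card ι : k) = 1) (x : ι → WW k ι) :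
    gg h1 (gg h1 x) = x - hh h1 x := by
  funext j
  apply Subtype.ext
  funext c e
  rw [gg_coe, Pi.sub_apply, Submodule.coe_sub, Pi.sub_apply, Pi.sub_apply, hh_coe]
  simp only [gg_coe]
  by_cases h : c = e
  · simp [h, Finset.sum_sub_distrib, w_tr]
    ring
  · simp [h]

lemma hh_hh (h1 : (Fintype.card ι : k) = 1) (x : ι → WW k ι) : hh h1 (hh h1 x) = 0 := by
  funext j
  apply Subtype.ext
  funext c e
  rw [hh_coe]
  simp only [hh_coe]
  simp [Finset.sum_sub_distrib, h1]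

lemma B3_A1 (h1 : (Fintype.card ι : k) = 1) (x : ι → WW k ι) :
    B3 k ι (lmap ι (al1 h1) x) = gg h1 x := by
  funext j
  apply Subtype.ext
  funext c e
  rw [B3_apply, Submodule.coe_sum, Finset.sum_apply, Finset.sum_apply, gg_coe]
  simp only [lmap_apply, al1_coe, Finset.sum_sub_distrib]
  by_cases h : c = e <;> simp [h]

lemma B3_A2 (h1 : (Fintype.card ι : k) = 1) (x : ι → WW k ι) :
    B3 k ι (lmap ι (al2 h1) x) = hh h1 x := by
  funext j
  apply Subtype.ext
  funext c e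
  rw [B3_apply, Submodule.coe_sum, Finset.sum_apply, Finset.sum_apply, hh_coe]
  simp only [lmap_apply, al2_coe, Finset.sum_sub_distrib]
  by_cases h : c = e <;> by_cases h' : j = e <;> simp [h, h']

lemma A3_coe (x : ι → WW k ι) (i a b c e : ι) : ((A3 k ι x i a b : WW k ι) : ι → ι → k) c e =
    if i = b then (x a : ι → ι → k) c e else 0 := by
  rw [A3_apply]; split_ifs <;> rfl

lemma B1_A3 (h1 : (Fintype.card ι : k) = 1) (x : ι → WW k ι) :
    lmap ι (be1 h1) (A3 k ι x) = gg h1 x := by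
  funext j
  apply Subtype.ext
  funext c e
  rw [lmap_apply, be1_coe, gg_coe]
  simp only [A3_coe]
  by_cases h : c = e <;> simp [h]

lemma B2_A3 (h1 : (Fintype.card ι : k) = 1) (x : ι → WW k ι) :
    lmap ι (be2 h1) (A3 k ι x) = hh h1 x := by
  funext j
  apply Subtype.ext
  funext c e
  rw [lmap_apply, be2_coe, hh_coe]
  simp only [A3_coe]
  by_cases h : c = e <;> by_cases h' : j = e <;> simp [h, h']

lemma B3_A3 (h1 : (Fintype.card ι : k) = 1) (x : ι → WW k ι) : B3 k ι (A3 k ι x) = x := by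
  funext j
  rw [B3_apply]
  simp only [A3_apply, if_true]
  rw [Finset.sum_const, Finset.card_univ, ← Nat.cast_smul_eq_nsmul k, h1, one_smul]

lemma B0_A3 (x : ι → WW k ι) : lmap ι (con2 k ι (WW k ι)) (A3 k ι x) = x := by
  funext j
  rw [lmap_apply, con2_apply]
  simp [A3_apply]

lemma B3_A0 (x : ι → WW k ι) : B3 k ι (lmap ι (ins2 k ι (WW k ι)) x) = x := by
  funext j
  rw [B3_apply]
  simp [ins2_apply]

/-- elimination -/
lemma elim4 (h2 : (2 : k) = 0) (h1 : (Fintype.card ι : k) = 1) (f x y z : ι → WW k ι)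
    (q0 : f + x + (y + z) = 0) (q1 : f + 0 + (-y + gg h1 z) = 0)
    (q2 : f + -x + (0 + hh h1 z) = 0) (q3 : f + gg h1 x + (hh h1 y + z) = 0) :
    (f = 0 ∧ x = 0) ∧ (y = 0 ∧ z = 0) := by
  have hd : ∀ v : ι → WW k ι, v + v = 0 := fun v => by
    rw [← two_smul k v, h2, zero_smul]
  have hneg : ∀ v : ι → WW k ι, -v = v := fun v => by
    rw [neg_eq_iff_add_eq_zero]; exact hd v
  rw [hneg] at q1 q2
  -- y = z + h z
  have s1 : y = z + hh h1 z := by
    have : (f + x + (y + z)) + (f + x + (0 + hh h1 z)) = 0 := by rw [q0, q2, add_zero]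
    have h5 : (f + x + (y + z)) + (f + x + (0 + hh h1 z)) =
      ((f + x) + (f + x)) + (y + (z + hh h1 z)) := by abel
    rw [h5, hd, zero_add] at this
    rw [← hneg (z + hh h1 z)]; exact eq_neg_of_add_eq_zero_left this
  have s2 : f = z + hh h1 z + gg h1 z := by
    have h5 : f + (z + hh h1 z + gg h1 z) = 0 := by
      rw [← q1, s1]; abel
    rw [← hneg (z + hh h1 z + gg h1 z)]; exact eq_neg_of_add_eq_zero_left h5
  have s3 : x = z + gg h1 z := by
    have h5 : x + (z + gg h1 z) = 0 := by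
      have h6 : (f + x + (0 + hh h1 z)) = x + (z + gg h1 z) + (hh h1 z + hh h1 z) := by
        rw [s2]; abel
      rw [hd, add_zero] at h6
      rw [← h6]; exact q2
    rw [← hneg (z + gg h1 z)]; exact eq_neg_of_add_eq_zero_left h5
  have ga : ∀ u v : ι → WW k ι, gg h1 (u + v) = gg h1 u + gg h1 v := by
    intro u v
    rw [← B3_A1 h1, ← B3_A1 h1, ← B3_A1 h1, map_add, map_add]
  have ha : ∀ u v : ι → WW k ι, hh h1 (u + v) = hh h1 u + hh h1 v := by
    intro u v
    rw [← B3_A2 h1, ← B3_A2 h1, ← B3_A2 h1, map_add, map_add]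
  rw [s1, s2, s3, ga, ha, gg_gg, hh_hh, sub_eq_add_neg, hneg] at q3
  have s4 : z + hh h1 z = 0 := by
    have h5 : z + hh h1 z + gg h1 z + (gg h1 z + (z + hh h1 z)) + (hh h1 z + 0 + z) =
      (z + hh h1 z) + (gg h1 z + gg h1 z) + (z + z) + (hh h1 z + hh h1 z) := by abel
    rw [h5, hd, hd, hd] at q3
    simpa using q3
  have s5 : hh h1 z = 0 := by
    have h5 : hh h1 (z + hh h1 z) = 0 := by
      rw [s4]
      have := ha 0 0
      rw [add_zero, left_eq_add] at this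
      exact this
    rw [ha, hh_hh, add_zero] at h5
    exact h5
  have s6 : z = 0 := by rw [s5, add_zero] at s4; exact s4
  rw [s6] at s5
  have s7 : gg h1 (0 : ι → WW k ι) = 0 := by
    have := ga 0 0
    rw [add_zero, left_eq_add] at this
    exact this
  rw [s6, s5, s7] at s2
  rw [s6, s7] at s3
  rw [s6, s5] at s1
  refine ⟨⟨?_, ?_⟩, ?_, s6⟩
  · rw [s2]; simp
  · rw [s3]; simp
  · rw [s1]; simp

/-- four copies -/
lemma four_copies (h2 : (2 : k) = 0) (hP : Pair D D') (h1 : (Fintype.card ι : k) = 1) :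
    ∃ R, cls (leg D (leg D (leg D' (wr hP)))) =
      ((cls (leg D (wr hP)) + cls (leg D (wr hP))) + (cls (leg D (wr hP)) + cls (leg D (wr hP))))
        + R := by
  have eA0 : Eqv (leg D (wr hP)) (leg D (leg D (leg D' (wr hP))))
      (lmap ι (ins2 k ι (WW k ι))) := lmap_eqv D (ins2_eqv hP _)
  have eA1 : Eqv (leg D (wr hP)) (leg D (leg D (leg D' (wr hP)))) (lmap ι (al1 h1)) :=
    lmap_eqv D (al1_eqv hP h1)
  have eA2 : Eqv (leg D (wr hP)) (leg D (leg D (leg D' (wr hP)))) (lmap ι (al2 h1)) :=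
    lmap_eqv D (al2_eqv hP h1)
  have eA3 : Eqv (leg D (wr hP)) (leg D (leg D (leg D' (wr hP)))) (A3 k ι) :=
    (swp_eqv D D _).comp (lmap_eqv D (ins2_eqv hP _))
  have eB0 : Eqv (leg D (leg D (leg D' (wr hP)))) (leg D (wr hP))
      (lmap ι (con2 k ι (WW k ι))) := lmap_eqv D (con2_eqv hP _)
  have eB1 : Eqv (leg D (leg D (leg D' (wr hP)))) (leg D (wr hP)) (lmap ι (be1 h1)) :=
    lmap_eqv D (be1_eqv hP h1)
  have eB2 : Eqv (leg D (leg D (leg D' (wr hP)))) (leg D (wr hP)) (lmap ι (be2 h1)) :=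
    lmap_eqv D (be2_eqv hP h1)
  have eB3 : Eqv (leg D (leg D (leg D' (wr hP)))) (leg D (wr hP)) (B3 k ι) :=
    (lmap_eqv D (con2_eqv hP _)).comp (swp_eqv D D _)
  rw [← cls_add, ← cls_add]
  obtain ⟨I, hI⟩ : ∃ I, I = ((lmap ι (ins2 k ι (WW k ι))).coprod (lmap ι (al1 h1))).coprod
    ((lmap ι (al2 h1)).coprod (A3 k ι)) := ⟨_, rfl⟩
  obtain ⟨B, hB⟩ : ∃ B, B = ((lmap ι (con2 k ι (WW k ι))).prod (lmap ι (be1 h1))).prod
    ((lmap ι (be2 h1)).prod (B3 k ι)) := ⟨_, rfl⟩
  have eI : Eqv (((leg D (wr hP)).prod (leg D (wr hP))).prod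
      ((leg D (wr hP)).prod (leg D (wr hP)))) (leg D (leg D (leg D' (wr hP)))) I := by
    rw [hI]
    rintro g ⟨⟨f, x⟩, ⟨y, z⟩⟩
    have e0 := eA0 g f
    have e1 := eA1 g x
    have e2 := eA2 g y
    have e3 := eA3 g z
    change lmap ι (ins2 k ι (WW k ι)) (leg D (wr hP) g f) + lmap ι (al1 h1) (leg D (wr hP) g x) +
      (lmap ι (al2 h1) (leg D (wr hP) g y) + A3 k ι (leg D (wr hP) g z)) =
      leg D (leg D (leg D' (wr hP))) g (lmap ι (ins2 k ι (WW k ι)) f + lmap ι (al1 h1) x +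
        (lmap ι (al2 h1) y + A3 k ι z))
    rw [e0, e1, e2, e3, map_add, map_add, map_add]
  have eB : Eqv (leg D (leg D (leg D' (wr hP)))) (((leg D (wr hP)).prod (leg D (wr hP))).prod
      ((leg D (wr hP)).prod (leg D (wr hP)))) B := by
    rw [hB]
    intro g F
    exact Prod.ext (Prod.ext (eB0 g F) (eB1 g F)) (Prod.ext (eB2 g F) (eB3 g F))
  have hinj : Function.Injective (B ∘ₗ I) := by
    rw [← LinearMap.ker_eq_bot, LinearMap.ker_eq_bot']
    rintro ⟨⟨f, x⟩, ⟨y, z⟩⟩ h0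
    obtain ⟨F, hF⟩ : ∃ F, F = lmap ι (ins2 k ι (WW k ι)) f + lmap ι (al1 h1) x +
      (lmap ι (al2 h1) y + A3 k ι z) := ⟨_, rfl⟩
    have hBF : B F = 0 := by rw [hF]; rw [hI] at h0; exact h0
    rw [hB] at hBF
    have q0 : lmap ι (con2 k ι (WW k ι)) F = 0 := congrArg (fun t => t.1.1) hBF
    have q1 : lmap ι (be1 h1) F = 0 := congrArg (fun t => t.1.2) hBF
    have q2 : lmap ι (be2 h1) F = 0 := congrArg (fun t => t.2.1) hBF
    have q3 : B3 k ι F = 0 := congrArg (fun t => t.2.2) hBF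
    rw [hF, map_add, map_add, map_add] at q0 q1 q2 q3
    have r1 : lmap ι (con2 k ι (WW k ι)) (lmap ι (ins2 k ι (WW k ι)) f) = f :=
      funext fun i => con_ins h1 (f i)
    have r2 : lmap ι (con2 k ι (WW k ι)) (lmap ι (al1 h1) x) = x :=
      funext fun i => con_al1 h1 (x i)
    have r3 : lmap ι (con2 k ι (WW k ι)) (lmap ι (al2 h1) y) = y :=
      funext fun i => con_al2 h1 (y i)
    have r4 : lmap ι (be1 h1) (lmap ι (ins2 k ι (WW k ι)) f) = f :=
      funext fun i => be1_ins h1 (f i)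
    have r5 : lmap ι (be1 h1) (lmap ι (al1 h1) x) = 0 := funext fun i => be1_al1 h1 (x i)
    have r6 : lmap ι (be1 h1) (lmap ι (al2 h1) y) = -y := funext fun i => be1_al2 h1 (y i)
    have r7 : lmap ι (be2 h1) (lmap ι (ins2 k ι (WW k ι)) f) = f :=
      funext fun i => be2_ins h1 (f i)
    have r8 : lmap ι (be2 h1) (lmap ι (al1 h1) x) = -x := funext fun i => be2_al1 h1 (x i)
    have r9 : lmap ι (be2 h1) (lmap ι (al2 h1) y) = 0 := funext fun i => be2_al2 h1 (y i)
    rw [r1, r2, r3, B0_A3] at q0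
    rw [r4, r5, r6, B1_A3 h1] at q1
    rw [r7, r8, r9, B2_A3 h1] at q2
    rw [B3_A0, B3_A1 h1, B3_A2 h1, B3_A3 h1] at q3
    obtain ⟨⟨t1, t2⟩, t3, t4⟩ := elim4 h2 h1 f x y z q0 q1 q2 q3
    exact Prod.ext (Prod.ext t1 t2) (Prod.ext t3 t4)
  exact ⟨_, cls_of_bij eI eB ⟨hinj, LinearMap.surjective_of_injective hinj⟩⟩

lemma wr_one (hP : Pair D D') (h1 : (Fintype.card ι : k) = 1) :
    D'.cl * D.cl = 1 + cls (wr hP) := by
  have e : cls (leg D (leg D' (1 : Representation k G k))) = D'.cl * D.cl := by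
    rw [cls_leg]; rfl
  rw [← e, ← cls_one]
  refine cls_of_bij (ins2_eqv hP _) (con2_eqv hP _) ⟨?_, ?_⟩
  · intro a b hab
    have h2 : con2 k ι k (ins2 k ι k a) = con2 k ι k (ins2 k ι k b) := hab
    rwa [con2_ins2, con2_ins2, h1, one_mul, one_mul] at h2
  · intro b
    refine ⟨b, ?_⟩
    change con2 k ι k (ins2 k ι k b) = b
    rw [con2_ins2, h1, one_mul]

theorem thmC2 {χ : Gr k G →+* ℝ} (hχ : NN χ) (h2 : (2 : k) = 0) (x : Gr k G)
    (hd : (x.dim : k) = 1) : χ x * χ x.star = 1 ∨ 4 ≤ χ x * χ x.star := by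
  obtain ⟨D, hD⟩ := exists_mrep x
  have hP := D.pair
  have h1 : D.cl.star = D.con.cl := star_cl D D.con hP
  rw [hD, h1]
  have hc : (Fintype.card (Fin x.dim) : k) = 1 := by rw [Fintype.card_fin, hd]
  obtain ⟨R, hR⟩ := four_copies h2 hP hc
  have hN := congrArg χ (wr_one hP hc)
  have hR' := hχ.mono hR
  simp only [cls_leg, map_mul, map_add, map_one] at hR' hN
  have ht := hχ (cls (wr hP))
  have ha := hχ D.cl
  have hb := hχ D.con.cl
  set t := χ (cls (wr hP))
  set a := χ D.cl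
  set b := χ D.con.cl
  rcases eq_or_lt_of_le ht with h | h
  · left; rw [mul_comm, hN, ← h, add_zero]
  · right
    have hab : 0 < a * b := by rw [mul_comm, hN]; linarith
    have ha0 : 0 < a := lt_of_le_of_ne ha fun h0 => by rw [← h0, zero_mul] at hab; exact lt_irrefl _ hab
    have h3 : 4 * (t * a) ≤ (a * b) * (t * a) := by nlinarith
    exact le_of_mul_le_mul_right h3 (mul_pos h ha0)

end

end Pool.Agent.V7H61
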