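import Mathlib

set_option autoImplicit false

/-!
Existence of semiring homomorphisms dominated by a submultiplicative additive function.
-/

open Filter Topology

namespace Pool.Agent.V7H61

/-- nonnegative, additive, submultiplicative, normalised -/
structure CF {R : Type*} [CommSemiring R] (c : R → ℝ) : Prop where
  nonneg : ∀ x, 0 ≤ c x
  add : ∀ x y, c (x + y) = c x + c y
  mul : ∀ x y, c (x * y) ≤ c x * c y
  one : c 1 = 1

/-- dominated functionals with prescribed eigenvalues -/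
def FF {R : Type*} [CommSemiring R] (c : R → ℝ) (E : Set (R × ℝ)) : Set (R → ℝ) :=
  {φ | (∀ x, 0 ≤ φ x) ∧ (∀ x y, φ (x + y) = φ x + φ y) ∧ (∀ x y, φ (x * y) ≤ c x * φ y) ∧
    φ 1 = 1 ∧ ∀ e ∈ E, ∀ x, φ (e.1 * x) = e.2 * φ x}

section

variable {R : Type*} [CommSemiring R] {c : R → ℝ} {E : Set (R × ℝ)}

lemma FF.le (φ : R → ℝ) (h : φ ∈ FF c E) (x : R) : φ x ≤ c x := by
  obtain ⟨_, _, h3, h4, _⟩ := h
  have := h3 x 1
  rwa [mul_one, h4, mul_one] at this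

lemma FF.isClosed : IsClosed (FF c E) := by
  have e : FF c E = (⋂ x, {φ : R → ℝ | 0 ≤ φ x}) ∩ ((⋂ x, ⋂ y, {φ : R → ℝ | φ (x + y) = φ x + φ y})
      ∩ ((⋂ x, ⋂ y, {φ : R → ℝ | φ (x * y) ≤ c x * φ y}) ∩ ({φ : R → ℝ | φ 1 = 1} ∩
      (⋂ e ∈ E, ⋂ x, {φ : R → ℝ | φ (e.1 * x) = e.2 * φ x})))) := by
    ext φ
    simp only [FF, Set.mem_ofPred_eq, Set.mem_inter_iff, Set.mem_iInter]
  rw [e]
  refine IsClosed.inter ?_ (IsClosed.inter ?_ (IsClosed.inter ?_ (IsClosed.inter ?_ ?_)))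
  · exact isClosed_iInter fun x => isClosed_le continuous_const (continuous_apply x)
  · exact isClosed_iInter fun x => isClosed_iInter fun y =>
      isClosed_eq (continuous_apply _) ((continuous_apply x).add (continuous_apply y))
  · exact isClosed_iInter fun x => isClosed_iInter fun y =>
      isClosed_le (continuous_apply _) (continuous_const.mul (continuous_apply _))
  · exact isClosed_eq (continuous_apply _) continuous_const
  · exact isClosed_iInter fun e => isClosed_iInter fun _ => isClosed_iInter fun x =>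
      isClosed_eq (continuous_apply _) (continuous_const.mul (continuous_apply _))

lemma FF.isCompact : IsCompact (FF c E) := by
  have h1 : IsCompact (Set.pi Set.univ fun x : R => Set.Icc (0 : ℝ) (c x)) :=
    isCompact_univ_pi fun x => isCompact_Icc
  refine h1.of_isClosed_subset FF.isClosed ?_
  intro φ hφ
  simp only [Set.mem_pi, Set.mem_univ, forall_true_left, Set.mem_Icc]
  exact fun x => ⟨hφ.1 x, FF.le φ hφ x⟩

/-- restriction of a functional along an element -/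
lemma FF.shift {φ : R → ℝ} (h : φ ∈ FF c E) (y : R) (hy : φ y ≠ 0) :
    (fun x => φ (y * x) / φ y) ∈ FF c E := by
  obtain ⟨h1, h2, h3, h4, h5⟩ := h
  have hy' : 0 < φ y := lt_of_le_of_ne (h1 y) (Ne.symm hy)
  refine ⟨fun x => div_nonneg (h1 _) (h1 _), fun x z => ?_, fun x z => ?_, ?_, fun e he x => ?_⟩
  · change φ (y * (x + z)) / φ y = φ (y * x) / φ y + φ (y * z) / φ y
    rw [mul_add, h2, add_div]
  · change φ (y * (x * z)) / φ y ≤ c x * (φ (y * z) / φ y)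
    rw [mul_div_assoc', div_le_div_iff_of_pos_right hy', mul_left_comm]
    exact h3 _ _
  · change φ (y * 1) / φ y = 1
    rw [mul_one, div_self hy]
  · change φ (y * (e.1 * x)) / φ y = e.2 * (φ (y * x) / φ y)
    rw [mul_left_comm, h5 e he, mul_div_assoc]

lemma FF.pow_le (hc : CF c) {φ : R → ℝ} (h : φ ∈ FF c E) (y : R) (n : ℕ) :
    φ (y ^ n) ≤ 1 * (c y) ^ n := by
  induction n with
  | zero => simp [h.2.2.2.1]
  | succ n ih =>
    rw [pow_succ', pow_succ']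
    calc φ (y * y ^ n) ≤ c y * φ (y ^ n) := h.2.2.1 _ _
      _ ≤ c y * (1 * c y ^ n) := mul_le_mul_of_nonneg_left ih (hc.nonneg y)
      _ = 1 * (c y * c y ^ n) := by ring

/-- admissible growth rates -/
def AR (c : R → ℝ) (E : Set (R × ℝ)) (Y : R) : Set ℝ :=
  {r | 0 ≤ r ∧ ∃ C, ∀ φ ∈ FF c E, ∀ n : ℕ, φ (Y ^ n) ≤ C * r ^ n}

lemma AR.mono {Y : R} {a r : ℝ} (ha : a ∈ AR c E Y) (har : a ≤ r) : r ∈ AR c E Y := by
  obtain ⟨h0, C, hC⟩ := ha
  refine ⟨h0.trans har, |C|, fun φ hφ n => (hC φ hφ n).trans ?_⟩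
  exact mul_le_mul (le_abs_self C) (pow_le_pow_left₀ h0 har n) (pow_nonneg h0 n) (abs_nonneg C)

lemma summ (hc : CF c) {Y : R} {r : ℝ} (hr : ∃ a ∈ AR c E Y, a < r) {φ : R → ℝ}
    (hφ : φ ∈ FF c E) (x : R) : Summable fun n : ℕ => φ (Y ^ n * x) / r ^ n := by
  obtain ⟨a, ⟨h0, C, hC⟩, har⟩ := hr
  have hr0 : 0 < r := lt_of_le_of_lt h0 har
  have hg : Summable fun n : ℕ => (c x * C) * (a / r) ^ n :=
    (summable_geometric_of_lt_one (div_nonneg h0 hr0.le) ((div_lt_one hr0).2 har)).mul_left _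
  refine Summable.of_nonneg_of_le (fun n => div_nonneg (hφ.1 _) (pow_nonneg hr0.le n)) ?_ hg
  intro n
  rw [div_pow, ← mul_div_assoc, div_le_div_iff_of_pos_right (pow_pos hr0 n)]
  calc φ (Y ^ n * x) = φ (x * Y ^ n) := by rw [mul_comm]
    _ ≤ c x * φ (Y ^ n) := hφ.2.2.1 _ _
    _ ≤ c x * (C * a ^ n) := mul_le_mul_of_nonneg_left (hC φ hφ n) (hc.nonneg x)
    _ = c x * C * a ^ n := by ring

/-- the resolvent sum -/
noncomputable def SS (Y : R) (r : ℝ) (φ : R → ℝ) (x : R) : ℝ := ∑' n : ℕ, φ (Y ^ n * x) / r ^ n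

lemma SS_ge (hc : CF c) {Y : R} {r : ℝ} (hr : ∃ a ∈ AR c E Y, a < r) {φ : R → ℝ}
    (hφ : φ ∈ FF c E) (x : R) : φ x ≤ SS Y r φ x := by
  have hr0 : 0 < r := by
    obtain ⟨a, ⟨h0, _⟩, har⟩ := hr; exact lt_of_le_of_lt h0 har
  have := (summ hc hr hφ x).le_tsum 0 fun n _ => div_nonneg (hφ.1 _) (pow_nonneg hr0.le n)
  simp only [pow_zero, one_mul, div_one] at this
  exact this

lemma SS_succ (hc : CF c) {Y : R} {r : ℝ} (hr : ∃ a ∈ AR c E Y, a < r) {φ : R → ℝ}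
    (hφ : φ ∈ FF c E) (x : R) : SS Y r φ x = φ x + SS Y r φ (Y * x) / r := by
  have hr0 : 0 < r := by
    obtain ⟨a, ⟨h0, _⟩, har⟩ := hr; exact lt_of_le_of_lt h0 har
  unfold SS
  rw [(summ hc hr hφ x).tsum_eq_zero_add, ← tsum_div_const]
  congr 1
  · simp
  · apply tsum_congr
    intro n
    rw [pow_succ, pow_succ, mul_assoc, div_div]

lemma exists_large (hc : CF c) (Y : R) (ε : ℝ) (hε : 0 < ε) :
    ∃ r, sInf (AR c E Y) < r ∧ r < sInf (AR c E Y) + ε ∧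
      ((∃ φ, φ ∈ FF c E) → ∃ φ ∈ FF c E, r / SS Y r φ 1 < ε) := by
  by_contra hcon
  push Not at hcon
  set ρ := sInf (AR c E Y) with hρ
  have hbdd : BddBelow (AR c E Y) := ⟨0, fun r hr => hr.1⟩
  have hcY : c Y ∈ AR c E Y := ⟨hc.nonneg Y, 1, fun φ hφ n => FF.pow_le hc hφ Y n⟩
  have hρ0 : 0 ≤ ρ := le_csInf ⟨_, hcY⟩ fun r hr => hr.1
  -- take r in the middle
  obtain ⟨r, hr⟩ : ∃ r, r = ρ + ε / 2 := ⟨_, rfl⟩
  have hr1 : ρ < r := by linarith
  have hr2 : r < ρ + ε := by linarith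
  obtain ⟨_, hall⟩ := hcon r hr1 hr2
  have hr0 : 0 < r := by linarith
  obtain ⟨a, ha, har⟩ := exists_lt_of_csInf_lt ⟨_, hcY⟩ hr1
  have hex : ∃ a ∈ AR c E Y, a < r := ⟨a, ha, har⟩
  set K : ℝ := r / ε with hK
  have hK0 : 0 < K := div_pos hr0 hε
  have hS1 : ∀ φ ∈ FF c E, 1 ≤ SS Y r φ 1 := by
    intro φ hφ
    have := SS_ge hc hex hφ 1
    rwa [hφ.2.2.2.1] at this
  have hSK : ∀ φ ∈ FF c E, SS Y r φ 1 ≤ K := by
    intro φ hφ
    have h1 := hall φ hφ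
    have h2 : 0 < SS Y r φ 1 := lt_of_lt_of_le one_pos (hS1 φ hφ)
    rw [le_div_iff₀ h2] at h1
    rw [hK, le_div_iff₀ hε]; linarith
  -- tails
  have htail : ∀ φ ∈ FF c E, ∀ i : ℕ, SS Y r φ (Y ^ i) ≤ K * φ (Y ^ i) := by
    intro φ hφ i
    by_cases h0 : φ (Y ^ i) = 0
    · have : SS Y r φ (Y ^ i) = 0 := by
        unfold SS
        have : ∀ n : ℕ, φ (Y ^ n * Y ^ i) / r ^ n = 0 := by
          intro n
          have h1 := hφ.2.2.1 (Y ^ n) (Y ^ i)
          rw [h0, mul_zero] at h1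
          rw [le_antisymm h1 (hφ.1 _), zero_div]
        simp [this]
      rw [this, h0, mul_zero]
    · have hpos : 0 < φ (Y ^ i) := lt_of_le_of_ne (hφ.1 _) (Ne.symm h0)
      have h1 := hSK _ (FF.shift hφ (Y ^ i) h0)
      have h2 : SS Y r (fun x => φ (Y ^ i * x) / φ (Y ^ i)) 1 = SS Y r φ (Y ^ i) / φ (Y ^ i) := by
        unfold SS
        rw [← tsum_div_const]
        apply tsum_congr
        intro n
        change φ (Y ^ i * (Y ^ n * 1)) / φ (Y ^ i) / r ^ n = φ (Y ^ n * Y ^ i) / r ^ n / φ (Y ^ i)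
        rw [mul_one, mul_comm (Y ^ i), div_right_comm]
      rw [h2, div_le_iff₀ hpos] at h1
      exact h1
  have hdec : ∀ φ ∈ FF c E, ∀ i : ℕ, SS Y r φ (Y ^ i) / r ^ i ≤ K * (1 - 1 / K) ^ i := by
    intro φ hφ i
    induction i with
    | zero =>
      rw [pow_zero, pow_zero, pow_zero, div_one, mul_one]
      exact hSK φ hφ
    | succ i ih =>
      have h1 := SS_succ hc hex hφ (Y ^ i)
      have h2 := htail φ hφ i
      rw [← pow_succ'] at h1
      have h3 : SS Y r φ (Y ^ (i + 1)) / r ≤ (1 - 1 / K) * SS Y r φ (Y ^ i) := by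
        have h4 : SS Y r φ (Y ^ i) / K ≤ φ (Y ^ i) := by
          rw [div_le_iff₀ hK0]; linarith
        have h5 : (1 - 1 / K) * SS Y r φ (Y ^ i) = SS Y r φ (Y ^ i) - SS Y r φ (Y ^ i) / K := by
          ring
        rw [h5]; linarith
      have h0K : 0 ≤ 1 - 1 / K := by
        have h6 := (hS1 φ hφ).trans (hSK φ hφ)
        rw [sub_nonneg, div_le_one hK0]; exact h6
      calc SS Y r φ (Y ^ (i + 1)) / r ^ (i + 1)
          = (SS Y r φ (Y ^ (i + 1)) / r) / r ^ i := by rw [pow_succ' r, div_div]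
        _ ≤ ((1 - 1 / K) * SS Y r φ (Y ^ i)) / r ^ i :=
            div_le_div_of_nonneg_right h3 (pow_nonneg hr0.le i)
        _ = (1 - 1 / K) * (SS Y r φ (Y ^ i) / r ^ i) := by ring
        _ ≤ (1 - 1 / K) * (K * (1 - 1 / K) ^ i) := mul_le_mul_of_nonneg_left ih h0K
        _ = K * (1 - 1 / K) ^ (i + 1) := by ring
  by_cases hne : ∃ φ, φ ∈ FF c E
  · have h0K : 0 ≤ 1 - 1 / K := by
      obtain ⟨φ, hφ⟩ := hne
      have h6 := (hS1 φ hφ).trans (hSK φ hφ)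
      rw [sub_nonneg, div_le_one hK0]; exact h6
    have hmem : (1 - 1 / K) * r ∈ AR c E Y := by
      refine ⟨mul_nonneg h0K hr0.le, K, fun φ hφ n => ?_⟩
      have h1 := (div_le_div_of_nonneg_right (SS_ge hc hex hφ (Y ^ n)) (pow_nonneg hr0.le n)).trans
        (hdec φ hφ n)
      rw [div_le_iff₀ (pow_pos hr0 n)] at h1
      rw [mul_pow]; linarith
    have h2 := csInf_le hbdd hmem
    have h3 : (1 - 1 / K) * r = r - ε := by
      rw [hK]; field_simp
    rw [h3] at h2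
    linarith
  · have hmem : (0 : ℝ) ∈ AR c E Y := ⟨le_refl _, 0, fun φ hφ => absurd ⟨φ, hφ⟩ hne⟩
    obtain ⟨⟨φ, hφ⟩, _⟩ := hcon r hr1 hr2
    exact hne ⟨φ, hφ⟩

lemma psi_mem (hc : CF c) {Y : R} {r : ℝ} (hr : ∃ a ∈ AR c E Y, a < r) {φ : R → ℝ}
    (hφ : φ ∈ FF c E) : (fun x => SS Y r φ x / SS Y r φ 1) ∈ FF c E := by
  have hr0 : 0 < r := by
    obtain ⟨a, ⟨h0, _⟩, har⟩ := hr; exact lt_of_le_of_lt h0 har
  have hS1 : 1 ≤ SS Y r φ 1 := by
    have := SS_ge hc hr hφ 1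
    rwa [hφ.2.2.2.1] at this
  have hS0 : 0 < SS Y r φ 1 := lt_of_lt_of_le one_pos hS1
  refine ⟨fun x => div_nonneg ((hφ.1 x).trans (SS_ge hc hr hφ x)) hS0.le, fun x y => ?_,
    fun x y => ?_, div_self hS0.ne', fun e he x => ?_⟩
  · change SS Y r φ (x + y) / _ = SS Y r φ x / _ + SS Y r φ y / _
    rw [← add_div]
    congr 1
    unfold SS
    rw [← (summ hc hr hφ x).tsum_add (summ hc hr hφ y)]
    apply tsum_congr
    intro n
    rw [mul_add, hφ.2.1, add_div]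
  · change SS Y r φ (x * y) / _ ≤ c x * (SS Y r φ y / _)
    rw [← mul_div_assoc, div_le_div_iff_of_pos_right hS0]
    unfold SS
    rw [← tsum_mul_left]
    apply (summ hc hr hφ _).tsum_le_tsum _ ((summ hc hr hφ _).mul_left _)
    intro n
    rw [← mul_div_assoc, div_le_div_iff_of_pos_right (pow_pos hr0 n), mul_left_comm]
    exact hφ.2.2.1 _ _
  · change SS Y r φ (e.1 * x) / _ = e.2 * (SS Y r φ x / _)
    rw [← mul_div_assoc]
    congr 1
    unfold SS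
    rw [← tsum_mul_left]
    apply tsum_congr
    intro n
    rw [mul_left_comm, hφ.2.2.2.2 e he, mul_div_assoc]

/-- one more eigenvalue -/
theorem eig (hc : CF c) (hne : (FF c E).Nonempty) (Y : R) :
    ∃ ρ : ℝ, (FF c (insert (Y, ρ) E)).Nonempty ∧
      ∀ r > ρ, ∃ C, ∀ φ ∈ FF c E, ∀ n : ℕ, φ (Y ^ n) ≤ C * r ^ n := by
  have hbdd : BddBelow (AR c E Y) := ⟨0, fun r hr => hr.1⟩
  have hcY : c Y ∈ AR c E Y := ⟨hc.nonneg Y, 1, fun φ hφ n => FF.pow_le hc hφ Y n⟩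
  refine ⟨sInf (AR c E Y), ?_, ?_⟩
  · set ρ := sInf (AR c E Y) with hρ
    have hcho : ∀ m : ℕ, ∃ r φ, ρ < r ∧ r < ρ + 1 / ((m : ℝ) + 1) ∧ φ ∈ FF c E ∧
        r / SS Y r φ 1 < 1 / ((m : ℝ) + 1) := by
      intro m
      obtain ⟨r, h1, h2, h3⟩ := exists_large (c := c) (E := E) hc Y (1 / ((m : ℝ) + 1))
        Nat.one_div_pos_of_nat
      obtain ⟨φ, hφ, h4⟩ := h3 hne
      exact ⟨r, φ, h1, h2, hφ, h4⟩
    choose r φ h1 h2 h3 h4 using hcho
    have hex : ∀ m, ∃ a ∈ AR c E Y, a < r m := fun m => exists_lt_of_csInf_lt ⟨_, hcY⟩ (h1 m)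
    obtain ⟨ψ, hψ⟩ : ∃ ψ : ℕ → R → ℝ, ψ = fun m x => SS Y (r m) (φ m) x / SS Y (r m) (φ m) 1 :=
      ⟨_, rfl⟩
    have hψm : ∀ m, ψ m ∈ FF c E := fun m => by
      rw [hψ]; exact psi_mem hc (hex m) (h3 m)
    obtain ⟨χ, hχ, hlim⟩ := (FF.isCompact (c := c) (E := E)).ultrafilter_le_nhds
      (Ultrafilter.map ψ (Filter.hyperfilter ℕ))
      (Filter.le_principal_iff.2 (Filter.mem_map.2 (Filter.univ_mem' hψm)))
    have hlim' : Tendsto ψ (Filter.hyperfilter ℕ : Filter ℕ) (𝓝 χ) := hlim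
    have hev : ∀ x, Tendsto (fun m => ψ m x) (Filter.hyperfilter ℕ : Filter ℕ) (𝓝 (χ x)) :=
      fun x => ((continuous_apply x).tendsto χ).comp hlim'
    have hz : Tendsto (fun m : ℕ => 1 / ((m : ℝ) + 1)) (Filter.hyperfilter ℕ : Filter ℕ) (𝓝 0) :=
      tendsto_one_div_add_atTop_nhds_zero_nat.mono_left Nat.hyperfilter_le_atTop
    have hr0 : Tendsto r (Filter.hyperfilter ℕ : Filter ℕ) (𝓝 ρ) := by
      have hu : Tendsto (fun m : ℕ => ρ + 1 / ((m : ℝ) + 1)) (Filter.hyperfilter ℕ : Filter ℕ)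
          (𝓝 (ρ + 0)) := tendsto_const_nhds.add hz
      rw [add_zero] at hu
      exact tendsto_of_tendsto_of_tendsto_of_le_of_le tendsto_const_nhds hu
        (fun m => (h1 m).le) (fun m => (h2 m).le)
    refine ⟨χ, hχ.1, hχ.2.1, hχ.2.2.1, hχ.2.2.2.1, ?_⟩
    intro e he x
    rcases Set.mem_insert_iff.1 he with rfl | he'
    · change χ (Y * x) = ρ * χ x
      -- ψ m (Y x) = r m ψ m x - (r m / S) φ m x
      have hrel : ∀ m, ψ m (Y * x) =
          r m * ψ m x - (r m / SS Y (r m) (φ m) 1) * φ m x := by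
        intro m
        have hrm : 0 < r m := by
          obtain ⟨a, ⟨h0, _⟩, har⟩ := hex m; exact lt_of_le_of_lt h0 har
        have h5 := SS_succ hc (hex m) (h3 m) x
        rw [hψ]
        change SS Y (r m) (φ m) (Y * x) / _ = r m * (SS Y (r m) (φ m) x / _) - _
        rw [h5]
        field_simp
        ring
      have hsmall : Tendsto (fun m => (r m / SS Y (r m) (φ m) 1) * φ m x)
          (Filter.hyperfilter ℕ : Filter ℕ) (𝓝 0) := by
        have hu : Tendsto (fun m : ℕ => (1 / ((m : ℝ) + 1)) * c x)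
            (Filter.hyperfilter ℕ : Filter ℕ) (𝓝 (0 * c x)) := hz.mul tendsto_const_nhds
        rw [zero_mul] at hu
        refine tendsto_of_tendsto_of_tendsto_of_le_of_le tendsto_const_nhds hu
          (fun m => ?_) (fun m => ?_)
        · have hrm : 0 < r m := by
            obtain ⟨a, ⟨h0, _⟩, har⟩ := hex m; exact lt_of_le_of_lt h0 har
          exact mul_nonneg (div_nonneg hrm.le (((h3 m).1 1).trans (SS_ge hc (hex m) (h3 m) 1)))
            ((h3 m).1 x)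
        · exact mul_le_mul (h4 m).le (FF.le _ (h3 m) x) ((h3 m).1 x)
            (by positivity)
      have hR : Tendsto (fun m => r m * ψ m x - (r m / SS Y (r m) (φ m) 1) * φ m x)
          (Filter.hyperfilter ℕ : Filter ℕ) (𝓝 (ρ * χ x - 0)) :=
        (hr0.mul (hev x)).sub hsmall
      rw [sub_zero] at hR
      have hL := hev (Y * x)
      simp only [hrel] at hL
      exact tendsto_nhds_unique hL hR
    · exact hχ.2.2.2.2 e he' x
  · intro r hr
    obtain ⟨a, ha, har⟩ := exists_lt_of_csInf_lt ⟨_, hcY⟩ hr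
    exact (AR.mono ha har.le).2

/-- Semiring homomorphisms with prescribed extreme value. -/
theorem exists_hom (hc : CF c) (Y : R) : ∃ χ : R →+* ℝ, (∀ x, 0 ≤ χ x) ∧ (∀ x, χ x ≤ c x) ∧
    ∀ r > χ Y, ∃ C, ∀ n : ℕ, c (Y ^ n) ≤ C * r ^ n := by
  have hc0 : c ∈ FF c ∅ := ⟨hc.nonneg, hc.add, hc.mul, hc.one, fun e he => absurd he (by simp)⟩
  obtain ⟨ρ, hne, hρ⟩ := eig (E := ∅) hc ⟨c, hc0⟩ Y
  have hfin : ∀ s : Finset R, ∃ E : Set (R × ℝ), (insert (Y, ρ) (∅ : Set (R × ℝ))) ⊆ E ∧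
      (FF c E).Nonempty ∧ ∀ y ∈ s, ∃ l : ℝ, (y, l) ∈ E := by
    intro s
    classical
    induction s using Finset.induction_on with
    | empty => exact ⟨_, subset_rfl, hne, by simp⟩
    | insert a s _ ih =>
      obtain ⟨E, h1, h2, h3⟩ := ih
      obtain ⟨l, h4, _⟩ := eig hc h2 a
      refine ⟨_, h1.trans (Set.subset_insert _ _), h4, fun y hy => ?_⟩
      rcases Finset.mem_insert.1 hy with rfl | hy
      · exact ⟨l, Set.mem_insert _ _⟩
      · obtain ⟨l', h5⟩ := h3 y hy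
        exact ⟨l', Set.mem_insert_of_mem _ h5⟩
  have hmono : ∀ {E E' : Set (R × ℝ)}, E ⊆ E' → FF c E' ⊆ FF c E := by
    intro E E' h φ hφ
    exact ⟨hφ.1, hφ.2.1, hφ.2.2.1, hφ.2.2.2.1, fun e he => hφ.2.2.2.2 e (h he)⟩
  have hK : IsCompact (FF c (insert (Y, ρ) (∅ : Set (R × ℝ)))) := FF.isCompact
  obtain ⟨φ, hφ, hφ2⟩ := hK.inter_iInter_nonempty
    (fun y : R => {φ : R → ℝ | ∀ x, φ (y * x) = φ y * φ x})
    (fun y => by
      have : {φ : R → ℝ | ∀ x, φ (y * x) = φ y * φ x} =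
          ⋂ x, {φ : R → ℝ | φ (y * x) = φ y * φ x} := by
        ext φ; simp
      rw [this]
      exact isClosed_iInter fun x => isClosed_eq (continuous_apply _)
        ((continuous_apply y).mul (continuous_apply x)))
    (fun u => by
      obtain ⟨E, h1, ⟨φ, hφ⟩, h3⟩ := hfin u
      refine ⟨φ, hmono h1 hφ, ?_⟩
      simp only [Set.mem_iInter]
      intro y hy x
      obtain ⟨l, hl⟩ := h3 y hy
      have h4 := hφ.2.2.2.2 _ hl x
      have h5 := hφ.2.2.2.2 _ hl 1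
      simp only [mul_one, hφ.2.2.2.1] at h4 h5
      rw [h4, h5])
  simp only [Set.mem_iInter] at hφ2
  have hφ0 : φ 0 = 0 := by
    have := hφ.2.1 0 0
    rw [add_zero] at this; linarith
  refine ⟨{ toFun := φ, map_one' := hφ.2.2.2.1, map_mul' := fun x y => hφ2 x y, map_zero' := hφ0,
            map_add' := hφ.2.1 }, hφ.1, fun x => FF.le φ hφ x, ?_⟩
  intro r hr
  have h6 : φ Y = ρ := by
    have := hφ.2.2.2.2 _ (Set.mem_insert _ _) 1
    simpa [hφ.2.2.2.1] using this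
  have hr' : r > ρ := by rw [← h6]; exact hr
  obtain ⟨C, hC⟩ := hρ r hr'
  exact ⟨C, fun n => hC c hc0 n⟩

end

end Pool.Agent.V7H61
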