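import Pool.Agent.V7H61.Gr

set_option autoImplicit false

/-!
Projective classes (Higman's criterion), and the dimension of the core.
-/

open scoped TensorProduct

universe u v

namespace Pool.Agent.V7H61

section

variable {k : Type u} {G : Type v} [Field k] [Group G] [Fintype G]
variable {V W U X : Type u} [AddCommGroup V] [Module k V] [AddCommGroup W] [Module k W]
  [AddCommGroup U] [Module k U] [AddCommGroup X] [Module k X]

/-- the sum of all conjugates of `θ` -/
noncomputable def rtr (ρ : Representation k G V) (σ : Representation k G W) (θ : V →ₗ[k] W) :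
    V →ₗ[k] W := ∑ g : G, σ g ∘ₗ θ ∘ₗ ρ g⁻¹

lemma rtr_apply (ρ : Representation k G V) (σ : Representation k G W) (θ : V →ₗ[k] W) (v : V) :
    rtr ρ σ θ v = ∑ g : G, σ g (θ (ρ g⁻¹ v)) := by
  simp [rtr, LinearMap.sum_apply]

lemma rtr_comp {ρ : Representation k G V} {σ : Representation k G W} {τ : Representation k G U}
    {f : U →ₗ[k] V} (hf : Eqv τ ρ f) (θ : V →ₗ[k] W) :
    rtr ρ σ θ ∘ₗ f = rtr τ σ (θ ∘ₗ f) := by
  apply LinearMap.ext; intro v
  simp only [LinearMap.comp_apply, rtr_apply]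
  exact Finset.sum_congr rfl fun g _ => by rw [hf]

lemma comp_rtr {ρ : Representation k G V} {σ : Representation k G W} {τ : Representation k G U}
    {f : W →ₗ[k] U} (hf : Eqv σ τ f) (θ : V →ₗ[k] W) :
    f ∘ₗ rtr ρ σ θ = rtr ρ τ (f ∘ₗ θ) := by
  apply LinearMap.ext; intro v
  simp only [LinearMap.comp_apply, rtr_apply, map_sum]
  exact Finset.sum_congr rfl fun g _ => by rw [hf]

/-- Higman's criterion for projectivity -/
def HP (ρ : Representation k G V) : Prop := ∃ θ, rtr ρ ρ θ = LinearMap.id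

/-- a retract of a projective is projective -/
lemma HP.retract {ρ : Representation k G V} {σ : Representation k G W} (h : HP ρ)
    {i : W →ₗ[k] V} {r : V →ₗ[k] W} (hi : Eqv σ ρ i) (hr : Eqv ρ σ r)
    (hri : r ∘ₗ i = LinearMap.id) : HP σ := by
  obtain ⟨θ, hθ⟩ := h
  refine ⟨r ∘ₗ θ ∘ₗ i, ?_⟩
  rw [← comp_rtr hr, ← rtr_comp hi, hθ]
  simpa using hri

lemma HP.iso {ρ : Representation k G V} {σ : Representation k G W} (h : HP ρ) (e : Iso ρ σ) :
    HP σ := by
  obtain ⟨e, he⟩ := e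
  have h1 : Eqv ρ σ e.toLinearMap := he
  exact h.retract h1.symm h1 (by ext; simp)

lemma HP.prod {ρ : Representation k G V} {σ : Representation k G W} (h : HP ρ) (h' : HP σ) :
    HP (ρ.prod σ) := by
  obtain ⟨θ, hθ⟩ := h
  obtain ⟨η, hη⟩ := h'
  refine ⟨LinearMap.prodMap θ η, ?_⟩
  apply LinearMap.ext; rintro ⟨v, w⟩
  have h1 := LinearMap.congr_fun hθ v
  have h2 := LinearMap.congr_fun hη w
  rw [rtr_apply] at h1 h2 ⊢
  have : ∀ g : G, (ρ.prod σ) g ((LinearMap.prodMap θ η) ((ρ.prod σ) g⁻¹ (v, w))) =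
      (ρ g (θ (ρ g⁻¹ v)), σ g (η (σ g⁻¹ w))) := fun g => rfl
  simp only [this]
  simp only [LinearMap.id_apply] at h1 h2 ⊢
  exact Prod.ext (by rw [Prod.fst_sum]; exact h1) (by rw [Prod.snd_sum]; exact h2)

lemma HP.tprod {ρ : Representation k G V} (h : HP ρ) (σ : Representation k G W) :
    HP (ρ.tprod σ) := by
  obtain ⟨θ, hθ⟩ := h
  refine ⟨TensorProduct.map θ LinearMap.id, ?_⟩
  apply TensorProduct.ext'
  intro v w
  have h1 := LinearMap.congr_fun hθ v
  rw [rtr_apply] at h1 ⊢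
  have : ∀ g : G, (ρ.tprod σ) g ((TensorProduct.map θ LinearMap.id)
      ((ρ.tprod σ) g⁻¹ (v ⊗ₜ[k] w))) = (ρ g (θ (ρ g⁻¹ v))) ⊗ₜ[k] w := fun g => by
    simp [Representation.tprod_apply]
  simp only [this]
  rw [← TensorProduct.sum_tmul, h1]; rfl

lemma HP.dual {ρ : Representation k G V} (h : HP ρ) : HP ρ.dual := by
  obtain ⟨θ, hθ⟩ := h
  refine ⟨θ.dualMap, ?_⟩
  apply LinearMap.ext; intro f
  apply LinearMap.ext; intro v
  have h1 := LinearMap.congr_fun hθ v
  rw [rtr_apply] at h1 ⊢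
  rw [LinearMap.sum_apply]
  have : ∀ g : G, (ρ.dual g (θ.dualMap (ρ.dual g⁻¹ f))) v = f (ρ g (θ (ρ g⁻¹ v))) := fun g => by
    change f (ρ (g⁻¹)⁻¹ (θ (ρ g⁻¹ v))) = _
    rw [inv_inv]
  simp only [this]
  rw [← map_sum, h1]; rfl

/-- projective classes -/
def Gr.Proj : Gr k G → Prop :=
  Quotient.lift (fun A : Obj k G => HP A.ρ) fun _ _ h =>
    propext ⟨fun h' => h'.iso h, fun h' => h'.iso (Iso.symm h)⟩

lemma proj_cls [FiniteDimensional k V] (ρ : Representation k G V) : (cls ρ).Proj ↔ HP ρ := Iff.rfl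

lemma proj_zero : (0 : Gr k G).Proj := by
  rw [← cls_zero, proj_cls]
  exact ⟨0, LinearMap.ext fun _ => Subsingleton.elim _ _⟩

lemma Gr.Proj.add {x y : Gr k G} (hx : x.Proj) (hy : y.Proj) : (x + y).Proj := by
  induction x using Gr.ind with | _ V ρ
  induction y using Gr.ind with | _ W σ
  exact HP.prod hx hy

lemma Gr.Proj.left {x y : Gr k G} (h : (x + y).Proj) : x.Proj := by
  induction x using Gr.ind with | _ V ρ
  induction y using Gr.ind with | _ W σ
  exact HP.retract (ρ := ρ.prod σ) (σ := ρ) h (i := LinearMap.inl k V W)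
    (r := LinearMap.fst k V W)
    (fun g v => Prod.ext rfl (map_zero (σ g)).symm) (fun _ _ => rfl) rfl

lemma Gr.Proj.right {x y : Gr k G} (h : (x + y).Proj) : y.Proj := by
  rw [add_comm] at h; exact h.left

lemma Gr.Proj.mul {x : Gr k G} (h : x.Proj) (y : Gr k G) : (x * y).Proj := by
  induction x using Gr.ind with | _ V ρ
  induction y using Gr.ind with | _ W σ
  exact HP.tprod h σ

lemma Gr.Proj.star {x : Gr k G} (h : x.Proj) : x.star.Proj := by
  induction x using Gr.ind with | _ V ρ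
  exact HP.dual h

end

section split

variable {k : Type u} {G : Type v} [Field k] [Group G]
variable {V W U X : Type u} [AddCommGroup V] [Module k V] [AddCommGroup W] [Module k W]
  [AddCommGroup U] [Module k U] [AddCommGroup X] [Module k X]
  [FiniteDimensional k V] [FiniteDimensional k W] [FiniteDimensional k U]

/-- the kernel of an equivariant map as a representation -/
noncomputable def kerRep {ρ : Representation k G V} {σ : Representation k G W} {f : V →ₗ[k] W}
    (hf : Eqv ρ σ f) : Representation k G (LinearMap.ker f) :=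
  ρ.subrepresentation (LinearMap.ker f) fun g v hv => by
    rw [Submodule.mem_comap, LinearMap.mem_ker, hf, LinearMap.mem_ker.1 hv, map_zero]

omit [FiniteDimensional k V] [FiniteDimensional k W] in
@[simp] lemma kerRep_coe {ρ : Representation k G V} {σ : Representation k G W} {f : V →ₗ[k] W}
    (hf : Eqv ρ σ f) (g : G) (x : LinearMap.ker f) : (kerRep hf g x : V) = ρ g x := rfl

/-- the image of an equivariant map as a representation -/
noncomputable def rangeRep {ρ : Representation k G V} {σ : Representation k G W} {f : V →ₗ[k] W}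
    (hf : Eqv ρ σ f) : Representation k G (LinearMap.range f) :=
  σ.subrepresentation (LinearMap.range f) fun g v hv => by
    obtain ⟨w, rfl⟩ := hv
    exact ⟨ρ g w, hf g w⟩

omit [FiniteDimensional k V] [FiniteDimensional k W] in
@[simp] lemma rangeRep_coe {ρ : Representation k G V} {σ : Representation k G W} {f : V →ₗ[k] W}
    (hf : Eqv ρ σ f) (g : G) (x : LinearMap.range f) : (rangeRep hf g x : W) = σ g x := rfl

/-- If `β ∘ i` is bijective then the source of `i` is a direct summand. -/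
lemma cls_of_bij {ρ : Representation k G V} {σ : Representation k G W} {τ : Representation k G U}
    {i : V →ₗ[k] W} {β : W →ₗ[k] U} (hi : Eqv ρ σ i) (hβ : Eqv σ τ β)
    (hb : Function.Bijective (β ∘ₗ i)) : cls σ = cls ρ + cls (kerRep hβ) := by
  rw [← cls_add]
  refine (cls_bij (ρ := ρ.prod (kerRep hβ)) (σ := σ)
    (i.coprod (LinearMap.ker β).subtype) ?_ ⟨?_, ?_⟩).symm
  · rintro g ⟨v, z⟩
    change i (ρ g v) + (kerRep hβ g z : W) = σ g (i v + (z : W))
    rw [hi, kerRep_coe, map_add]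
  · intro a b hab
    obtain ⟨v, z⟩ := a
    obtain ⟨v', z'⟩ := b
    have h0 : i v + (z : W) = i v' + (z' : W) := hab
    have h1 : (β ∘ₗ i) v = (β ∘ₗ i) v' := by
      have := congrArg β h0
      rw [map_add, map_add, LinearMap.mem_ker.1 z.2, LinearMap.mem_ker.1 z'.2, add_zero,
        add_zero] at this
      exact this
    have h2 := hb.1 h1
    subst h2
    have h3 : (z : W) = z' := add_left_cancel h0
    rw [Subtype.ext h3]
  · intro w
    obtain ⟨v, hv⟩ := hb.2 (β w)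
    refine ⟨(v, ⟨w - i v, ?_⟩), ?_⟩
    · rw [LinearMap.mem_ker, map_sub, ← hv]; simp
    · change i v + (w - i v) = w
      abel

/-- a retract is a direct summand -/
lemma cls_of_retract {ρ : Representation k G V} {σ : Representation k G W}
    {i : V →ₗ[k] W} {β : W →ₗ[k] V} (hi : Eqv ρ σ i) (hβ : Eqv σ ρ β)
    (h : ∀ v, β (i v) = v) : ∃ x, cls σ = cls ρ + x :=
  ⟨_, cls_of_bij hi hβ ⟨fun a b hab => by simpa [h] using hab, fun b => ⟨b, by simp [h]⟩⟩⟩

end split

section pure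

variable {k : Type u} {G : Type v} [Field k] [Group G] [Fintype G]
variable {V W U X : Type u} [AddCommGroup V] [Module k V] [AddCommGroup W] [Module k W]
  [AddCommGroup U] [Module k U] [AddCommGroup X] [Module k X]
  [FiniteDimensional k V] [FiniteDimensional k W] [FiniteDimensional k U]

/-- no nonzero projective summand -/
def Gr.Pure (x : Gr k G) : Prop := ∀ w q : Gr k G, x = w + q → q.Proj → q = 0

lemma nilp {ρ : Representation k G V} (hp : (cls ρ).Pure) {f : V →ₗ[k] V} (hf : Eqv ρ ρ f)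
    {θ : V →ₗ[k] V} (hθ : f = rtr ρ ρ θ) : ∃ n : ℕ, (f : Module.End k V) ^ n = 0 := by
  obtain ⟨N, hN⟩ := Filter.eventually_atTop.1
    (Module.End.eventually_disjoint_ker_pow_range_pow (R := k) (M := V) f)
  obtain ⟨n, hn⟩ : ∃ n, n = N + 1 := ⟨_, rfl⟩
  have hd : Disjoint (LinearMap.ker (f ^ n)) (LinearMap.range (f ^ n)) := hN n (by omega)
  refine ⟨n, ?_⟩
  have hF : Eqv ρ ρ (f ^ n) := hf.pow n
  have hFθ : (f ^ n : Module.End k V) = rtr ρ ρ ((f ^ N) ∘ₗ θ) := by
    rw [hn, pow_succ, ← comp_rtr (hf.pow N), ← hθ]; rfl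
  set F : V →ₗ[k] V := f ^ n with hFdef
  have hR : Eqv ρ (rangeRep hF) F.rangeRestrict := fun g v => Subtype.ext (hF g v)
  have hι : Eqv (rangeRep hF) ρ (LinearMap.range F).subtype := fun g v => rfl
  have hinj : Function.Injective (F.rangeRestrict ∘ₗ (LinearMap.range F).subtype) := by
    rw [← LinearMap.ker_eq_bot, LinearMap.ker_eq_bot']
    intro r hr
    have h1 : F r = 0 := congrArg Subtype.val hr
    have h2 : (r : V) ∈ LinearMap.ker F ⊓ LinearMap.range F := ⟨h1, r.2⟩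
    rw [hd.eq_bot] at h2
    exact Subtype.ext h2
  have hbij : Function.Bijective (F.rangeRestrict ∘ₗ (LinearMap.range F).subtype) :=
    ⟨hinj, LinearMap.surjective_of_injective hinj⟩
  have h1 := cls_of_bij hι hR hbij
  have hq : (cls (rangeRep hF)).Proj := by
    rw [proj_cls]
    set e := LinearEquiv.ofBijective _ hbij with he
    have hee : Eqv (rangeRep hF) (rangeRep hF) e.toLinearMap := fun g v => by
      change (F.rangeRestrict ∘ₗ (LinearMap.range F).subtype) _ = _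
      rw [(hR.comp hι)]; rfl
    refine ⟨e.symm.toLinearMap ∘ₗ e.symm.toLinearMap ∘ₗ
      F.rangeRestrict ∘ₗ ((f ^ N) ∘ₗ θ) ∘ₗ (LinearMap.range F).subtype, ?_⟩
    rw [← comp_rtr hee.symm, ← comp_rtr hee.symm, ← comp_rtr hR, ← rtr_comp hι, ← hFθ]
    apply LinearMap.ext
    intro r
    have h3 : F.rangeRestrict (F r) = e (e r) := rfl
    change e.symm (e.symm (F.rangeRestrict (F r))) = r
    rw [h3]; simp
  rw [add_comm] at h1
  have h0 := hp _ _ h1 hq
  have h4 : Module.finrank k (LinearMap.range F) = 0 := by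
    rw [← dim_cls (rangeRep hF), h0, dim_zero]
  have h5 : LinearMap.range F = ⊥ := Submodule.finrank_eq_zero.1 h4
  exact LinearMap.range_eq_bot.1 h5

lemma pure_add {x y : Gr k G} (hx : x.Pure) (hy : y.Pure) : (x + y).Pure := by
  intro u q hq hqP
  induction x using Gr.ind with | _ V ρ
  induction y using Gr.ind with | _ W σ
  induction u using Gr.ind with | _ U τ
  induction q using Gr.ind with | _ Q υ
  rw [← cls_add, ← cls_add] at hq
  obtain ⟨e, he⟩ := cls_eq.1 hq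
  have he' : Eqv (τ.prod υ) (ρ.prod σ) e.symm.toLinearMap :=
    Eqv.symm (ρ := ρ.prod σ) (σ := τ.prod υ) (e := e) he
  obtain ⟨θ, hθ⟩ := hqP
  -- maps
  have inr_eqv : Eqv υ (τ.prod υ) (LinearMap.inr k U Q) :=
    fun g v => Prod.ext (map_zero (τ g)).symm rfl
  have snd_eqv : Eqv (τ.prod υ) υ (LinearMap.snd k U Q) := fun _ _ => rfl
  have inlA : Eqv ρ (ρ.prod σ) (LinearMap.inl k V W) :=
    fun g v => Prod.ext rfl (map_zero (σ g)).symm
  have inrB : Eqv σ (ρ.prod σ) (LinearMap.inr k V W) :=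
    fun g v => Prod.ext (map_zero (ρ g)).symm rfl
  have fstA : Eqv (ρ.prod σ) ρ (LinearMap.fst k V W) := fun _ _ => rfl
  have sndB : Eqv (ρ.prod σ) σ (LinearMap.snd k V W) := fun _ _ => rfl
  obtain ⟨iA, hiA⟩ : ∃ iA, iA = LinearMap.fst k V W ∘ₗ e.symm.toLinearMap ∘ₗ LinearMap.inr k U Q :=
    ⟨_, rfl⟩
  obtain ⟨iB, hiB⟩ : ∃ iB, iB = LinearMap.snd k V W ∘ₗ e.symm.toLinearMap ∘ₗ LinearMap.inr k U Q :=
    ⟨_, rfl⟩
  obtain ⟨rA, hrA⟩ : ∃ rA, rA = LinearMap.snd k U Q ∘ₗ e.toLinearMap ∘ₗ LinearMap.inl k V W :=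
    ⟨_, rfl⟩
  obtain ⟨rB, hrB⟩ : ∃ rB, rB = LinearMap.snd k U Q ∘ₗ e.toLinearMap ∘ₗ LinearMap.inr k V W :=
    ⟨_, rfl⟩
  have EiA : Eqv υ ρ iA := by rw [hiA]; exact fstA.comp (he'.comp inr_eqv)
  have EiB : Eqv υ σ iB := by rw [hiB]; exact sndB.comp (he'.comp inr_eqv)
  have ErA : Eqv ρ υ rA := by rw [hrA]; exact snd_eqv.comp (Eqv.comp (ρ := ρ) (σ := ρ.prod σ)
    (τ := τ.prod υ) he inlA)
  have ErB : Eqv σ υ rB := by rw [hrB]; exact snd_eqv.comp (Eqv.comp (ρ := σ) (σ := ρ.prod σ)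
    (τ := τ.prod υ) he inrB)
  have hsum : rA ∘ₗ iA + rB ∘ₗ iB = (1 : Module.End k Q) := by
    apply LinearMap.ext
    intro z
    have h2 : e ((e.symm (0, z)).1, (e.symm (0, z)).2) = (0, z) := by simp
    have h3 : ((e.symm (0, z)).1, (e.symm (0, z)).2) =
        ((e.symm (0, z)).1, (0 : W)) + ((0 : V), (e.symm (0, z)).2) := by simp
    rw [h3, map_add] at h2
    have h4 := congrArg Prod.snd h2
    rw [hiA, hiB, hrA, hrB]
    exact h4
  -- nilpotency
  have key : ∀ {V' : Type u} [AddCommGroup V'] [Module k V'] [FiniteDimensional k V']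
      (ρ' : Representation k G V') (_ : (cls ρ').Pure) (i : Q →ₗ[k] V') (r : V' →ₗ[k] Q)
      (_ : Eqv υ ρ' i) (_ : Eqv ρ' υ r), IsNilpotent (r ∘ₗ i : Module.End k Q) := by
    intro V' _ _ _ ρ' hp i r hi hr
    have h1 : i ∘ₗ r = rtr ρ' ρ' (i ∘ₗ θ ∘ₗ r) := by
      rw [← comp_rtr hi, ← rtr_comp hr, hθ]; rfl
    obtain ⟨n, hn⟩ := nilp hp (hi.comp hr) h1
    refine ⟨n + 1, ?_⟩
    have h2 : ∀ m : ℕ, ((r ∘ₗ i : Module.End k Q) ^ (m + 1)) =
        r ∘ₗ ((i ∘ₗ r : Module.End k V') ^ m) ∘ₗ i := by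
      intro m
      induction m with
      | zero => simp; rfl
      | succ m ih =>
        rw [pow_succ, ih]
        conv_rhs => rw [pow_succ]
        rfl
    rw [h2, hn]; simp
  have nA := key ρ hx iA rA EiA ErA
  have nB := key σ hy iB rB EiB ErB
  have hB : (rB ∘ₗ iB : Module.End k Q) = 1 - (rA ∘ₗ iA : Module.End k Q) := by
    rw [← hsum]; abel
  have hcomm : Commute (rA ∘ₗ iA : Module.End k Q) (rB ∘ₗ iB : Module.End k Q) := by
    rw [hB]; exact (Commute.one_right _).sub_right (Commute.refl _)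
  have h1 : IsNilpotent (1 : Module.End k Q) := by
    rw [← hsum]; exact hcomm.isNilpotent_add nA nB
  obtain ⟨n, hn⟩ := h1
  rw [one_pow] at hn
  apply cls_subsingleton
  constructor
  intro a b
  have h2 := LinearMap.congr_fun hn a
  have h3 := LinearMap.congr_fun hn b
  simp only [Module.End.one_apply, LinearMap.zero_apply] at h2 h3
  rw [h2, h3]

lemma pure_le {w z w' q : Gr k G} (hw : w.Pure) (h : w + z = w' + q) (hq : q.Proj) :
    w.dim ≤ w'.dim := by
  induction w using Gr.ind with | _ V ρ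
  induction z using Gr.ind with | _ W σ
  induction w' using Gr.ind with | _ U τ
  induction q using Gr.ind with | _ Q υ
  rw [← cls_add, ← cls_add] at h
  obtain ⟨e, he⟩ := cls_eq.1 h
  have he' : Eqv (τ.prod υ) (ρ.prod σ) e.symm.toLinearMap :=
    Eqv.symm (ρ := ρ.prod σ) (σ := τ.prod υ) (e := e) he
  obtain ⟨θ, hθ⟩ := hq
  have inl1 : Eqv τ (τ.prod υ) (LinearMap.inl k U Q) :=
    fun g v => Prod.ext rfl (map_zero (υ g)).symm
  have inr1 : Eqv υ (τ.prod υ) (LinearMap.inr k U Q) :=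
    fun g v => Prod.ext (map_zero (τ g)).symm rfl
  have fst1 : Eqv (τ.prod υ) τ (LinearMap.fst k U Q) := fun _ _ => rfl
  have snd1 : Eqv (τ.prod υ) υ (LinearMap.snd k U Q) := fun _ _ => rfl
  have inlA : Eqv ρ (ρ.prod σ) (LinearMap.inl k V W) :=
    fun g v => Prod.ext rfl (map_zero (σ g)).symm
  have fstA : Eqv (ρ.prod σ) ρ (LinearMap.fst k V W) := fun _ _ => rfl
  obtain ⟨i1, hi1⟩ : ∃ i1, i1 = LinearMap.fst k U Q ∘ₗ e.toLinearMap ∘ₗ LinearMap.inl k V W :=
    ⟨_, rfl⟩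
  obtain ⟨i2, hi2⟩ : ∃ i2, i2 = LinearMap.snd k U Q ∘ₗ e.toLinearMap ∘ₗ LinearMap.inl k V W :=
    ⟨_, rfl⟩
  obtain ⟨r1, hr1⟩ : ∃ r1, r1 = LinearMap.fst k V W ∘ₗ e.symm.toLinearMap ∘ₗ LinearMap.inl k U Q :=
    ⟨_, rfl⟩
  obtain ⟨r2, hr2⟩ : ∃ r2, r2 = LinearMap.fst k V W ∘ₗ e.symm.toLinearMap ∘ₗ LinearMap.inr k U Q :=
    ⟨_, rfl⟩
  have hsum : r1 ∘ₗ i1 + r2 ∘ₗ i2 = (1 : Module.End k V) := by
    apply LinearMap.ext
    intro v
    have h2 : e.symm ((e (v, 0)).1, (e (v, 0)).2) = (v, 0) := by simp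
    have h3 : ((e (v, 0)).1, (e (v, 0)).2) =
        ((e (v, 0)).1, (0 : Q)) + ((0 : U), (e (v, 0)).2) := by simp
    rw [h3, map_add] at h2
    have h4 := congrArg Prod.fst h2
    rw [hi1, hi2, hr1, hr2]
    exact h4
  have Ei2 : Eqv ρ υ i2 := by rw [hi2]; exact snd1.comp (Eqv.comp (ρ := ρ) (σ := ρ.prod σ)
    (τ := τ.prod υ) he inlA)
  have Er2 : Eqv υ ρ r2 := by rw [hr2]; exact fstA.comp (he'.comp inr1)
  have h1 : r2 ∘ₗ i2 = rtr ρ ρ (r2 ∘ₗ θ ∘ₗ i2) := by
    rw [← comp_rtr Er2, ← rtr_comp Ei2, hθ]; rfl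
  obtain ⟨n, hn⟩ := nilp hw (Er2.comp Ei2) h1
  have hnil : IsNilpotent (r2 ∘ₗ i2 : Module.End k V) := ⟨n, hn⟩
  have hu : IsUnit (1 - (r2 ∘ₗ i2 : Module.End k V)) := hnil.isUnit_one_sub
  have h5 : (r1 ∘ₗ i1 : Module.End k V) = 1 - (r2 ∘ₗ i2 : Module.End k V) := by
    rw [← hsum]; abel
  rw [← h5] at hu
  have hinj : Function.Injective (r1 ∘ₗ i1) := ((Module.End.isUnit_iff _).1 hu).1
  have hinj1 : Function.Injective i1 := fun a b hab => hinj (by simp [hab])
  exact LinearMap.finrank_le_finrank_of_injective hinj1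

/-- dimension of the core -/
noncomputable def Gr.c (x : Gr k G) : ℕ := sInf {n | ∃ w q : Gr k G, x = w + q ∧ q.Proj ∧ w.dim = n}

lemma c_le {x w q : Gr k G} (h : x = w + q) (hq : q.Proj) : x.c ≤ w.dim :=
  Nat.sInf_le ⟨w, q, h, hq, rfl⟩

lemma exists_core (x : Gr k G) : ∃ w q : Gr k G, x = w + q ∧ q.Proj ∧ w.Pure ∧ w.dim = x.c := by
  have hne : {n | ∃ w q : Gr k G, x = w + q ∧ q.Proj ∧ w.dim = n}.Nonempty :=
    ⟨x.dim, x, 0, (add_zero x).symm, proj_zero, rfl⟩
  obtain ⟨w, q, h, hq, hd⟩ := Nat.sInf_mem hne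
  refine ⟨w, q, h, hq, ?_, hd⟩
  intro w' q' hw' hq'
  have h1 : x = w' + (q' + q) := by rw [h, hw', add_assoc]
  have h2 := c_le h1 (hq'.add hq)
  have h3 : w.dim = w'.dim + q'.dim := by rw [hw', dim_add]
  have h4 : w.dim = x.c := hd
  exact eq_zero_of_dim (by omega)

lemma c_eq {x w q : Gr k G} (h : x = w + q) (hq : q.Proj) (hw : w.Pure) : x.c = w.dim := by
  obtain ⟨w', q', h', hq', _, hd⟩ := exists_core x
  apply le_antisymm (c_le h hq)
  rw [← hd]
  exact pure_le hw (h.symm.trans h') hq'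

lemma c_add (x y : Gr k G) : (x + y).c = x.c + y.c := by
  obtain ⟨w, q, h, hq, hw, hd⟩ := exists_core x
  obtain ⟨w', q', h', hq', hw', hd'⟩ := exists_core y
  rw [← hd, ← hd', ← dim_add]
  apply c_eq (q := q + q') _ (hq.add hq') (pure_add hw hw')
  rw [h, h']; ring

lemma c_mul_le (x y : Gr k G) : (x * y).c ≤ x.c * y.c := by
  obtain ⟨w, q, h, hq, hw, hd⟩ := exists_core x
  obtain ⟨w', q', h', hq', hw', hd'⟩ := exists_core y
  rw [← hd, ← hd', ← dim_mul]
  apply c_le (q := q * w' + q' * w + q * q') _ (((hq.mul _).add (hq'.mul _)).add (hq.mul _))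
  rw [h, h']; ring

lemma c_le_dim (x : Gr k G) : x.c ≤ x.dim := c_le (add_zero x).symm proj_zero

lemma c_eq_zero {x : Gr k G} : x.c = 0 ↔ x.Proj := by
  constructor
  · intro h
    obtain ⟨w, q, h', hq, hw, hd⟩ := exists_core x
    rw [h', eq_zero_of_dim (hd.trans h), zero_add]; exact hq
  · intro h
    have := c_le (zero_add x).symm h
    rw [dim_zero] at this; omega

lemma c_star_le (x : Gr k G) : x.star.c ≤ x.c := by
  obtain ⟨w, q, h, hq, hw, hd⟩ := exists_core x
  rw [← hd, ← dim_star w]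
  exact c_le (by rw [h, star_add]) hq.star

lemma c_star (x : Gr k G) : x.star.c = x.c := by
  apply le_antisymm (c_star_le x)
  have := c_star_le x.star
  rwa [star_star] at this

end pure

end Pool.Agent.V7H61
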