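import Pool.Agent.V7H61.Core
import Pool.Agent.V7H61.Char

set_option autoImplicit false

/-!
The growth rate `gam` of the core and dominated homomorphisms.
-/

open Filter Topology

universe u v

namespace Pool.Agent.V7H61

variable {k : Type u} {G : Type v} [Field k] [Group G] [Fintype G]

/-- growth rate of the dimension of the core of the powers -/
noncomputable def Gr.gam (x : Gr k G) : ℝ :=
  limsup (fun n : ℕ => ((x ^ n).c : ℝ) ^ (1 / (n : ℝ))) atTop

lemma c_one_le : (1 : Gr k G).c ≤ 1 := by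
  have := c_le_dim (1 : Gr k G)
  rwa [dim_one] at this

lemma c_pow_le (x : Gr k G) (n : ℕ) : (x ^ n).c ≤ x.c ^ n := by
  induction n with
  | zero => simpa using c_one_le
  | succ n ih =>
    rw [pow_succ, pow_succ]
    exact (c_mul_le _ _).trans (Nat.mul_le_mul_right _ ih)

lemma root_le (x : Gr k G) (n : ℕ) : ((x ^ n).c : ℝ) ^ (1 / (n : ℝ)) ≤ max 1 (x.c : ℝ) := by
  rcases Nat.eq_zero_or_pos n with rfl | hn
  · simp
  · refine le_trans ?_ (le_max_right _ _)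
    have h1 : ((x ^ n).c : ℝ) ≤ (x.c : ℝ) ^ n := by exact_mod_cast c_pow_le x n
    calc ((x ^ n).c : ℝ) ^ (1 / (n : ℝ)) ≤ ((x.c : ℝ) ^ n) ^ (1 / (n : ℝ)) :=
          Real.rpow_le_rpow (Nat.cast_nonneg _) h1 (by positivity)
      _ = x.c := by
          rw [one_div, Real.pow_rpow_inv_natCast (Nat.cast_nonneg _) (by omega)]

lemma root_bdd (x : Gr k G) :
    IsBoundedUnder (· ≤ ·) atTop (fun n : ℕ => ((x ^ n).c : ℝ) ^ (1 / (n : ℝ))) :=
  ⟨max 1 (x.c : ℝ), Filter.eventually_map.2 (Eventually.of_forall (root_le x))⟩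

lemma root_nonneg (x : Gr k G) (n : ℕ) : 0 ≤ ((x ^ n).c : ℝ) ^ (1 / (n : ℝ)) :=
  Real.rpow_nonneg (Nat.cast_nonneg _) _

lemma root_cobdd (x : Gr k G) :
    IsCoboundedUnder (· ≤ ·) atTop (fun n : ℕ => ((x ^ n).c : ℝ) ^ (1 / (n : ℝ))) :=
  IsCoboundedUnder.of_frequently_ge (a := 0)
    (Eventually.frequently (Eventually.of_forall (root_nonneg x)))

lemma le_gam {x : Gr k G} {ρ : ℝ} (hρ : 0 ≤ ρ) (h : ∀ n : ℕ, ρ ^ n ≤ ((x ^ n).c : ℝ)) :
    ρ ≤ x.gam := by
  apply le_limsup_of_frequently_le _ (root_bdd x)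
  apply Eventually.frequently
  filter_upwards [eventually_gt_atTop 0] with n hn
  calc ρ = (ρ ^ n) ^ (1 / (n : ℝ)) := by
        rw [one_div, Real.pow_rpow_inv_natCast hρ (by omega)]
    _ ≤ _ := Real.rpow_le_rpow (pow_nonneg hρ n) (h n) (by positivity)

lemma gam_le {x : Gr k G} {ρ : ℝ} (hρ : 0 ≤ ρ)
    (h : ∀ r > ρ, ∃ C, ∀ n : ℕ, ((x ^ n).c : ℝ) ≤ C * r ^ n) : x.gam ≤ ρ := by
  apply le_of_forall_gt_imp_ge_of_dense
  intro r hr
  apply limsup_le_of_le (root_cobdd x)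
  obtain ⟨s, hs1, hs2⟩ := exists_between hr
  obtain ⟨C, hC⟩ := h s hs1
  have hs0 : 0 < s := lt_of_le_of_lt hρ hs1
  have hr0 : 0 < r := hs0.trans hs2
  have hlim : Tendsto (fun n : ℕ => C * (s / r) ^ n) atTop (𝓝 (C * 0)) :=
    (tendsto_pow_atTop_nhds_zero_of_lt_one (div_nonneg hs0.le hr0.le)
      ((div_lt_one hr0).2 hs2)).const_mul C
  rw [mul_zero] at hlim
  filter_upwards [hlim.eventually (gt_mem_nhds one_pos), eventually_gt_atTop 0] with n hn1 hn0
  have h1 : ((x ^ n).c : ℝ) ≤ r ^ n := by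
    refine (hC n).trans ?_
    rw [div_pow, ← mul_div_assoc, div_lt_one (pow_pos hr0 n)] at hn1
    exact hn1.le
  calc ((x ^ n).c : ℝ) ^ (1 / (n : ℝ)) ≤ (r ^ n) ^ (1 / (n : ℝ)) :=
        Real.rpow_le_rpow (Nat.cast_nonneg _) h1 (by positivity)
    _ = r := by rw [one_div, Real.pow_rpow_inv_natCast hr0.le (by omega)]

lemma gam_nonneg (x : Gr k G) : 0 ≤ x.gam := by
  apply le_limsup_of_frequently_le _ (root_bdd x)
  exact Eventually.frequently (Eventually.of_forall (root_nonneg x))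

/-- dominated homomorphisms -/
structure Dom (χ : Gr k G →+* ℝ) : Prop where
  nonneg : ∀ x, 0 ≤ χ x
  le : ∀ x, χ x ≤ (x.c : ℝ)

lemma Dom.le_gam {χ : Gr k G →+* ℝ} (h : Dom χ) (x : Gr k G) : χ x ≤ x.gam :=
  Pool.Agent.V7H61.le_gam (h.nonneg x) fun n => by
    rw [← map_pow]; exact h.le _

theorem exists_dom (h1 : ¬ (1 : Gr k G).Proj) (x : Gr k G) :
    ∃ χ : Gr k G →+* ℝ, Dom χ ∧ χ x = x.gam := by
  have hc : CF (fun x : Gr k G => (x.c : ℝ)) := by
    refine ⟨fun x => Nat.cast_nonneg _, fun x y => ?_, fun x y => ?_, ?_⟩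
    · simp only [c_add, Nat.cast_add]
    · exact_mod_cast c_mul_le x y
    · have h2 : (1 : Gr k G).c ≠ 0 := fun h => h1 (c_eq_zero.1 h)
      have h3 := c_one_le (k := k) (G := G)
      have h4 : (1 : Gr k G).c = 1 := by omega
      simp only [h4, Nat.cast_one]
  obtain ⟨χ, h2, h3, h4⟩ := exists_hom hc x
  have hD : Dom χ := ⟨h2, h3⟩
  exact ⟨χ, hD, le_antisymm (hD.le_gam x) (gam_le (h2 x) h4)⟩

lemma gam_eq_zero_of_proj {x : Gr k G} (h : x.Proj) : x.gam = 0 := by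
  apply le_antisymm _ (gam_nonneg x)
  apply gam_le le_rfl
  intro r hr
  refine ⟨1, fun n => ?_⟩
  rcases Nat.eq_zero_or_pos n with rfl | hn
  · have := c_one_le (k := k) (G := G)
    simpa using this
  · have h2 : (x ^ n).Proj := by
      obtain ⟨m, rfl⟩ : ∃ m, n = m + 1 := ⟨n - 1, by omega⟩
      rw [pow_succ']; exact h.mul _
    rw [c_eq_zero.2 h2, Nat.cast_zero]
    have hr' : 0 < r := hr
    positivity

end Pool.Agent.V7H61
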