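import Mathlib

set_option autoImplicit false

/-!
The commutative semiring of isomorphism classes of finite-dimensional representations.
-/

open scoped TensorProduct

universe u v

namespace Pool.Agent.V7H61

/-- A finite-dimensional representation of `G` over `k`. -/
structure Obj (k : Type u) (G : Type v) [Field k] [Group G] where
  /-- the space -/
  V : Type u
  [grp : AddCommGroup V]
  [mod : Module k V]
  [fd : FiniteDimensional k V]
  /-- the action -/
  ρ : Representation k G V

attribute [instance] Obj.grp Obj.mod Obj.fd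

section

variable {k : Type u} {G : Type v} [Field k] [Group G]
variable {V W U X : Type u} [AddCommGroup V] [Module k V] [AddCommGroup W] [Module k W]
  [AddCommGroup U] [Module k U] [AddCommGroup X] [Module k X]

/-- `f` commutes with the actions. -/
def Eqv (ρ : Representation k G V) (σ : Representation k G W) (f : V →ₗ[k] W) : Prop :=
  ∀ g v, f (ρ g v) = σ g (f v)

lemma Eqv.comp {ρ : Representation k G V} {σ : Representation k G W} {τ : Representation k G U}
    {f : V →ₗ[k] W} {h : W →ₗ[k] U} (hh : Eqv σ τ h) (hf : Eqv ρ σ f) : Eqv ρ τ (h ∘ₗ f) := by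
  intro g v; simp [hf g v, hh g (f v)]

lemma Eqv.id (ρ : Representation k G V) : Eqv ρ ρ LinearMap.id := fun _ _ => rfl

lemma Eqv.add {ρ : Representation k G V} {σ : Representation k G W}
    {f h : V →ₗ[k] W} (hf : Eqv ρ σ f) (hh : Eqv ρ σ h) : Eqv ρ σ (f + h) := by
  intro g v; simp [hf g v, hh g v]

lemma Eqv.sub {ρ : Representation k G V} {σ : Representation k G W}
    {f h : V →ₗ[k] W} (hf : Eqv ρ σ f) (hh : Eqv ρ σ h) : Eqv ρ σ (f - h) := by
  intro g v; simp [hf g v, hh g v]

lemma Eqv.smul {ρ : Representation k G V} {σ : Representation k G W}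
    {f : V →ₗ[k] W} (c : k) (hf : Eqv ρ σ f) : Eqv ρ σ (c • f) := by
  intro g v; simp [hf g v]

lemma Eqv.pow {ρ : Representation k G V} {f : V →ₗ[k] V} (hf : Eqv ρ ρ f) (n : ℕ) :
    Eqv ρ ρ (f ^ n) := by
  induction n with
  | zero => exact Eqv.id ρ
  | succ n ih => rw [pow_succ]; exact ih.comp hf

lemma Eqv.symm {ρ : Representation k G V} {σ : Representation k G W}
    {e : V ≃ₗ[k] W} (h : Eqv ρ σ e.toLinearMap) : Eqv σ ρ e.symm.toLinearMap := by
  intro g w
  apply e.injective
  have h1 := h g (e.symm w)
  simp only [LinearEquiv.coe_coe] at h1 ⊢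
  rw [h1]; simp

/-- Isomorphism of representations. -/
def Iso (ρ : Representation k G V) (σ : Representation k G W) : Prop :=
  ∃ e : V ≃ₗ[k] W, ∀ g v, e (ρ g v) = σ g (e v)

lemma Iso.refl (ρ : Representation k G V) : Iso ρ ρ := ⟨LinearEquiv.refl k _, fun _ _ => rfl⟩

lemma Iso.symm {ρ : Representation k G V} {σ : Representation k G W} (h : Iso ρ σ) :
    Iso σ ρ := by
  obtain ⟨e, he⟩ := h
  refine ⟨e.symm, fun g v => ?_⟩
  apply e.injective
  rw [he]; simp

lemma Iso.trans {ρ : Representation k G V} {σ : Representation k G W}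
    {τ : Representation k G U} (h : Iso ρ σ) (h' : Iso σ τ) : Iso ρ τ := by
  obtain ⟨e, he⟩ := h
  obtain ⟨f, hf⟩ := h'
  exact ⟨e.trans f, fun g v => by simp [he, hf]⟩

/-- A bijective equivariant map gives an isomorphism. -/
lemma Iso.of_bij {ρ : Representation k G V} {σ : Representation k G W} (f : V →ₗ[k] W)
    (hf : Eqv ρ σ f) (hb : Function.Bijective f) : Iso ρ σ :=
  ⟨LinearEquiv.ofBijective f hb, fun g v => by simpa using hf g v⟩

instance objSetoid (k : Type u) (G : Type v) [Field k] [Group G] : Setoid (Obj k G) where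
  r := fun A B => Iso A.ρ B.ρ
  iseqv := ⟨fun A => Iso.refl A.ρ, Iso.symm, Iso.trans⟩

variable (k G) in
/-- The semiring of isomorphism classes. -/
def Gr := Quotient (objSetoid k G)

/-- The class of a representation. -/
def cls [FiniteDimensional k V] (ρ : Representation k G V) : Gr k G :=
  Quotient.mk _ (Obj.mk V ρ)

lemma cls_eq [FiniteDimensional k V] [FiniteDimensional k W] {ρ : Representation k G V}
    {σ : Representation k G W} : cls ρ = cls σ ↔ Iso ρ σ := Quotient.eq

lemma cls_mk [FiniteDimensional k V] [FiniteDimensional k W] {ρ : Representation k G V}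
    {σ : Representation k G W} (e : V ≃ₗ[k] W) (h : ∀ g v, e (ρ g v) = σ g (e v)) :
    cls ρ = cls σ := cls_eq.2 ⟨e, h⟩

lemma cls_bij [FiniteDimensional k V] [FiniteDimensional k W] {ρ : Representation k G V}
    {σ : Representation k G W} (f : V →ₗ[k] W) (hf : Eqv ρ σ f) (hb : Function.Bijective f) :
    cls ρ = cls σ := cls_eq.2 (Iso.of_bij f hf hb)

lemma Gr.ind {P : Gr k G → Prop} (h : ∀ (V : Type u) [AddCommGroup V] [Module k V]
    [FiniteDimensional k V] (ρ : Representation k G V), P (cls ρ)) (x : Gr k G) : P x :=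
  Quotient.ind (fun A => h A.V A.ρ) x

end

section ops

variable {k : Type u} {G : Type v} [Field k] [Group G]
variable {V W U X : Type u} [AddCommGroup V] [Module k V] [AddCommGroup W] [Module k W]
  [AddCommGroup U] [Module k U] [AddCommGroup X] [Module k X]

lemma Iso.prod {ρ : Representation k G V} {σ : Representation k G W}
    {τ : Representation k G U} {υ : Representation k G X} (h : Iso ρ σ) (h' : Iso τ υ) :
    Iso (ρ.prod τ) (σ.prod υ) := by
  obtain ⟨e, he⟩ := h
  obtain ⟨f, hf⟩ := h'
  exact ⟨LinearEquiv.prodCongr e f, fun g v => Prod.ext (he g v.1) (hf g v.2)⟩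

lemma Iso.tprod {ρ : Representation k G V} {σ : Representation k G W}
    {τ : Representation k G U} {υ : Representation k G X} (h : Iso ρ σ) (h' : Iso τ υ) :
    Iso (ρ.tprod τ) (σ.tprod υ) := by
  obtain ⟨e, he⟩ := h
  obtain ⟨f, hf⟩ := h'
  refine ⟨TensorProduct.congr e f, fun g v => ?_⟩
  induction v using TensorProduct.induction_on with
  | zero => simp
  | tmul a b => simp [he, hf, Representation.tprod_apply]
  | add x y hx hy => simp only [map_add, hx, hy]

lemma Iso.dual {ρ : Representation k G V} {σ : Representation k G W} (h : Iso ρ σ) :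
    Iso ρ.dual σ.dual := by
  obtain ⟨e, he⟩ := h
  refine ⟨e.symm.dualMap, fun g f => ?_⟩
  apply LinearMap.ext
  intro v
  have h1 : e.symm (σ g⁻¹ v) = ρ g⁻¹ (e.symm v) := by
    apply e.injective
    rw [he]; simp
  change f (ρ g⁻¹ (e.symm v)) = f (e.symm (σ g⁻¹ v))
  rw [h1]

instance : Zero (Gr k G) := ⟨cls (1 : Representation k G PUnit.{u+1})⟩
instance : One (Gr k G) := ⟨cls (1 : Representation k G k)⟩
noncomputable instance : Add (Gr k G) :=
  ⟨Quotient.map₂ (fun A B => ⟨A.V × B.V, A.ρ.prod B.ρ⟩) fun _ _ h _ _ h' => Iso.prod h h'⟩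
noncomputable instance : Mul (Gr k G) :=
  ⟨Quotient.map₂ (fun A B => ⟨A.V ⊗[k] B.V, A.ρ.tprod B.ρ⟩) fun _ _ h _ _ h' => Iso.tprod h h'⟩

/-- duality on classes -/
def Gr.star : Gr k G → Gr k G :=
  Quotient.map (fun A => ⟨Module.Dual k A.V, A.ρ.dual⟩) fun _ _ h => Iso.dual h

lemma cls_zero : cls (1 : Representation k G PUnit.{u+1}) = 0 := rfl
lemma cls_one : cls (1 : Representation k G k) = 1 := rfl

variable [FiniteDimensional k V] [FiniteDimensional k W]

lemma cls_add (ρ : Representation k G V) (σ : Representation k G W) :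
    cls (ρ.prod σ) = cls ρ + cls σ := rfl
lemma cls_mul (ρ : Representation k G V) (σ : Representation k G W) :
    cls (ρ.tprod σ) = cls ρ * cls σ := rfl
lemma cls_star (ρ : Representation k G V) : cls ρ.dual = Gr.star (cls ρ) := rfl

end ops

section laws

variable {k : Type u} {G : Type v} [Field k] [Group G]

lemma gadd_assoc (x y z : Gr k G) : x + y + z = x + (y + z) := by
  induction x using Gr.ind with | _ V ρ
  induction y using Gr.ind with | _ W σ
  induction z using Gr.ind with | _ U τ
  exact cls_mk (LinearEquiv.prodAssoc k V W U) fun _ _ => rfl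

lemma gadd_comm (x y : Gr k G) : x + y = y + x := by
  induction x using Gr.ind with | _ V ρ
  induction y using Gr.ind with | _ W σ
  exact cls_mk (LinearEquiv.prodComm k V W) fun _ _ => rfl

lemma gzero_add (x : Gr k G) : 0 + x = x := by
  induction x using Gr.ind with | _ V ρ
  refine cls_bij (ρ := (1 : Representation k G PUnit.{u+1}).prod ρ) (σ := ρ)
    (LinearMap.snd k PUnit.{u+1} V) (fun _ _ => rfl) ⟨?_, ?_⟩
  · rintro ⟨a, b⟩ ⟨c, d⟩ h
    exact Prod.ext (Subsingleton.elim _ _) h
  · intro b; exact ⟨(0, b), rfl⟩

lemma gmul_assoc (x y z : Gr k G) : x * y * z = x * (y * z) := by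
  induction x using Gr.ind with | _ V ρ
  induction y using Gr.ind with | _ W σ
  induction z using Gr.ind with | _ U τ
  refine cls_mk (ρ := (ρ.tprod σ).tprod τ) (σ := ρ.tprod (σ.tprod τ))
    (TensorProduct.assoc k V W U) fun g v => ?_
  simp only [Representation.tprod_apply]
  rw [TensorProduct.map_map_assoc]

lemma gmul_comm (x y : Gr k G) : x * y = y * x := by
  induction x using Gr.ind with | _ V ρ
  induction y using Gr.ind with | _ W σ
  refine cls_mk (ρ := ρ.tprod σ) (σ := σ.tprod ρ) (TensorProduct.comm k V W) fun g v => ?_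
  simp only [Representation.tprod_apply]
  rw [TensorProduct.map_comm]

lemma gone_mul (x : Gr k G) : 1 * x = x := by
  induction x using Gr.ind with | _ V ρ
  refine cls_mk (ρ := (1 : Representation k G k).tprod ρ) (σ := ρ) (TensorProduct.lid k V)
    fun g v => ?_
  simp only [Representation.tprod_apply]
  induction v using TensorProduct.induction_on with
  | zero => simp
  | tmul a b => simp
  | add x y hx hy => simp only [map_add, hx, hy]

lemma gleft_distrib (x y z : Gr k G) : x * (y + z) = x * y + x * z := by
  induction x using Gr.ind with | _ V ρ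
  induction y using Gr.ind with | _ W σ
  induction z using Gr.ind with | _ U τ
  refine cls_mk (ρ := ρ.tprod (σ.prod τ)) (σ := (ρ.tprod σ).prod (ρ.tprod τ))
    (TensorProduct.prodRight k k V W U) fun g v => ?_
  induction v using TensorProduct.induction_on with
  | zero => simp only [map_zero]
  | tmul a b => rfl
  | add x y hx hy => simp only [map_add, hx, hy]

lemma cls_subsingleton {V : Type u} [AddCommGroup V] [Module k V] [FiniteDimensional k V]
    (h : Subsingleton V) (ρ : Representation k G V) : cls ρ = 0 := by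
  refine cls_bij (σ := (1 : Representation k G PUnit.{u+1})) (0 : V →ₗ[k] PUnit.{u+1})
    (fun _ _ => rfl) ⟨?_, ?_⟩
  · intro a b _; exact h.elim a b
  · intro b; exact ⟨0, Subsingleton.elim _ _⟩

/-- dimension of a class -/
noncomputable def Gr.dim : Gr k G → ℕ :=
  Quotient.lift (fun A : Obj k G => Module.finrank k A.V) fun _ _ h => by
    obtain ⟨e, _⟩ := h
    exact e.finrank_eq

lemma dim_cls {V : Type u} [AddCommGroup V] [Module k V] [FiniteDimensional k V]
    (ρ : Representation k G V) : (cls ρ).dim = Module.finrank k V := rfl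

lemma dim_add (x y : Gr k G) : (x + y).dim = x.dim + y.dim := by
  induction x using Gr.ind with | _ V ρ
  induction y using Gr.ind with | _ W σ
  exact Module.finrank_prod

lemma dim_mul (x y : Gr k G) : (x * y).dim = x.dim * y.dim := by
  induction x using Gr.ind with | _ V ρ
  induction y using Gr.ind with | _ W σ
  exact Module.finrank_tensorProduct

lemma dim_one : (1 : Gr k G).dim = 1 := Module.finrank_self k

lemma dim_zero : (0 : Gr k G).dim = 0 := by
  rw [← cls_zero, dim_cls]
  exact Module.finrank_zero_of_subsingleton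

lemma eq_zero_of_dim {x : Gr k G} (h : x.dim = 0) : x = 0 := by
  induction x using Gr.ind with | _ V ρ
  exact cls_subsingleton (Module.finrank_zero_iff.1 h) ρ

lemma gzero_mul (x : Gr k G) : 0 * x = 0 := by
  apply eq_zero_of_dim
  rw [dim_mul, dim_zero, zero_mul]

noncomputable instance : CommSemiring (Gr k G) where
  add_assoc := gadd_assoc
  zero_add := gzero_add
  add_zero := fun x => by rw [gadd_comm, gzero_add]
  add_comm := gadd_comm
  left_distrib := gleft_distrib
  right_distrib := fun x y z => by rw [gmul_comm, gleft_distrib, gmul_comm z x, gmul_comm z y]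
  zero_mul := gzero_mul
  mul_zero := fun x => by rw [gmul_comm, gzero_mul]
  mul_assoc := gmul_assoc
  one_mul := gone_mul
  mul_one := fun x => by rw [gmul_comm, gone_mul]
  mul_comm := gmul_comm
  nsmul := nsmulRec
  npow := npowRec

lemma star_add (x y : Gr k G) : (x + y).star = x.star + y.star := by
  induction x using Gr.ind with | _ V ρ
  induction y using Gr.ind with | _ W σ
  exact (cls_mk (ρ := ρ.dual.prod σ.dual) (σ := (ρ.prod σ).dual)
    (Module.dualProdDualEquivDual k V W) fun g f => by
      apply LinearMap.ext; intro v; rfl).symm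

lemma star_mul (x y : Gr k G) : (x * y).star = x.star * y.star := by
  induction x using Gr.ind with | _ V ρ
  induction y using Gr.ind with | _ W σ
  refine (cls_mk (V := Module.Dual k V ⊗[k] Module.Dual k W) (W := Module.Dual k (V ⊗[k] W))
    (ρ := ρ.dual.tprod σ.dual) (σ := (ρ.tprod σ).dual)
    (TensorProduct.dualDistribEquiv k V W) fun g f => ?_).symm
  induction f using TensorProduct.induction_on with
  | zero => simp
  | tmul a b =>
    apply TensorProduct.ext'
    intro v w
    rfl
  | add x y hx hy => simp only [map_add, hx, hy]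

lemma star_one : (1 : Gr k G).star = 1 := by
  refine (cls_bij (ρ := (1 : Representation k G k)) (σ := (1 : Representation k G k).dual)
    (LinearMap.ringLmapEquivSelf k k k).symm.toLinearMap ?_
    (LinearMap.ringLmapEquivSelf k k k).symm.bijective).symm
  intro g v
  apply LinearMap.ext
  intro w
  rfl

lemma star_star (x : Gr k G) : x.star.star = x := by
  induction x using Gr.ind with | _ V ρ
  refine (cls_mk (ρ := ρ) (σ := ρ.dual.dual) (Module.evalEquiv k V) fun g v => ?_).symm
  apply LinearMap.ext
  intro f
  change f (ρ g v) = f (ρ (g⁻¹)⁻¹ v)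
  rw [inv_inv]

lemma dim_star (x : Gr k G) : x.star.dim = x.dim := by
  induction x using Gr.ind with | _ V ρ
  exact Subspace.dual_finrank_eq

lemma star_zero : (0 : Gr k G).star = 0 := by
  apply eq_zero_of_dim
  rw [dim_star, dim_zero]

lemma star_pow (x : Gr k G) (n : ℕ) : (x ^ n).star = x.star ^ n := by
  induction n with
  | zero => simp [star_one]
  | succ n ih => rw [pow_succ, pow_succ, star_mul, ih]

end laws

end Pool.Agent.V7H61
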