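import Pool.Agent.V7H61.Gamma

set_option autoImplicit false
set_option linter.unusedSectionVars false

/-!
Spaces of linear maps, trace pairings, first consequences.
-/

open scoped TensorProduct

universe u v

namespace Pool.Agent.V7H61

section

variable {k : Type u} {G : Type v} [Field k] [Group G]
variable {V W U X : Type u} [AddCommGroup V] [Module k V] [AddCommGroup W] [Module k W]
  [AddCommGroup U] [Module k U]
  [FiniteDimensional k V] [FiniteDimensional k W] [FiniteDimensional k U]

lemma cls_linHom (ρ : Representation k G V) (σ : Representation k G W) :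
    cls (ρ.linHom σ) = (cls ρ).star * cls σ := by
  rw [← cls_star, ← cls_mul]
  refine (cls_bij (V := Module.Dual k V ⊗[k] W) (W := V →ₗ[k] W) (ρ := ρ.dual.tprod σ)
    (σ := ρ.linHom σ) (dualTensorHom k V W) ?_ dualTensorHom_bijective).symm
  intro g v
  exact LinearMap.congr_fun (Representation.dualTensorHom_comm ρ σ g) v

lemma linHom_apply' (ρ : Representation k G V) (σ : Representation k G W) (g : G)
    (f : V →ₗ[k] W) (v : V) : (ρ.linHom σ g f) v = σ g (f (ρ g⁻¹ v)) := rfl

lemma rho_inv (ρ : Representation k G V) (g : G) (v : V) : ρ g⁻¹ (ρ g v) = v := by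
  rw [← Module.End.mul_apply, ← map_mul]; simp

lemma rho_inv' (ρ : Representation k G V) (g : G) (v : V) : ρ g (ρ g⁻¹ v) = v := by
  rw [← Module.End.mul_apply, ← map_mul]; simp

/-- the zigzag identity: `x` is a summand of `x * (star x * x)` -/
lemma zigzag (x : Gr k G) : ∃ r, x * (x.star * x) = x + r := by
  induction x using Gr.ind with | _ V ρ
  rw [← cls_linHom, ← cls_mul]
  refine cls_of_retract (ρ := ρ) (σ := ρ.tprod (ρ.linHom ρ))
    (i := (TensorProduct.mk k V (V →ₗ[k] V)).flip LinearMap.id)
    (β := TensorProduct.lift LinearMap.applyₗ) ?_ ?_ ?_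
  · intro g v
    change (ρ g v) ⊗ₜ[k] LinearMap.id = (ρ g v) ⊗ₜ[k] (ρ.linHom ρ g LinearMap.id)
    congr 1
    apply LinearMap.ext
    intro w
    rw [linHom_apply']
    exact (rho_inv' ρ g w).symm
  · intro g t
    induction t using TensorProduct.induction_on with
    | zero => simp
    | tmul a f =>
      change (ρ.linHom ρ g f) (ρ g a) = ρ g (f a)
      rw [linHom_apply', rho_inv]
    | add x y hx hy => simp only [map_add, hx, hy]
  · intro v
    rfl

/-- the trace of conjugate maps -/
lemma trace_conj_rho (ρ : Representation k G V) (g : G) (f : V →ₗ[k] V) :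
    LinearMap.trace k V (ρ.linHom ρ g f) = LinearMap.trace k V f := by
  have : ρ.linHom ρ g f = (ρ g ∘ₗ f) ∘ₗ ρ g⁻¹ := rfl
  rw [this, LinearMap.trace_comp_comm']
  congr 1
  apply LinearMap.ext
  intro v
  exact rho_inv ρ g _

/-- equivariance of the trace -/
lemma trace_eqv (ρ : Representation k G V) :
    Eqv (ρ.linHom ρ) (1 : Representation k G k) (LinearMap.trace k V) :=
  fun g f => trace_conj_rho ρ g f

/-- the class of the trace zero maps -/
noncomputable def sl (ρ : Representation k G V) : Gr k G := cls (kerRep (trace_eqv ρ))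

lemma one_add_sl (ρ : Representation k G V) (h : (Module.finrank k V : k) ≠ 0) :
    cls (ρ.linHom ρ) = 1 + sl ρ := by
  have hi : Eqv (1 : Representation k G k) (ρ.linHom ρ)
      (LinearMap.toSpanSingleton k (V →ₗ[k] V) LinearMap.id) := by
    intro g c
    apply LinearMap.ext
    intro w
    change c • w = ρ g (c • (ρ g⁻¹ w))
    rw [map_smul, rho_inv']
  rw [← cls_one, sl]
  apply cls_of_bij hi (trace_eqv ρ)
  have e : ∀ c : k, (LinearMap.trace k V ∘ₗ
      LinearMap.toSpanSingleton k (V →ₗ[k] V) LinearMap.id) c = c * (Module.finrank k V : k) := by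
    intro c
    change LinearMap.trace k V (c • LinearMap.id) = _
    rw [map_smul, LinearMap.trace_id, smul_eq_mul]
  constructor
  · intro a b hab
    rw [e, e] at hab
    exact mul_right_cancel₀ h hab
  · intro b
    refine ⟨b / (Module.finrank k V : k), ?_⟩
    rw [e, div_mul_cancel₀ _ h]

/-- nondegeneracy of the trace form -/
lemma trace_nondeg {f : V →ₗ[k] W} (h : ∀ b : W →ₗ[k] V, LinearMap.trace k W (f ∘ₗ b) = 0) :
    f = 0 := by
  apply LinearMap.ext
  intro v
  rw [LinearMap.zero_apply]
  rw [← Module.forall_dual_apply_eq_zero_iff k]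
  intro φ
  have h1 := h (φ.smulRight v)
  have h2 : f ∘ₗ φ.smulRight v = φ.smulRight (f v) := by
    apply LinearMap.ext; intro w; simp
  rw [h2, LinearMap.trace_smulRight] at h1
  exact h1

lemma trace_nondeg' {f : V →ₗ[k] W} (h : ∀ b : W →ₗ[k] V, LinearMap.trace k V (b ∘ₗ f) = 0) :
    f = 0 := by
  apply trace_nondeg
  intro b
  rw [LinearMap.trace_comp_comm']
  exact h b

/-- the swap and the trace -/
lemma trace_swap_map (a b : V →ₗ[k] V) :
    LinearMap.trace k (V ⊗[k] V) ((TensorProduct.comm k V V).toLinearMap ∘ₗ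
      TensorProduct.map a b) = LinearMap.trace k V (a ∘ₗ b) := by
  classical
  let e := Module.finBasis k V
  rw [LinearMap.trace_eq_matrix_trace k (e.tensorProduct e),
    LinearMap.trace_eq_matrix_trace k e, LinearMap.toMatrix_comp e e e]
  simp only [Matrix.trace, Matrix.diag_apply, LinearMap.toMatrix_apply, Matrix.mul_apply,
    Fintype.sum_prod_type, Module.Basis.tensorProduct_apply, LinearMap.comp_apply,
    TensorProduct.map_tmul, LinearEquiv.coe_coe, TensorProduct.comm_tmul,
    Module.Basis.tensorProduct_repr_tmul_apply, smul_eq_mul]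
  rw [Finset.sum_comm]

end

section dom

variable {k : Type u} {G : Type v} [Field k] [Group G] [Fintype G]

lemma proj_of_pow {x : Gr k G} {n : ℕ} (h : (x ^ n).Proj) (hn : 0 < n) : x.Proj := by
  have key : ∀ m : ℕ, ∃ r, x * (x.star * x) ^ m = x + r := by
    intro m
    induction m with
    | zero => exact ⟨0, by simp⟩
    | succ m ih =>
      obtain ⟨r, hr⟩ := ih
      obtain ⟨s, hs⟩ := zigzag x
      refine ⟨s + r * (x.star * x), ?_⟩
      rw [pow_succ, ← mul_assoc, hr, add_mul, hs]
      ring
  obtain ⟨r, hr⟩ := key n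
  have h2 : x * (x.star * x) ^ n = x ^ n * (x.star ^ n * x) := by ring
  have h3 : (x + r).Proj := by rw [← hr, h2]; exact h.mul _
  exact h3.left

lemma one_le_gam {x : Gr k G} (h : ¬ x.Proj) : 1 ≤ x.gam := by
  apply le_gam zero_le_one
  intro n
  rw [one_pow]
  rcases Nat.eq_zero_or_pos n with rfl | hn
  · rw [pow_zero]
    have h1 : ¬ (1 : Gr k G).Proj := fun h1 => h (by have := h1.mul x; rwa [one_mul] at this)
    have h2 : (1 : Gr k G).c ≠ 0 := fun h' => h1 (c_eq_zero.1 h')
    exact_mod_cast Nat.one_le_iff_ne_zero.2 h2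
  · have h2 : (x ^ n).c ≠ 0 := fun h' => h (proj_of_pow (c_eq_zero.1 h') hn)
    exact_mod_cast Nat.one_le_iff_ne_zero.2 h2

/-- a class killed by all dominated homomorphisms is projective -/
lemma proj_of_dom {x : Gr k G} (h : ∀ χ : Gr k G →+* ℝ, Dom χ → χ x = 0) : x.Proj := by
  by_contra hx
  have h1 : ¬ (1 : Gr k G).Proj := fun h1 => hx (by have := h1.mul x; rwa [one_mul] at this)
  obtain ⟨χ, hχ, h2⟩ := exists_dom h1 x
  have h3 := one_le_gam hx
  rw [← h2, h χ hχ] at h3
  linarith

lemma gam_star (x : Gr k G) : x.star.gam = x.gam := by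
  unfold Gr.gam
  congr 1
  funext n
  rw [← star_pow, c_star]

end dom

section nonneg

variable {k : Type u} {G : Type v} [Field k] [Group G]

/-- nonnegative homomorphisms -/
def NN (χ : Gr k G →+* ℝ) : Prop := ∀ x, 0 ≤ χ x

lemma NN.mono {χ : Gr k G →+* ℝ} (h : NN χ) {x y r : Gr k G} (hxy : x = y + r) : χ y ≤ χ x := by
  rw [hxy, map_add]; linarith [h r]

lemma NN.zero_of_norm {χ : Gr k G →+* ℝ} (h : NN χ) {x : Gr k G} (hx : χ x * χ x.star = 0) :
    χ x = 0 := by
  obtain ⟨r, hr⟩ := zigzag x
  have h1 := h.mono hr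
  rw [map_mul, map_mul, mul_comm (χ x.star), hx, mul_zero] at h1
  exact le_antisymm h1 (h x)

end nonneg

end Pool.Agent.V7H61
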