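import Pool.Agent.V7H61.Top

set_option autoImplicit false
set_option linter.unusedSectionVars false

/-!
The tower evaluated by a nonnegative homomorphism.
-/

open scoped TensorProduct

universe u v

namespace Pool.Agent.V7H61

/-- Chebyshev sequence of the second kind -/
noncomputable def uu (x : ℝ) : ℕ → ℝ
  | 0 => 1
  | 1 => x
  | (n + 2) => x * uu x (n + 1) - uu x n

lemma uu_zero (x : ℝ) : uu x 0 = 1 := rfl
lemma uu_one (x : ℝ) : uu x 1 = x := rfl
lemma uu_succ (x : ℝ) (n : ℕ) : uu x (n + 2) = x * uu x (n + 1) - uu x n := rfl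

lemma uu_sin (θ : ℝ) (n : ℕ) :
    uu (2 * Real.cos θ) n * Real.sin θ = Real.sin ((n + 1 : ℝ) * θ) ∧
    uu (2 * Real.cos θ) (n + 1) * Real.sin θ = Real.sin ((n + 2 : ℝ) * θ) := by
  induction n with
  | zero =>
    refine ⟨by simp [uu_zero], ?_⟩
    rw [uu_one]
    have : ((0 : ℕ) + 2 : ℝ) * θ = 2 * θ := by norm_num
    rw [this, Real.sin_two_mul]; ring
  | succ n ih =>
    obtain ⟨h1, h2⟩ := ih
    refine ⟨?_, ?_⟩
    · rw [h2]; congr 1; push_cast; ring
    · rw [uu_succ, sub_mul, mul_assoc, h2, h1]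
      have e1 : ((n + 1 : ℕ) + 2 : ℝ) * θ = (n + 2 : ℝ) * θ + θ := by push_cast; ring
      have e2 : (n + 1 : ℝ) * θ = (n + 2 : ℝ) * θ - θ := by ring
      rw [e1, e2, Real.sin_add, Real.sin_sub]; ring

section

variable {k : Type u} {G : Type v} [Field k] [Group G]

/-- one rung of the ladder, with values -/
def Lad (χ : Gr k G →+* ℝ) (ε : k) (x : ℝ) (d : ℕ) (n : ℕ) : Prop :=
  ∃ (D D' : MRep k G (Fin d)) (A B C : Obj k G) (r : k) (S : Stg D D' A.ρ B.ρ C.ρ r)
    (s s' t t' : ℝ),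
    Pair D D' ∧ S.Inj ∧ (0 < s ∧ 0 < s' ∧ 0 < t ∧ 0 < t' ∧ s * t = 1 ∧ s' * t' = 1) ∧
    (χ (cls B.ρ) = uu x n * s' ∧ χ (cls C.ρ) = uu x (n + 1) * s ∧
      χ (cls B.ρ).star = uu x n * t' ∧ χ (cls C.ρ).star = uu x (n + 1) * t) ∧
    (s * χ D'.cl = x * s' ∧ t * χ D.cl = x * t' ∧ χ D.cl * χ D'.cl = x ^ 2) ∧
    ((n : k) + 1) * r = ε * n ∧
    ((Module.finrank k B.V : k) = ε ^ n * (n + 1) ∧
      (Module.finrank k C.V : k) = ε ^ (n + 1) * (n + 2))

lemma dim_cl {d : ℕ} (D : MRep k G (Fin d)) : D.cl.dim = d := by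
  rw [MRep.cl, dim_cls]; simp

lemma Lad.base {χ : Gr k G →+* ℝ} (hχ : NN χ) {ε : k} {x : ℝ} (hx : 0 < x) {M : Gr k G}
    (hd : (M.dim : k) = 2 * ε) (hM : χ M * χ M.star = x ^ 2) : Lad χ ε x M.dim 0 := by
  obtain ⟨D, hD⟩ := exists_mrep M
  have hP := D.pair
  have h1 : D.cl.star = D.con.cl := star_cl D D.con hP
  rw [hD, h1] at hM
  have hab : 0 < χ D.cl * χ D.con.cl := by rw [hM]; positivity
  have ha : 0 < χ D.cl := lt_of_le_of_ne (hχ _) fun h => by rw [← h, zero_mul] at hab; exact lt_irrefl _ hab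
  have hb : 0 < χ D.con.cl := lt_of_le_of_ne (hχ _) fun h => by rw [← h, mul_zero] at hab; exact lt_irrefl _ hab
  have e1 : Eqv (1 : Representation k G k) (leg D.con (1 : Representation k G PUnit.{u+1})) 0 :=
    fun g v => by simp
  have e2 : Eqv (leg D.con (1 : Representation k G PUnit.{u+1})) (1 : Representation k G k) 0 :=
    fun g v => by simp
  refine ⟨D, D.con, ⟨PUnit.{u+1}, 1⟩, ⟨k, 1⟩, ⟨Fin M.dim → k, leg D 1⟩, 0,
    ⟨0, 0, LinearMap.id, LinearMap.id, e1, e2, Eqv.id _, Eqv.id _, fun _ => rfl,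
      fun f => by simp, Or.inl rfl⟩, χ D.cl / x, 1, χ D.con.cl / x, 1, hP, ?_,
      ⟨div_pos ha hx, one_pos, div_pos hb hx, one_pos, ?_, by ring⟩, ⟨?_, ?_, ?_, ?_⟩,
      ⟨?_, ?_, hM⟩, ?_, ?_, ?_⟩
  · intro y hy
    rw [hy, zero_smul]
  · rw [div_mul_div_comm, hM]; field_simp
  · change χ (cls (1 : Representation k G k)) = _
    rw [cls_one, map_one, uu_zero]; ring
  · change χ D.cl = _
    rw [uu_one]; field_simp
  · change χ (cls (1 : Representation k G k)).star = _
    rw [cls_one, star_one, map_one, uu_zero]; ring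
  · change χ D.cl.star = _
    rw [h1, uu_one]; field_simp
  · rw [div_mul_eq_mul_div, hM]; field_simp
  · rw [div_mul_eq_mul_div, mul_comm, hM]; field_simp
  · simp
  · change (Module.finrank k k : k) = _
    simp
  · change (Module.finrank k (Fin M.dim → k) : k) = _
    rw [Module.finrank_fin_fun, hd]; simp; ring

lemma q_rel {ε r : k} {n : ℕ} {d : ℕ} (hd : (d : k) = 2 * ε)
    (hr : ((n : k) + 1) * r = ε * n) :
    ((n : k) + 1) * ((Fintype.card (Fin d) : k) - r) = ε * (n + 2) := by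
  rw [Fintype.card_fin, hd]
  linear_combination -hr

lemma Lad.step {χ : Gr k G →+* ℝ} (hχ : NN χ) {ε : k} (hε : ε * ε = 1) {x : ℝ} {d n : ℕ}
    (hd : (d : k) = 2 * ε) (hn : ((n : k) + 2) ≠ 0) (h : Lad χ ε x d n) :
    Lad χ ε x d (n + 1) := by
  obtain ⟨D, D', A, B, C, r, S, s, s', t, t', hP, hI, ⟨hs, hs', ht, ht', hst, hst'⟩,
    ⟨v1, v2, v3, v4⟩, ⟨w1, w2, w3⟩, hr, d1, d2⟩ := h
  have hε0 : ε ≠ 0 := fun h => by rw [h] at hε; simp at hε
  have hqr := q_rel hd hr
  have hq : (Fintype.card (Fin d) : k) - r ≠ 0 := by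
    intro h0
    rw [h0, mul_zero] at hqr
    exact (mul_ne_zero hε0 hn) hqr.symm
  have hcl := S.next_cls hP hq
  have hcl' := congrArg Gr.star hcl
  rw [star_mul, star_add, star_cl D' D hP.symm] at hcl'
  have c1 := congrArg χ hcl
  have c2 := congrArg χ hcl'
  have c3 := congrArg (fun y : Gr k G => (y.dim : k)) hcl
  simp only [map_mul, map_add] at c1 c2
  simp only [dim_mul, dim_add, Nat.cast_mul, Nat.cast_add, dim_cl, dim_cls, hd] at c3
  refine ⟨D', D, B, C, ⟨_, kerRep (bm_eqv hP S.ej)⟩, _, S.next hP hq, s', s, t', t, hP.symm,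
    S.next_inj hP hq hI, ⟨hs', hs, ht', ht, hst', hst⟩, ⟨v2, ?_, v4, ?_⟩, ⟨?_, ?_, ?_⟩, ?_, ?_, ?_⟩
  · change χ (cls (kerRep (bm_eqv hP S.ej))) = _
    rw [uu_succ]
    linear_combination -v1 - c1 + χ D'.cl * v2 + uu x (n + 1) * w1
  · change χ (cls (kerRep (bm_eqv hP S.ej))).star = _
    rw [uu_succ]
    linear_combination -v3 - c2 + χ D.cl * v4 + uu x (n + 1) * w2
  · have h1 : χ D'.cl = x * s' * t := by
      linear_combination (-χ D'.cl) * hst + t * w1
    have hx0 : x ≠ 0 ∨ x = 0 := ne_or_eq x 0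
    rcases hx0 with hx0 | hx0
    · have h2 : x * (s' * χ D.cl - x * s) = 0 := by
        linear_combination s * w3 - χ D.cl * w1
      have h3 := (mul_eq_zero.1 h2).resolve_left hx0
      linarith
    · rw [hx0] at w2 ⊢
      have h4 : χ D.cl = 0 := by
        rw [zero_mul] at w2
        exact (mul_eq_zero.1 w2).resolve_left ht.ne'
      rw [h4]; ring
  · have hx0 : x ≠ 0 ∨ x = 0 := ne_or_eq x 0
    rcases hx0 with hx0 | hx0
    · have h2 : x * (t' * χ D'.cl - x * t) = 0 := by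
        linear_combination t * w3 - χ D'.cl * w2
      have h3 := (mul_eq_zero.1 h2).resolve_left hx0
      linarith
    · rw [hx0] at w1 ⊢
      have h4 : χ D'.cl = 0 := by
        rw [zero_mul] at w1
        exact (mul_eq_zero.1 w1).resolve_left hs.ne'
      rw [h4]; ring
  · rw [mul_comm]; exact w3
  · have h5 : ((Fintype.card (Fin d) : k) - r) * ((Fintype.card (Fin d) : k) - r)⁻¹ = 1 :=
      mul_inv_cancel₀ hq
    push_cast
    have h6 : ((n : k) + 1) = (ε * (n + 2)) * ((Fintype.card (Fin d) : k) - r)⁻¹ := by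
      rw [← hqr, mul_assoc, h5, mul_one]
    linear_combination (-((n : k) + 1 + 1) * ((Fintype.card (Fin d) : k) - r)⁻¹) * hε - ε * h6
  · change (Module.finrank k C.V : k) = _
    rw [d2]; push_cast; ring
  · change (Module.finrank k (LinearMap.ker (bm S.j)) : k) = _
    rw [d1, d2] at c3
    push_cast
    have h7 : ε ^ (n + 1 + 1) = ε ^ n := by
      rw [pow_succ, pow_succ, mul_assoc, hε, mul_one]
    have h8 : ε ^ (n + 1) * ε = ε ^ n := by rw [← pow_succ]; exact h7
    rw [h7]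
    linear_combination -c3 + 2 * ((n : k) + 2) * h8

lemma Lad.nonneg {χ : Gr k G →+* ℝ} (hχ : NN χ) {ε : k} {x : ℝ} {d n : ℕ}
    (h : Lad χ ε x d n) : 0 ≤ uu x (n + 1) := by
  obtain ⟨D, D', A, B, C, r, S, s, s', t, t', hP, hI, ⟨hs, hs', ht, ht', hst, hst'⟩,
    ⟨v1, v2, v3, v4⟩, _⟩ := h
  have h1 := hχ (cls C.ρ)
  rw [v2] at h1
  by_contra hneg
  push Not at hneg
  have := mul_neg_of_neg_of_pos hneg hs
  linarith

lemma Lad.top {χ : Gr k G →+* ℝ} (hχ : NN χ) {ε : k} (hε : ε * ε = 1) {x : ℝ} {d n : ℕ}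
    (hd : (d : k) = 2 * ε) (hn : ((n : k) + 2) = 0) (h : Lad χ ε x d n)
    (hpos : 0 < uu x (n + 1)) :
    ∃ (z : Gr k G) (ε' : k), ε' * ε' = 1 ∧ (z.dim : k) = 2 * ε' ∧ 0 ≤ uu x (n + 2) - uu x n ∧
      χ z * χ z.star = (uu x (n + 2) - uu x n) ^ 2 := by
  obtain ⟨D, D', A, B, C, r, S, s, s', t, t', hP, hI, ⟨hs, hs', ht, ht', hst, hst'⟩,
    ⟨v1, v2, v3, v4⟩, ⟨w1, w2, w3⟩, hr, d1, d2⟩ := h
  have hn1 : ((n : k) + 1) ≠ 0 := by
    intro h0
    have : (1 : k) = 0 := by linear_combination hn - h0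
    exact one_ne_zero this
  have hqr := q_rel hd hr
  rw [hn, mul_zero] at hqr
  have hq := (mul_eq_zero.1 hqr).resolve_left hn1
  obtain ⟨z, hz⟩ := S.top hP hq hI
  have hz' := congrArg Gr.star hz
  simp only [star_mul, star_add, star_cl D' D hP.symm] at hz'
  have c1 := congrArg χ hz
  have c2 := congrArg χ hz'
  have c3 := congrArg Gr.dim hz
  simp only [map_mul, map_add] at c1 c2
  simp only [dim_mul, dim_add, dim_cl] at c3
  have hg : 0 < χ (cls C.ρ) := by rw [v2]; exact mul_pos hpos hs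
  have hg' : 0 < χ (cls C.ρ).star := by rw [v4]; exact mul_pos hpos ht
  have e1 : χ z = (uu x (n + 2) - uu x n) * s' := by
    have h1 : χ (cls C.ρ) * (χ z - (uu x (n + 2) - uu x n) * s') = 0 := by
      rw [uu_succ]
      have h2 : χ (cls C.ρ) * χ D'.cl = 2 * χ (cls B.ρ) + χ z := by
        have h3 : χ (cls C.ρ) * (χ (cls C.ρ) * χ D'.cl - (2 * χ (cls B.ρ) + χ z)) = 0 := by
          linear_combination c1
        have h4 := (mul_eq_zero.1 h3).resolve_left hg.ne'
        linarith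
      have h5 : χ z = (x * uu x (n + 1) - uu x n - uu x n) * s' := by
        linear_combination (-h2) - 2 * v1 + χ D'.cl * v2 + uu x (n + 1) * w1
      rw [h5]; ring
    have h4 := (mul_eq_zero.1 h1).resolve_left hg.ne'
    linarith
  have e2 : χ z.star = (uu x (n + 2) - uu x n) * t' := by
    have h2 : χ (cls C.ρ).star * χ D.cl = 2 * χ (cls B.ρ).star + χ z.star := by
      have h3 : χ (cls C.ρ).star *
          (χ (cls C.ρ).star * χ D.cl - (2 * χ (cls B.ρ).star + χ z.star)) = 0 := by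
        linear_combination c2
      have h4 := (mul_eq_zero.1 h3).resolve_left hg'.ne'
      linarith
    rw [uu_succ]
    linear_combination (-h2) - 2 * v3 + χ D.cl * v4 + uu x (n + 1) * w2
  have hdimC : (cls C.ρ).dim ≠ 0 := by
    intro h0
    rw [eq_zero_of_dim h0, map_zero] at hg
    exact lt_irrefl _ hg
  have c4 : (cls C.ρ).dim * d = 2 * (cls B.ρ).dim + z.dim := by
    have h3 : (cls C.ρ).dim * ((cls C.ρ).dim * d) =
        (cls C.ρ).dim * (2 * (cls B.ρ).dim + z.dim) := by rw [c3]; ring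
    exact Nat.eq_of_mul_eq_mul_left (Nat.pos_of_ne_zero hdimC) h3
  have c5 := congrArg (fun y : ℕ => (y : k)) c4
  simp only [Nat.cast_mul, Nat.cast_add, Nat.cast_ofNat, hd, dim_cls] at c5
  rw [d1, d2, hn, mul_zero, zero_mul] at c5
  refine ⟨z, ε ^ n, ?_, ?_, ?_, ?_⟩
  · rw [← mul_pow, hε, one_pow]
  · linear_combination -c5 - 2 * ε ^ n * hn
  · have h1 := hχ z
    rw [e1] at h1
    by_contra hneg
    push Not at hneg
    have := mul_neg_of_neg_of_pos hneg hs'
    linarith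
  · rw [e1, e2]
    linear_combination (uu x (n + 2) - uu x n) ^ 2 * hst'

lemma angle_le {θ : ℝ} {p : ℕ} (h0 : 0 < θ) (h1 : θ ≤ Real.pi / 2)
    (h : ∀ m : ℕ, 1 ≤ m → m ≤ p → 0 ≤ Real.sin ((m : ℝ) * θ)) : (p : ℝ) * θ ≤ Real.pi := by
  classical
  by_contra hlt
  push Not at hlt
  have hex : ∃ m : ℕ, Real.pi < (m : ℝ) * θ := ⟨p, hlt⟩
  obtain ⟨m, hm⟩ : ∃ m, m = Nat.find hex := ⟨_, rfl⟩
  have hm1 : Real.pi < (m : ℝ) * θ := by rw [hm]; exact Nat.find_spec hex
  have hmp : m ≤ p := by rw [hm]; exact Nat.find_min' hex hlt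
  have hm0 : m ≠ 0 := by
    intro h
    rw [h, Nat.cast_zero, zero_mul] at hm1
    linarith [Real.pi_pos]
  have hm2 : ((m - 1 : ℕ) : ℝ) * θ ≤ Real.pi := by
    by_contra h3
    push Not at h3
    have := Nat.find_min' hex h3
    omega
  rw [Nat.cast_sub (by omega), Nat.cast_one] at hm2
  have h4 := h m (by omega) hmp
  have h5 : Real.sin ((m : ℝ) * θ) < 0 := by
    have e : Real.sin ((m : ℝ) * θ) = - Real.sin ((m : ℝ) * θ - Real.pi) := by
      rw [Real.sin_sub_pi]; ring
    rw [e, neg_neg_iff_pos]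
    apply Real.sin_pos_of_pos_of_lt_pi
    · linarith
    · have : (m : ℝ) * θ ≤ Real.pi + θ := by linarith
      linarith [Real.pi_pos]
  linarith

lemma lad_all {χ : Gr k G →+* ℝ} (hχ : NN χ) {ε : k} (hε : ε * ε = 1) {x : ℝ} (hx : 0 < x)
    {M : Gr k G} (hd : (M.dim : k) = 2 * ε) (hM : χ M * χ M.star = x ^ 2) (N : ℕ)
    (hN : ∀ n < N, ((n : k) + 2) ≠ 0) : ∀ n ≤ N, Lad χ ε x M.dim n := by
  intro n
  induction n with
  | zero => intro _; exact Lad.base hχ hx hd hM
  | succ n ih =>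
    intro hn
    exact Lad.step hχ hε hd (hN n (by omega)) (ih (by omega))

theorem thmD {p : ℕ} (hp : p.Prime) [CharP k p] {χ : Gr k G →+* ℝ} (hχ : NN χ) (N : ℕ) :
    ∀ θ : ℝ, 0 < θ → θ ≤ Real.pi / 2 → Real.pi < (p : ℝ) ^ N * θ →
    ∀ (M : Gr k G) (ε : k), ε * ε = 1 → (M.dim : k) = 2 * ε →
    χ M * χ M.star = (2 * Real.cos θ) ^ 2 → ∃ j : ℕ, 1 ≤ j ∧ θ = Real.pi / (p : ℝ) ^ j := by
  have hp0 : (0 : ℝ) < p := by exact_mod_cast hp.pos
  have hp2 := hp.two_le
  have hcast : ∀ n : ℕ, n < p → n ≠ 0 → (n : k) ≠ 0 := by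
    intro n hn hn0 h
    rw [CharP.cast_eq_zero_iff k p] at h
    exact absurd (Nat.le_of_dvd (by omega) h) (by omega)
  induction N with
  | zero =>
    intro θ h0 h1 h2
    rw [pow_zero, one_mul] at h2
    linarith [Real.pi_pos]
  | succ N ih =>
    intro θ h0 h1 h2 M ε hε hd hM
    have hε0 : ε ≠ 0 := fun h => by rw [h] at hε; simp at hε
    rcases eq_or_lt_of_le h1 with h1' | h1'
    · -- angle a right angle
      by_cases h22 : p = 2
      · refine ⟨1, le_refl _, ?_⟩
        rw [h1', h22]; norm_num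
      · exfalso
        have h2k : (2 : k) ≠ 0 := by
          have := hcast 2 (by omega) (by norm_num)
          exact_mod_cast this
        rw [h1', Real.cos_pi_div_two, mul_zero, zero_pow (by norm_num)] at hM
        induction M using Gr.ind with | _ V ρ
        have hdd : (Module.finrank k V : k) ≠ 0 := by
          rw [dim_cls] at hd; rw [hd]; exact mul_ne_zero h2k hε0
        have h3 := congrArg χ (one_add_sl ρ hdd)
        rw [cls_linHom, map_mul, map_add, map_one, mul_comm, hM] at h3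
        have := hχ (sl ρ)
        linarith
    · have hx : 0 < 2 * Real.cos θ := by
        have := Real.cos_pos_of_mem_Ioo (x := θ) ⟨by linarith, h1'⟩
        linarith
      have hsin : 0 < Real.sin θ := Real.sin_pos_of_pos_of_lt_pi h0 (by linarith [Real.pi_pos])
      have hlad := lad_all hχ hε hx hd hM (p - 2) (fun n hn => by
        have := hcast (n + 2) (by omega) (by omega)
        push_cast at this; exact this)
      have hpos : ∀ m : ℕ, 1 ≤ m → m ≤ p → 0 ≤ Real.sin ((m : ℝ) * θ) := by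
        intro m hm1 hm2
        rcases Nat.lt_or_ge m 2 with hm | hm
        · have : m = 1 := by omega
          rw [this, Nat.cast_one, one_mul]; exact hsin.le
        · obtain ⟨n, rfl⟩ : ∃ n, m = n + 2 := ⟨m - 2, by omega⟩
          have h3 := Lad.nonneg hχ (hlad n (by omega))
          have h4 := (uu_sin θ n).2
          push_cast
          rw [← h4]
          exact mul_nonneg h3 hsin.le
      have hle := angle_le h0 h1 hpos
      rcases eq_or_lt_of_le hle with heq | hlt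
      · refine ⟨1, le_refl _, ?_⟩
        rw [pow_one]; field_simp; linarith
      · obtain ⟨n, hn⟩ : ∃ n, p = n + 2 := ⟨p - 2, by omega⟩
        have hu1 := (uu_sin θ n).2
        have hu0 := (uu_sin θ n).1
        have hu2 := (uu_sin θ (n + 1)).2
        have hpn : (p : ℝ) = (n : ℝ) + 2 := by rw [hn]; push_cast; ring
        have hpos1 : 0 < uu (2 * Real.cos θ) (n + 1) := by
          have h5 : 0 < Real.sin ((n + 2 : ℝ) * θ) := by
            apply Real.sin_pos_of_pos_of_lt_pi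
            · positivity
            · rw [← hpn]; exact hlt
          rw [← hu1] at h5
          exact (pos_iff_pos_of_mul_pos h5).2 hsin
        have hpk : ((n : k) + 2) = 0 := by
          have : ((p : ℕ) : k) = 0 := CharP.cast_eq_zero k p
          rw [hn] at this; push_cast at this; exact this
        obtain ⟨z, ε', hε', hdz, hnn, hz⟩ := Lad.top hχ hε hd hpk
          (hlad n (by omega)) hpos1
        have hval : uu (2 * Real.cos θ) (n + 2) - uu (2 * Real.cos θ) n =
            2 * Real.cos ((p : ℝ) * θ) := by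
          have h6 : (uu (2 * Real.cos θ) (n + 2) - uu (2 * Real.cos θ) n) * Real.sin θ =
              (2 * Real.cos ((p : ℝ) * θ)) * Real.sin θ := by
            rw [sub_mul, hu2, hu0, hpn]
            have e1 : ((n + 1 : ℕ) + 2 : ℝ) * θ = (n + 2 : ℝ) * θ + θ := by push_cast; ring
            have e2 : (n + 1 : ℝ) * θ = (n + 2 : ℝ) * θ - θ := by ring
            rw [e1, e2, Real.sin_add, Real.sin_sub]; ring
          exact mul_right_cancel₀ hsin.ne' h6
        rw [hval] at hnn hz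
        have hle2 : (p : ℝ) * θ ≤ Real.pi / 2 := by
          by_contra h7
          push Not at h7
          have := Real.cos_neg_of_pi_div_two_lt_of_lt h7 (by linarith [Real.pi_pos])
          linarith
        obtain ⟨j, hj1, hj⟩ := ih ((p : ℝ) * θ) (by positivity) hle2
          (by rw [← mul_assoc, ← pow_succ]; exact h2) z ε' hε' hdz hz
        refine ⟨j + 1, by omega, ?_⟩
        rw [pow_succ]
        field_simp at hj ⊢
        linarith

end

end Pool.Agent.V7H61
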