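import Pool.Agent.V7H61.Homs

set_option autoImplicit false
set_option linter.unusedSectionVars false

/-!
Tensoring with a matrix representation, written with functions.
-/

open scoped TensorProduct

universe u v

namespace Pool.Agent.V7H61

/-- matrix representations -/
structure MRep (k : Type u) (G : Type v) (ι : Type) [Field k] [Group G] [Fintype ι]
    [DecidableEq ι] where
  /-- the entries -/
  m : G → ι → ι → k
  one : ∀ a b, m 1 a b = if a = b then 1 else 0
  mul : ∀ g h a b, m (g * h) a b = ∑ c, m g a c * m h c b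

section

variable {k : Type u} {G : Type v} [Field k] [Group G]
variable {V W U X : Type u} [AddCommGroup V] [Module k V] [AddCommGroup W] [Module k W]
  [AddCommGroup U] [Module k U]
variable {ι : Type} [Fintype ι] [DecidableEq ι]

/-- `V` tensored with the matrix representation `D` -/
noncomputable def leg (D : MRep k G ι) (ρ : Representation k G V) :
    Representation k G (ι → V) where
  toFun g :=
    { toFun := fun f c => ∑ c', D.m g c c' • ρ g (f c')
      map_add' := fun f h => by
        funext c
        simp only [Pi.add_apply, map_add, smul_add, Finset.sum_add_distrib]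
      map_smul' := fun a f => by
        funext c
        simp only [Pi.smul_apply, map_smul, RingHom.id_apply, Finset.smul_sum]
        exact Finset.sum_congr rfl fun c' _ => smul_comm _ _ _ }
  map_one' := by
    apply LinearMap.ext; intro f; funext c
    simp [D.one]
  map_mul' g h := by
    apply LinearMap.ext; intro f; funext c
    simp only [LinearMap.coe_mk, AddHom.coe_mk, Module.End.mul_apply, map_mul, D.mul,
      Finset.sum_smul, map_sum, map_smul, Finset.smul_sum]
    rw [Finset.sum_comm]
    exact Finset.sum_congr rfl fun c' _ => Finset.sum_congr rfl fun e _ => by rw [mul_smul]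

lemma leg_apply (D : MRep k G ι) (ρ : Representation k G V) (g : G) (f : ι → V) (c : ι) :
    leg D ρ g f c = ∑ c', D.m g c c' • ρ g (f c') := rfl

/-- dual matrix representations -/
def Pair (D D' : MRep k G ι) : Prop :=
  ∀ g a b, ∑ c, D.m g a c * D'.m g b c = if a = b then 1 else 0

lemma Pair.symm {D D' : MRep k G ι} (h : Pair D D') : Pair D' D := by
  intro g a b
  have := h g b a
  rw [← Finset.sum_congr rfl fun c _ => mul_comm (D.m g b c) (D'.m g a c), this]
  simp [eq_comm]

lemma Pair.sum' {D D' : MRep k G ι} (h : Pair D D') (g : G) (a b : ι) :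
    ∑ c, D.m g c a * D'.m g c b = if a = b then 1 else 0 := by
  have h1 : (Matrix.of (D.m g)) * (Matrix.of (D'.m g)).transpose = 1 := by
    ext i j
    rw [Matrix.mul_apply, Matrix.one_apply]
    exact h g i j
  have h2 : (Matrix.of (D'.m g)).transpose * (Matrix.of (D.m g)) = 1 := mul_eq_one_comm.1 h1
  have := congrFun (congrFun h2 b) a
  rw [Matrix.mul_apply, Matrix.one_apply] at this
  simp only [Matrix.transpose_apply, Matrix.of_apply] at this
  rw [← Finset.sum_congr rfl fun c _ => mul_comm (D'.m g c b) (D.m g c a), this]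
  simp [eq_comm]

/-- pointwise application -/
def lmap (ι : Type) (f : V →ₗ[k] W) : (ι → V) →ₗ[k] (ι → W) := f.compLeft ι

@[simp] lemma lmap_apply (f : V →ₗ[k] W) (x : ι → V) (c : ι) : lmap ι f x c = f (x c) := rfl

lemma lmap_eqv (D : MRep k G ι) {ρ : Representation k G V} {σ : Representation k G W}
    {f : V →ₗ[k] W} (hf : Eqv ρ σ f) : Eqv (leg D ρ) (leg D σ) (lmap ι f) := by
  intro g x
  funext c
  simp only [lmap_apply, leg_apply, map_sum, map_smul, hf g]

/-- contraction of two legs -/
def con2 (k : Type u) (ι : Type) (V : Type u) [Field k] [AddCommGroup V] [Module k V] [Fintype ι] :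
    (ι → ι → V) →ₗ[k] V where
  toFun f := ∑ c, f c c
  map_add' f h := by simp [Finset.sum_add_distrib]
  map_smul' a f := by simp [Finset.smul_sum]

lemma con2_apply (f : ι → ι → V) : con2 k ι V f = ∑ c, f c c := rfl

lemma leg_leg_apply (D D' : MRep k G ι) (ρ : Representation k G V) (g : G) (f : ι → ι → V)
    (c c' : ι) : leg D (leg D' ρ) g f c c' =
      ∑ a, ∑ b, (D.m g c a * D'.m g c' b) • ρ g (f a b) := by
  rw [leg_apply, Finset.sum_apply]
  refine Finset.sum_congr rfl fun a _ => ?_
  rw [Pi.smul_apply, leg_apply, Finset.smul_sum]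
  exact Finset.sum_congr rfl fun b _ => smul_smul _ _ _

lemma con2_eqv {D D' : MRep k G ι} (h : Pair D D') (ρ : Representation k G V) :
    Eqv (leg D (leg D' ρ)) ρ (con2 k ι V) := by
  intro g f
  simp only [con2_apply, leg_leg_apply, map_sum]
  rw [Finset.sum_comm]
  refine Finset.sum_congr rfl fun a _ => ?_
  rw [Finset.sum_comm]
  have : ∀ b, ∑ c, (D.m g c a * D'.m g c b) • ρ g (f a b) =
      (if a = b then (1 : k) else 0) • ρ g (f a b) := by
    intro b
    rw [← Finset.sum_smul, h.sum']
  rw [Finset.sum_congr rfl fun b _ => this b]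
  simp [ite_smul]

/-- insertion of two legs -/
def ins2 (k : Type u) (ι : Type) (V : Type u) [Field k] [AddCommGroup V] [Module k V]
    [DecidableEq ι] : V →ₗ[k] (ι → ι → V) where
  toFun v c c' := if c = c' then v else 0
  map_add' f h := by funext c c'; by_cases e : c = c' <;> simp [e]
  map_smul' a f := by funext c c'; by_cases e : c = c' <;> simp [e]

lemma ins2_apply (v : V) (c c' : ι) : ins2 k ι V v c c' = if c = c' then v else 0 := rfl

lemma ins2_eqv {D D' : MRep k G ι} (h : Pair D D') (ρ : Representation k G V) :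
    Eqv ρ (leg D (leg D' ρ)) (ins2 k ι V) := by
  intro g v
  funext c c'
  rw [leg_leg_apply, ins2_apply]
  simp only [ins2_apply]
  have : ∀ a, ∑ b, (D.m g c a * D'.m g c' b) • ρ g (if a = b then v else 0) =
      (D.m g c a * D'.m g c' a) • ρ g v := by
    intro a
    rw [Finset.sum_eq_single a]
    · simp
    · intro b _ hb; rw [if_neg (Ne.symm hb)]; simp
    · intro h; exact absurd (Finset.mem_univ a) h
  rw [Finset.sum_congr rfl fun a _ => this a, ← Finset.sum_smul, h]
  by_cases e : c = c' <;> simp [e]

/-- exchange of two legs -/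
def swp (k : Type u) (ι : Type) (V : Type u) [Field k] [AddCommGroup V] [Module k V] :
    (ι → ι → V) →ₗ[k] (ι → ι → V) where
  toFun f c c' := f c' c
  map_add' f h := rfl
  map_smul' a f := rfl

lemma swp_apply (f : ι → ι → V) (c c' : ι) : swp k ι V f c c' = f c' c := rfl

lemma swp_eqv (D D' : MRep k G ι) (ρ : Representation k G V) :
    Eqv (leg D (leg D' ρ)) (leg D' (leg D ρ)) (swp k ι V) := by
  intro g f
  funext c c'
  rw [swp_apply, leg_leg_apply, leg_leg_apply, Finset.sum_comm]
  refine Finset.sum_congr rfl fun a _ => Finset.sum_congr rfl fun b _ => ?_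
  rw [swp_apply, mul_comm]

variable (k) in
/-- single -/
def sng (V : Type u) [AddCommGroup V] [Module k V] (c : ι) : V →ₗ[k] (ι → V) :=
  LinearMap.single k (fun _ => V) c

lemma sng_apply (c : ι) (v : V) (c' : ι) : sng k V c v c' = if c' = c then v else 0 := by
  simp [sng, LinearMap.single_apply, Pi.single_apply]

lemma leg_sng (D : MRep k G ι) (ρ : Representation k G V) (g : G) (c : ι) (v : V) :
    leg D ρ g (sng k V c v) = ∑ e, D.m g e c • sng k V e (ρ g v) := by
  funext e
  rw [leg_apply, Finset.sum_apply, Finset.sum_eq_single c, Finset.sum_eq_single e]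
  · simp [sng_apply]
  · intro b _ hb
    simp [sng_apply, Ne.symm hb]
  · intro h; exact absurd (Finset.mem_univ _) h
  · intro b _ hb
    simp [sng_apply, hb]
  · intro h; exact absurd (Finset.mem_univ _) h

lemma sum_sng (f : ι → V) : ∑ c, sng k V c (f c) = f := by
  funext e
  rw [Finset.sum_apply]
  simp [sng_apply]

/-- the contragredient -/
def MRep.con (D : MRep k G ι) : MRep k G ι where
  m g a b := D.m g⁻¹ b a
  one a b := by rw [inv_one, D.one]; simp [eq_comm]
  mul g h a b := by
    rw [mul_inv_rev, D.mul]
    exact Finset.sum_congr rfl fun c _ => mul_comm _ _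

lemma MRep.pair (D : MRep k G ι) : Pair D D.con := by
  intro g a b
  change ∑ c, D.m g a c * D.m g⁻¹ c b = _
  rw [← D.mul, mul_inv_cancel, D.one]

/-- the class of a matrix representation -/
noncomputable def MRep.cl (D : MRep k G ι) : Gr k G := cls (leg D (1 : Representation k G k))

lemma cls_leg [FiniteDimensional k V] (D : MRep k G ι) (ρ : Representation k G V) :
    cls (leg D ρ) = cls ρ * D.cl := by
  rw [MRep.cl, ← cls_mul]
  refine (cls_mk (V := V ⊗[k] (ι → k)) (W := ι → V)
    (ρ := ρ.tprod (leg D (1 : Representation k G k))) (σ := leg D ρ)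
    (TensorProduct.piScalarRight k k V ι) fun g t => ?_).symm
  induction t using TensorProduct.induction_on with
  | zero => simp only [map_zero]
  | tmul v f =>
    have e1 : (ρ.tprod (leg D (1 : Representation k G k))) g (v ⊗ₜ[k] f) =
      ρ g v ⊗ₜ[k] (leg D (1 : Representation k G k) g f) := rfl
    rw [e1, TensorProduct.piScalarRight_apply, TensorProduct.piScalarRight_apply,
      TensorProduct.piScalarRightHom_tmul, TensorProduct.piScalarRightHom_tmul]
    funext c
    rw [leg_apply, leg_apply]
    simp only [map_smul, Finset.sum_smul, smul_smul]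
    rfl
  | add x y hx hy => simp only [map_add, hx, hy]

lemma star_cl (D D' : MRep k G ι) (h : Pair D D') : D.cl.star = D'.cl := by
  rw [MRep.cl, MRep.cl, ← cls_star]
  obtain ⟨F, hF⟩ : ∃ F : (ι → k) →ₗ[k] Module.Dual k (ι → k), ∀ f x, F f x = ∑ i, f i * x i :=
    ⟨LinearMap.mk₂ k (fun f x => ∑ i, f i * x i)
      (fun a b c => by simp [add_mul, Finset.sum_add_distrib])
      (fun c a b => by simp [Finset.mul_sum, mul_assoc])
      (fun a b c => by simp [mul_add, Finset.sum_add_distrib])
      (fun c a b => by
        simp only [Pi.smul_apply, smul_eq_mul, Finset.mul_sum]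
        exact Finset.sum_congr rfl fun i _ => by ring), fun _ _ => rfl⟩
  have hinj : Function.Injective F := by
    rw [← LinearMap.ker_eq_bot, LinearMap.ker_eq_bot']
    intro f hf
    funext i
    have := LinearMap.congr_fun hf (Pi.single i 1)
    rw [hF] at this
    simpa [Pi.single_apply] using this
  have hd : Module.finrank k (ι → k) = Module.finrank k (Module.Dual k (ι → k)) :=
    Subspace.dual_finrank_eq.symm
  refine (cls_bij (V := ι → k) (W := Module.Dual k (ι → k))
    (ρ := leg D' (1 : Representation k G k)) (σ := (leg D (1 : Representation k G k)).dual) F ?_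
    ⟨hinj, (LinearMap.injective_iff_surjective_of_finrank_eq_finrank hd).1 hinj⟩).symm
  intro g f
  apply LinearMap.ext
  intro x
  have e1 : ((leg D (1 : Representation k G k)).dual g (F f)) x =
      F f (leg D (1 : Representation k G k) g⁻¹ x) := rfl
  rw [e1, hF, hF]
  have e2 : ∀ i, leg D (1 : Representation k G k) g⁻¹ x i = ∑ j, D.m g⁻¹ i j * x j := fun i => rfl
  have e3 : ∀ i, leg D' (1 : Representation k G k) g f i = ∑ j, D'.m g i j * f j := fun i => rfl
  simp only [e2, e3]
  -- D' g i j = D g⁻¹ j i
  have e4 : ∀ i j, D'.m g i j = D.m g⁻¹ j i := by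
    intro i j
    calc D'.m g i j = ∑ l, D'.m g i l * (if l = j then 1 else 0) := by simp
      _ = ∑ l, D'.m g i l * ∑ c, D.m g⁻¹ j c * D.m g c l := by
          refine Finset.sum_congr rfl fun l _ => ?_
          rw [← D.mul, inv_mul_cancel, D.one]; simp [eq_comm]
      _ = ∑ c, D.m g⁻¹ j c * ∑ l, D.m g c l * D'.m g i l := by
          simp only [Finset.mul_sum]
          rw [Finset.sum_comm]
          exact Finset.sum_congr rfl fun _ _ => Finset.sum_congr rfl fun _ _ => by ring
      _ = D.m g⁻¹ j i := by
          simp only [h g _ _]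
          simp
  simp only [e4, Finset.sum_mul, Finset.mul_sum]
  rw [Finset.sum_comm]
  exact Finset.sum_congr rfl fun _ _ => Finset.sum_congr rfl fun _ _ => by ring

lemma exists_mrep (x : Gr k G) : ∃ D : MRep k G (Fin x.dim), x = D.cl := by
  induction x using Gr.ind with | _ V ρ
  rw [dim_cls]
  let b := Module.finBasis k V
  have key : ∀ (g : G) (v : V) (i : Fin (Module.finrank k V)),
      b.repr (ρ g v) i = ∑ j, b.repr (ρ g (b j)) i * b.repr v j := by
    intro g v i
    conv_lhs => rw [← b.sum_repr v]
    simp only [map_sum, map_smul, Finsupp.coe_finsetSum, Finset.sum_apply, Finsupp.coe_smul,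
      Pi.smul_apply, smul_eq_mul]
    exact Finset.sum_congr rfl fun _ _ => mul_comm _ _
  refine ⟨⟨fun g i j => b.repr (ρ g (b j)) i, ?_, ?_⟩, ?_⟩
  · intro i j
    simp [Finsupp.single_apply, eq_comm]
  · intro g h i j
    rw [map_mul, Module.End.mul_apply, key]
  · rw [MRep.cl]
    refine cls_mk b.equivFun fun g v => ?_
    funext i
    rw [leg_apply]
    exact key g v i

end

end Pool.Agent.V7H61
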