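import Pool.Agent.V7H61.Odd
import Pool.Agent.V7H61.Ladder
import Pool.Agent.V7H61.CTwo

set_option autoImplicit false
set_option linter.unusedSectionVars false

/-!
Assembly.
-/

open scoped TensorProduct

universe u v

namespace Pool.Agent.V7H61

/-- the allowed values -/
def Allowed (p : ℕ) (x : ℝ) : Prop :=
  x = 0 ∨ x = 1 ∨ (∃ j : ℕ, 1 ≤ j ∧ x = 2 * Real.cos (Real.pi / (p : ℝ) ^ j)) ∨ 2 ≤ x

section

variable {k : Type u} {G : Type v} [Field k] [Group G]

lemma cast_two_zero (h2 : (2 : k) = 0) (n : ℕ) : (n : k) = 0 ∨ (n : k) = 1 := by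
  rcases Nat.even_or_odd' n with ⟨m, h | h⟩
  · left; rw [h]; push_cast; rw [h2, zero_mul]
  · right; rw [h]; push_cast; rw [h2, zero_mul, zero_add]

/-- the case division -/
lemma dim_cases (M : Gr k G) : (∃ ε : k, ε * ε = 1 ∧ (M.dim : k) = 2 * ε) ∨
    ((3 : k) ≠ 0 ∧ (M.dim : k) * (M.dim : k) = 1) ∨
    ((2 : k) ≠ 0 ∧ (M.dim : k) ≠ 1 ∧ (M.dim : k) ≠ -1 ∧ (M.dim : k) ≠ 2 ∧ (M.dim : k) ≠ -2) := by
  by_cases hA : ∃ ε : k, ε * ε = 1 ∧ (M.dim : k) = 2 * ε
  · exact Or.inl hA
  right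
  by_cases hB : (M.dim : k) * (M.dim : k) = 1
  · left
    refine ⟨fun h3 => hA ⟨-(M.dim : k), by rw [neg_mul_neg]; exact hB, ?_⟩, hB⟩
    linear_combination (M.dim : k) * h3
  · right
    refine ⟨fun h2 => ?_, fun h => hB (by rw [h]; ring), fun h => hB (by rw [h]; ring),
      fun h => hA ⟨1, by ring, by rw [h]; ring⟩, fun h => hA ⟨-1, by ring, by rw [h]; ring⟩⟩
    rcases cast_two_zero h2 M.dim with h | h
    · exact hA ⟨1, by ring, by rw [h, h2]; ring⟩
    · exact hB (by rw [h]; ring)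

lemma angle_exists {p : ℕ} (hp : p.Prime) {v : ℝ} (hv0 : 0 ≤ v) (hv : v < 4) :
    ∃ θ : ℝ, 0 < θ ∧ θ ≤ Real.pi / 2 ∧ v = (2 * Real.cos θ) ^ 2 ∧
      ∃ N : ℕ, Real.pi < (p : ℝ) ^ N * θ := by
  have hx0 : 0 ≤ Real.sqrt v := Real.sqrt_nonneg _
  have hx2 : Real.sqrt v ^ 2 = v := Real.sq_sqrt hv0
  have hxlt : Real.sqrt v < 2 := by
    by_contra h; push Not at h; nlinarith
  have h0 : 0 < Real.arccos (Real.sqrt v / 2) := Real.arccos_pos.2 (by linarith)
  refine ⟨Real.arccos (Real.sqrt v / 2), h0, ?_, ?_, ?_⟩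
  · rw [Real.arccos_le_pi_div_two]; linarith
  · rw [Real.cos_arccos (by linarith) (by linarith)]
    rw [show 2 * (Real.sqrt v / 2) = Real.sqrt v by ring, hx2]
  · obtain ⟨N, hN⟩ := pow_unbounded_of_one_lt
      (Real.pi / Real.arccos (Real.sqrt v / 2)) (y := (p : ℝ)) (by exact_mod_cast hp.one_lt)
    exact ⟨N, by rwa [div_lt_iff₀ h0] at hN⟩

theorem values {p : ℕ} (hp : p.Prime) [CharP k p] {χ : Gr k G →+* ℝ} (hχ : NN χ)
    (M : Gr k G) : Allowed p (Real.sqrt (χ M * χ M.star)) := by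
  have hv0 : 0 ≤ χ M * χ M.star := mul_nonneg (hχ _) (hχ _)
  have big : 4 ≤ χ M * χ M.star → Allowed p (Real.sqrt (χ M * χ M.star)) := by
    intro h
    right; right; right
    apply Real.le_sqrt_of_sq_le; linarith
  have zero : χ M * χ M.star = 0 → Allowed p (Real.sqrt (χ M * χ M.star)) := by
    intro h; left; rw [h, Real.sqrt_zero]
  have one : χ M * χ M.star = 1 → Allowed p (Real.sqrt (χ M * χ M.star)) := by
    intro h; right; left; rw [h, Real.sqrt_one]
  rcases dim_cases M with ⟨ε, hε, hd⟩ | ⟨h3, hd⟩ | ⟨h2, h⟩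
  · rcases lt_or_ge (χ M * χ M.star) 4 with hlt | hge
    · obtain ⟨θ, h0, h1, hv, N, hN⟩ := angle_exists hp hv0 hlt
      obtain ⟨j, hj1, hj⟩ := thmD hp hχ N θ h0 h1 hN M ε hε hd hv
      right; right; left
      refine ⟨j, hj1, ?_⟩
      rw [hv, ← hj]
      apply Real.sqrt_sq
      have := Real.cos_nonneg_of_neg_pi_div_two_le_of_le (x := θ) (by linarith) h1
      linarith
    · exact big hge
  · by_cases h2 : (2 : k) = 0
    · have hd1 : (M.dim : k) = 1 := by
        rcases cast_two_zero h2 M.dim with h | h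
        · rw [h] at hd; simp at hd
        · exact h
      rcases thmC2 hχ h2 M hd1 with h | h
      · exact one h
      · exact big h
    · have key : χ M * χ M.star = 1 ∨ 4 ≤ χ M * χ M.star := by
        induction M using Gr.ind with | _ V ρ
        rw [dim_cls] at hd
        rcases thmC5 hχ h2 h3 hd ρ rfl with h | h
        · left
          have hd0 : (Module.finrank k V : k) ≠ 0 := fun h0 => by rw [h0] at hd; simp at hd
          have hN := congrArg χ (one_add_sl ρ hd0)
          rw [cls_linHom, map_mul, map_add, map_one, h, add_zero, mul_comm] at hN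
          exact hN
        · right; exact h
      rcases key with h | h
      · exact one h
      · exact big h
  · rcases thmB hχ h2 M h.1 h.2.1 h.2.2.1 h.2.2.2 with h | h
    · exact zero h
    · exact big h

end

section

variable {k : Type u} {G : Type v} [Field k] [Group G] [Fintype G]

/-- endotrivial classes -/
def ET (D : Gr k G) : Prop := ∃ Q : Gr k G, Q.Proj ∧ D * D.star = 1 + Q

lemma Dom.nn {χ : Gr k G →+* ℝ} (h : Dom χ) : NN χ := h.nonneg

lemma all_proj (h : (1 : Gr k G).Proj) (x : Gr k G) : x.Proj := by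
  have := h.mul x; rwa [one_mul] at this

theorem gam_values {p : ℕ} (hp : p.Prime) [CharP k p] (M : Gr k G) :
    Allowed p (Real.sqrt (M * M.star).gam) := by
  by_cases h1 : (1 : Gr k G).Proj
  · rw [gam_eq_zero_of_proj (all_proj h1 _), Real.sqrt_zero]; exact Or.inl rfl
  · obtain ⟨χ, hχ, h2⟩ := exists_dom h1 (M * M.star)
    rw [← h2, map_mul]
    exact values hp hχ.nn M

theorem gam_norm_le (M : Gr k G) : (M * M.star).gam ≤ M.gam ^ 2 := by
  by_cases h1 : (1 : Gr k G).Proj
  · rw [gam_eq_zero_of_proj (all_proj h1 _)]; positivity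
  · obtain ⟨χ, hχ, h2⟩ := exists_dom h1 (M * M.star)
    rw [← h2, map_mul, sq]
    have h3 := hχ.le_gam M
    have h4 := hχ.le_gam M.star
    rw [gam_star] at h4
    exact mul_le_mul h3 h4 (hχ.nonneg _) (gam_nonneg _)

theorem gam_twist {M D R : Gr k G} (hD : D.gam ≤ 1) (h : M * M.star * D = M * M + R) :
    M.gam = Real.sqrt (M * M.star).gam := by
  have h0 := gam_norm_le M
  have h5 : M.gam ^ 2 ≤ (M * M.star).gam := by
    by_cases h1 : (1 : Gr k G).Proj
    · rw [gam_eq_zero_of_proj (all_proj h1 _), gam_eq_zero_of_proj (all_proj h1 _)]; norm_num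
    · obtain ⟨χ, hχ, h2⟩ := exists_dom h1 M
      rw [← h2]
      have h3 := hχ.nn.mono h
      rw [map_mul χ (M * M.star) D, map_mul χ M M] at h3
      have h4 := hχ.le_gam (M * M.star)
      have h6 : χ D ≤ 1 := (hχ.le_gam D).trans hD
      have h7 : χ (M * M.star) * χ D ≤ (M * M.star).gam * 1 :=
        mul_le_mul h4 h6 (hχ.nonneg _) (gam_nonneg _)
      rw [sq]; linarith
  have h6 : M.gam ^ 2 = (M * M.star).gam := le_antisymm h5 h0
  rw [← h6, Real.sqrt_sq (gam_nonneg _)]

lemma et_of_sl {V : Type u} [AddCommGroup V] [Module k V] [FiniteDimensional k V]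
    (ρ : Representation k G V) (hd : (Module.finrank k V : k) ≠ 0)
    (h : ∀ χ : Gr k G →+* ℝ, Dom χ → χ (cls ρ) * χ (cls ρ).star = 1) : ET (cls ρ) := by
  have h1 := one_add_sl ρ hd
  rw [cls_linHom] at h1
  refine ⟨sl ρ, proj_of_dom fun χ hχ => ?_, by rw [mul_comm]; exact h1⟩
  have h2 := congrArg χ h1
  rw [map_mul, map_add, map_one, mul_comm, h χ hχ] at h2
  linarith

/-- structure of modules with small norm growth -/
theorem small_structure (M : Gr k G) (hodd : (2 : k) ≠ 0 ∨ (M.dim : k) ≠ 0)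
    (hg : (M * M.star).gam < 4) :
    M.Proj ∨ ET M ∨ ∃ D R : Gr k G, ET D ∧ M * M.star * D = M * M + R := by
  have hlt : ∀ χ : Gr k G →+* ℝ, Dom χ → χ M * χ M.star < 4 := by
    intro χ hχ
    rw [← map_mul]
    exact lt_of_le_of_lt (hχ.le_gam _) hg
  rcases dim_cases M with ⟨ε, hε, hd⟩ | ⟨h3, hd⟩ | ⟨h2, h⟩
  · have hε0 : ε ≠ 0 := fun h => by rw [h] at hε; simp at hε
    have h2 : (2 : k) ≠ 0 := by
      rcases hodd with h | h
      · exact h
      · intro h2; exact h (by rw [hd, h2, zero_mul])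
    right; right
    induction M using Gr.ind with | _ V ρ
    rw [dim_cls] at hd
    have hε' : -ε * -ε = 1 := by rw [← hε]; ring
    obtain ⟨R, hR⟩ := star_mul_pp ρ h2 (ε := -ε)
      (by rw [hd, show 2 * ε + -ε = ε by ring]; exact hε0)
    refine ⟨pp ρ (-ε), cls ρ * R, ?_, by rw [mul_assoc, hR, mul_add]⟩
    have hdD : ((pp ρ (-ε)).dim : k) = 1 := by
      have := two_dim_pp ρ h2 hε'
      rw [hd] at this
      have h4 : (2 : k) * (((pp ρ (-ε)).dim : k) - 1) = 0 := by
        linear_combination this + 2 * hε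
      have h5 := (mul_eq_zero.1 h4).resolve_left h2
      linear_combination h5
    apply et_of_sl
    · rw [pp, dim_cls] at hdD
      rw [hdD]; exact one_ne_zero
    · intro χ hχ
      rw [mul_comm]
      exact thmE hχ.nn h2 hε ρ hd (hlt χ hχ)
  · right; left
    have hd0 : (M.dim : k) ≠ 0 := fun h0 => by rw [h0] at hd; simp at hd
    by_cases h2 : (2 : k) = 0
    · have hd1 : (M.dim : k) = 1 := by
        rcases cast_two_zero h2 M.dim with h | h
        · exact absurd h hd0
        · exact h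
      have key : ∀ χ : Gr k G →+* ℝ, Dom χ → χ M * χ M.star = 1 := fun χ hχ =>
        (thmC2 hχ.nn h2 M hd1).resolve_right (not_le.2 (hlt χ hχ))
      induction M using Gr.ind with | _ V ρ
      exact et_of_sl ρ hd0 key
    · induction M using Gr.ind with | _ V ρ
      rw [dim_cls] at hd hd0
      refine et_of_sl ρ hd0 fun χ hχ => ?_
      have h := (thmC5 hχ.nn h2 h3 hd ρ rfl).resolve_right (not_le.2 (hlt χ hχ))
      have hN := congrArg χ (one_add_sl ρ hd0)
      rw [cls_linHom, map_mul, map_add, map_one, h, add_zero, mul_comm] at hN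
      exact hN
  · left
    have hz : (M * M.star).Proj := proj_of_dom fun χ hχ => by
      rw [map_mul]
      exact (thmB hχ.nn h2 M h.1 h.2.1 h.2.2.1 h.2.2.2).resolve_right (not_le.2 (hlt χ hχ))
    obtain ⟨r, hr⟩ := zigzag M
    have h1 : (M + r).Proj := by
      rw [← hr, ← mul_assoc]; exact hz.mul _
    exact h1.left

end

end Pool.Agent.V7H61
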