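import Pool.Agent.V7H61.Sym

set_option autoImplicit false
set_option linter.unusedSectionVars false

/-!
Consequences of the square decompositions for nonnegative homomorphisms.
-/

open scoped TensorProduct

universe u v

namespace Pool.Agent.V7H61

lemma amgm {s l s' l' A B : ℝ} (hs : 0 ≤ s) (hl : 0 ≤ l) (hs' : 0 ≤ s') (hl' : 0 ≤ l')
    (hA : 0 ≤ A) (hB : 0 ≤ B) (h1 : A ^ 2 ≤ s * s') (h2 : B ^ 2 ≤ l * l') :
    (A + B) ^ 2 ≤ (s + l) * (s' + l') := by
  have h3 : (2 * (A * B)) ^ 2 ≤ (s * l' + l * s') ^ 2 := by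
    have h4 : A ^ 2 * B ^ 2 ≤ (s * s') * (l * l') :=
      mul_le_mul h1 h2 (sq_nonneg B) (mul_nonneg hs hs')
    nlinarith [sq_nonneg (s * l' - l * s')]
  have h5 : 2 * (A * B) ≤ s * l' + l * s' :=
    (sq_le_sq₀ (by positivity) (by positivity)).1 h3
  nlinarith

lemma realE {a b D D' P P' r r' : ℝ} (ha : 0 ≤ a) (hb : 0 ≤ b) (hD : 0 ≤ D) (hD' : 0 ≤ D')
    (hP : 0 ≤ P) (hP' : 0 ≤ P') (hr : 0 ≤ r) (hr' : 0 ≤ r') (hab1 : 1 ≤ a * b)
    (hlt : a * b < 4) (e1 : a * a = P + D) (e2 : b * b = P' + D') (e5 : b * D = a + r)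
    (e6 : a * D' = b + r') (hB : 4 ≤ r * r')
    (hPP : (a * b ≤ P * P') ∨ ((a * b ≤ P * P' + 1) ∧ (P * P' = 0 ∨ 4 ≤ P * P'))) : False := by
  have hab : 0 ≤ a * b := mul_nonneg ha hb
  obtain ⟨x, hx⟩ : ∃ x, x = Real.sqrt (a * b) := ⟨_, rfl⟩
  have hx0 : 0 ≤ x := hx ▸ Real.sqrt_nonneg _
  have hx2 : x ^ 2 = a * b := by rw [hx]; exact Real.sq_sqrt hab
  have hx1 : 1 ≤ x := by
    by_contra h; push Not at h; nlinarith
  have hxlt : x < 2 := by
    by_contra h; push Not at h; nlinarith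
  obtain ⟨y, hy⟩ : ∃ y, y = Real.sqrt (D * D') := ⟨_, rfl⟩
  have hy0 : 0 ≤ y := hy ▸ Real.sqrt_nonneg _
  have hy2 : y ^ 2 = D * D' := by rw [hy]; exact Real.sq_sqrt (mul_nonneg hD hD')
  have h5 := amgm (s := a) (l := r) (s' := b) (l' := r') (A := x) (B := 2) ha hr hb hr' hx0
    (by norm_num) (by rw [hx2]) (by linarith)
  rw [← e5, ← e6] at h5
  have h6 : (x + 2) ^ 2 ≤ (x * y) ^ 2 := by
    rw [mul_pow, hx2, hy2]; linarith
  have h7 : x + 2 ≤ x * y := (sq_le_sq₀ (by positivity) (by positivity)).1 h6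
  obtain ⟨z, hz⟩ : ∃ z, z = Real.sqrt (P * P') := ⟨_, rfl⟩
  have hz0 : 0 ≤ z := hz ▸ Real.sqrt_nonneg _
  have hz2 : z ^ 2 = P * P' := by rw [hz]; exact Real.sq_sqrt (mul_nonneg hP hP')
  have h8 := amgm (s := P) (l := D) (s' := P') (l' := D') (A := z) (B := y) hP hD hP' hD' hz0
    hy0 (by rw [hz2]) (by rw [hy2])
  rw [← e1, ← e2] at h8
  have h9 : (z + y) ^ 2 ≤ (x ^ 2) ^ 2 := by rw [hx2]; linarith
  have h10' : z + y ≤ x ^ 2 := (sq_le_sq₀ (by positivity) (by positivity)).1 h9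
  have h10 : x * (z + y) ≤ x * x ^ 2 := mul_le_mul_of_nonneg_left h10' hx0
  have h11 : x * z + (x + 2) ≤ x ^ 3 := by
    have : x ^ 3 = x * x ^ 2 := by ring
    rw [this]; linarith
  rcases hPP with h12 | ⟨h12, h13 | h13⟩
  · have h14 : x ≤ z := by
      rw [hx, hz]; exact Real.sqrt_le_sqrt h12
    have h15 : x * x ≤ x * z := mul_le_mul_of_nonneg_left h14 hx0
    have h16 : 0 < (2 - x) * (x ^ 2 + x + 1) := mul_pos (by linarith) (by positivity)
    have h17 : (2 - x) * (x ^ 2 + x + 1) = x * x + (x + 2) - x ^ 3 := by ring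
    linarith
  · have h14 : z = 0 := by rw [hz, h13, Real.sqrt_zero]
    have h16 : x ^ 2 ≤ 1 := by rw [hx2]; linarith
    have h17 : x ≤ 1 := by nlinarith
    have h18 : x = 1 := le_antisymm h17 hx1
    rw [h14, h18] at h11
    norm_num at h11
  · have h14 : 2 ≤ z := by
      rw [hz]; apply Real.le_sqrt_of_sq_le; linarith
    have h15 : x * 2 ≤ x * z := mul_le_mul_of_nonneg_left h14 hx0
    have h16 : 0 < (2 - x) * (x + 1) ^ 2 := mul_pos (by linarith) (by positivity)
    have h17 : (2 - x) * (x + 1) ^ 2 = x * 2 + (x + 2) - x ^ 3 := by ring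
    linarith

section

variable {k : Type u} {G : Type v} [Field k] [Group G] {χ : Gr k G →+* ℝ}

lemma thmB (hχ : NN χ) (h2 : (2 : k) ≠ 0) (x : Gr k G)
    (hd1 : (x.dim : k) ≠ 1) (hd2 : (x.dim : k) ≠ -1) (hd3 : (x.dim : k) ≠ 2)
    (hd4 : (x.dim : k) ≠ -2) : χ x * χ x.star = 0 ∨ 4 ≤ χ x * χ x.star := by
  induction x using Gr.ind with | _ V ρ
  rw [dim_cls] at hd1 hd2 hd3 hd4
  have hS := sq_eq ρ h2 (ε := 1) (by ring)
  have hS' := congrArg Gr.star hS
  rw [star_mul, star_add] at hS'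
  obtain ⟨R1, hR1⟩ := norm_pp_full ρ h2 (ε := 1) (by ring)
    (fun h => hd4 (by linear_combination h)) (fun h => hd2 (by linear_combination h))
  obtain ⟨R2, hR2⟩ := norm_pp_full ρ h2 (ε := -1) (by ring)
    (fun h => hd3 (by linear_combination h)) (fun h => hd1 (by linear_combination h))
  have e1 := congrArg χ hS
  have e2 := congrArg χ hS'
  have e3 := hχ.mono hR1
  have e4 := hχ.mono hR2
  simp only [map_mul, map_add] at e1 e2 e3 e4
  have ha := hχ (cls ρ)
  have hb := hχ (cls ρ).star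
  set a := χ (cls ρ)
  set b := χ (cls ρ).star
  have hab : 0 ≤ a * b := mul_nonneg ha hb
  have h3 := amgm (s := χ (pp ρ 1)) (l := χ (pp ρ (-1))) (s' := χ (pp ρ 1).star)
    (l' := χ (pp ρ (-1)).star) (A := Real.sqrt (a * b)) (B := Real.sqrt (a * b))
    (hχ _) (hχ _) (hχ _) (hχ _) (Real.sqrt_nonneg _) (Real.sqrt_nonneg _)
    (by rw [Real.sq_sqrt hab]; linarith) (by rw [Real.sq_sqrt hab]; linarith)
  rw [← e1, ← e2] at h3
  have h4 : (Real.sqrt (a * b) + Real.sqrt (a * b)) ^ 2 = 4 * (a * b) := by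
    have := Real.sq_sqrt hab
    linear_combination 4 * this
  rw [h4] at h3
  rcases eq_or_lt_of_le hab with h | h
  · left; exact h.symm
  · right
    have h5 : 4 * (a * b) ≤ (a * b) * (a * b) := by linarith
    exact le_of_mul_le_mul_right h5 h

/-- dimension one: `sl` is killed or the norm is at least four -/
lemma thmC5 (hχ : NN χ) (h2 : (2 : k) ≠ 0) (h3 : (3 : k) ≠ 0) {ε : k} (hε : ε * ε = 1)
    {V : Type u} [AddCommGroup V] [Module k V] [FiniteDimensional k V]
    (ρ : Representation k G V) (hd : (Module.finrank k V : k) = ε) :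
    χ (sl ρ) = 0 ∨ 4 ≤ χ (cls ρ) * χ (cls ρ).star := by
  have hε0 : ε ≠ 0 := fun h => by rw [h] at hε; simp at hε
  have hε' : -ε * -ε = 1 := by rw [← hε]; ring
  have hd0 : (Module.finrank k V : k) ≠ 0 := by rw [hd]; exact hε0
  have hN := one_add_sl ρ hd0
  rw [cls_linHom] at hN
  have hS := sq_eq ρ h2 hε
  have hS' := congrArg Gr.star hS
  rw [star_mul, star_add] at hS'
  obtain ⟨R1, hR1⟩ := norm_pp_full ρ h2 hε
    (by rw [hd, show ε + 2 * ε = 3 * ε by ring]; exact mul_ne_zero h3 hε0)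
    (by rw [hd, show ε + ε = 2 * ε by ring]; exact mul_ne_zero h2 hε0)
  obtain ⟨R2, hR2⟩ := norm_pp_sl ρ h2 hε'
    (by rw [hd, show ε + 2 * -ε = -ε by ring]; exact neg_ne_zero.2 hε0) hd0
  have hdL : ((pp ρ (-ε)).dim : k) = 0 := by
    have := two_dim_pp ρ h2 hε'
    rw [hd, add_neg_cancel, mul_zero] at this
    exact (mul_eq_zero.1 this).resolve_left h2
  have hL := thmB hχ h2 (pp ρ (-ε)) (by rw [hdL]; exact zero_ne_one)
    (by rw [hdL]; intro h; exact one_ne_zero (α := k) (by linear_combination h))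
    (by rw [hdL]; exact h2.symm) (by rw [hdL]; intro h; exact h2 (by linear_combination h))
  have e0 := congrArg χ hN
  have e1 := congrArg χ hS
  have e2 := congrArg χ hS'
  have e3 := hχ.mono hR1
  have e4 := hχ.mono hR2
  simp only [map_mul, map_add, map_one] at e0 e1 e2 e3 e4
  have ha := hχ (cls ρ)
  have hb := hχ (cls ρ).star
  set a := χ (cls ρ)
  set b := χ (cls ρ).star
  have hab : 0 ≤ a * b := mul_nonneg ha hb
  rcases hL with hL | hL
  · left
    have := hχ (sl ρ)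
    linarith
  · right
    have h5 := amgm (s := χ (pp ρ ε)) (l := χ (pp ρ (-ε))) (s' := χ (pp ρ ε).star)
      (l' := χ (pp ρ (-ε)).star) (A := Real.sqrt (a * b)) (B := 2)
      (hχ _) (hχ _) (hχ _) (hχ _) (Real.sqrt_nonneg _) (by norm_num)
      (by rw [Real.sq_sqrt hab]; linarith) (by linarith)
    rw [← e1, ← e2] at h5
    set x := Real.sqrt (a * b) with hx
    have hx0 : 0 ≤ x := Real.sqrt_nonneg _
    have hx2 : x ^ 2 = a * b := Real.sq_sqrt hab
    have h6 : (x + 2) ^ 2 ≤ (x ^ 2) ^ 2 := by rw [hx2]; linarith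
    have h7 : x + 2 ≤ x ^ 2 := (sq_le_sq₀ (by positivity) (by positivity)).1 h6
    have h8 : 2 ≤ x := by
      by_contra hlt
      push Not at hlt
      nlinarith
    nlinarith

/-- the main step for dimension plus or minus two in odd characteristic -/
lemma thmE (hχ : NN χ) (h2 : (2 : k) ≠ 0) {ε : k} (hε : ε * ε = 1)
    {V : Type u} [AddCommGroup V] [Module k V] [FiniteDimensional k V]
    (ρ : Representation k G V) (hd : (Module.finrank k V : k) = 2 * ε)
    (hlt : χ (cls ρ) * χ (cls ρ).star < 4) :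
    χ (pp ρ (-ε)).star * χ (pp ρ (-ε)) = 1 := by
  have hε0 : ε ≠ 0 := fun h => by rw [h] at hε; simp at hε
  have hε' : -ε * -ε = 1 := by rw [← hε]; ring
  have h10 : (1 : k) ≠ 0 := one_ne_zero
  have hd0 : (Module.finrank k V : k) ≠ 0 := by rw [hd]; exact mul_ne_zero h2 hε0
  have hN := one_add_sl ρ hd0
  rw [cls_linHom] at hN
  have hS := sq_eq ρ h2 hε
  have hS' := congrArg Gr.star hS
  rw [star_mul, star_add] at hS'
  obtain ⟨R, hR⟩ := star_mul_pp ρ h2 (ε := -ε)
    (by rw [hd, show 2 * ε + -ε = ε by ring]; exact hε0)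
  have hR' := congrArg Gr.star hR
  rw [star_mul, star_add, star_star] at hR'
  have hdD : ((pp ρ (-ε)).dim : k) = 1 := by
    have := two_dim_pp ρ h2 hε'
    rw [hd] at this
    have h4 : (2 : k) * (((pp ρ (-ε)).dim : k) - 1) = 0 := by
      linear_combination this + 2 * hε
    have h5 := (mul_eq_zero.1 h4).resolve_left h2
    linear_combination h5
  have hdR : (R.dim : k) = 0 := by
    have := congrArg (fun y : Gr k G => (y.dim : k)) hR
    simp only [dim_mul, dim_add, dim_star, Nat.cast_mul, Nat.cast_add, dim_cls, hdD] at this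
    linear_combination -this
  have z1 : (0 : k) ≠ 1 := zero_ne_one
  have z2 : (0 : k) ≠ -1 := fun h => h10 (by linear_combination h)
  have z3 : (0 : k) ≠ 2 := h2.symm
  have z4 : (0 : k) ≠ -2 := fun h => h2 (by linear_combination h)
  have hB := thmB hχ h2 R (by rw [hdR]; exact z1) (by rw [hdR]; exact z2)
    (by rw [hdR]; exact z3) (by rw [hdR]; exact z4)
  have e0 := congrArg χ hN
  have e1 := congrArg χ hS
  have e2 := congrArg χ hS'
  have e5 := congrArg χ hR
  have e6 := congrArg χ hR'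
  simp only [map_mul, map_add, map_one] at e0 e1 e2 e5 e6
  have ha := hχ (cls ρ)
  have hb := hχ (cls ρ).star
  have hD := hχ (pp ρ (-ε))
  have hD' := hχ (pp ρ (-ε)).star
  have hP := hχ (pp ρ ε)
  have hP' := hχ (pp ρ ε).star
  have hr := hχ R
  have hr' := hχ R.star
  have hsl := hχ (sl ρ)
  have hRz : χ R * χ R.star = 0 → χ R = 0 ∧ χ R.star = 0 := by
    intro h
    refine ⟨hχ.zero_of_norm h, hχ.zero_of_norm ?_⟩
    rw [star_star, mul_comm]; exact h
  -- lower bound for the other part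
  have hPP : (χ (cls ρ) * χ (cls ρ).star ≤ χ (pp ρ ε) * χ (pp ρ ε).star) ∨
      ((χ (cls ρ) * χ (cls ρ).star ≤ χ (pp ρ ε) * χ (pp ρ ε).star + 1) ∧
        (χ (pp ρ ε) * χ (pp ρ ε).star = 0 ∨ 4 ≤ χ (pp ρ ε) * χ (pp ρ ε).star)) := by
    by_cases h3 : (3 : k) = 0
    · right
      obtain ⟨R2, hR2⟩ := norm_pp_sl ρ h2 hε
        (by rw [hd, show 2 * ε + 2 * ε = 2 * 2 * ε by ring]
            exact mul_ne_zero (mul_ne_zero h2 h2) hε0) hd0
      have e4 := hχ.mono hR2
      rw [map_mul] at e4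
      have hdP : ((pp ρ ε).dim : k) = 0 := by
        have := two_dim_pp ρ h2 hε
        rw [hd] at this
        have h4 : (2 : k) * ((pp ρ ε).dim : k) = 0 := by
          linear_combination this + 2 * (ε * ε) * h3
        exact (mul_eq_zero.1 h4).resolve_left h2
      refine ⟨by linarith, ?_⟩
      exact thmB hχ h2 _ (by rw [hdP]; exact z1) (by rw [hdP]; exact z2)
        (by rw [hdP]; exact z3) (by rw [hdP]; exact z4)
    · left
      obtain ⟨R1, hR1⟩ := norm_pp_full ρ h2 hε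
        (by rw [hd, show 2 * ε + 2 * ε = 2 * 2 * ε by ring]
            exact mul_ne_zero (mul_ne_zero h2 h2) hε0)
        (by rw [hd, show 2 * ε + ε = 3 * ε by ring]; exact mul_ne_zero h3 hε0)
      have e3 := hχ.mono hR1
      simp only [map_mul] at e3
      linarith
  set a := χ (cls ρ)
  set b := χ (cls ρ).star
  set D := χ (pp ρ (-ε))
  set D' := χ (pp ρ (-ε)).star
  set P := χ (pp ρ ε)
  set P' := χ (pp ρ ε).star
  set r := χ R
  set r' := χ R.star
  have hab : 0 ≤ a * b := mul_nonneg ha hb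
  have hab1 : 1 ≤ a * b := by linarith
  rcases hB with hB | hB
  · obtain ⟨h5, h6⟩ := hRz hB
    rw [h5, add_zero] at e5
    rw [h6, add_zero] at e6
    have h7 : (a * b) * (D' * D - 1) = 0 := by
      have : (b * D) * (a * D') = a * b := by rw [e5, e6]
      linear_combination this
    have h8 := (mul_eq_zero.1 h7).resolve_left (by linarith)
    linarith
  · exact absurd (realE ha hb hD hD' hP hP' hr hr' hab1 hlt e1 e2 e5 e6 hB hPP) (fun h => h)

end

end Pool.Agent.V7H61
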