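import Pool.Agent.V7H61.Homs

set_option autoImplicit false
set_option linter.unusedSectionVars false

/-!
Symmetric and alternating squares.
-/

open scoped TensorProduct

universe u v

namespace Pool.Agent.V7H61

section

variable {k : Type u} {G : Type v} [Field k] [Group G]
variable {V W U X : Type u} [AddCommGroup V] [Module k V] [AddCommGroup W] [Module k W]
  [AddCommGroup U] [Module k U]
  [FiniteDimensional k V] [FiniteDimensional k W] [FiniteDimensional k U]

/-- a two-term decomposition -/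
lemma cls_of_two {ρ : Representation k G V} {σ : Representation k G W} {τ : Representation k G U}
    {i : V →ₗ[k] W} {j : U →ₗ[k] W} {a : W →ₗ[k] V} {b : W →ₗ[k] U}
    (hi : Eqv ρ σ i) (hj : Eqv τ σ j)
    (hai : ∀ v, a (i v) = v) (hbj : ∀ v, b (j v) = v) (haj : ∀ v, a (j v) = 0)
    (hbi : ∀ v, b (i v) = 0) (hs : ∀ w, i (a w) + j (b w) = w) :
    cls σ = cls ρ + cls τ := by
  rw [← cls_add]
  refine (cls_bij (ρ := ρ.prod τ) (σ := σ) (i.coprod j) ?_ ⟨?_, ?_⟩).symm
  · rintro g ⟨v, z⟩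
    change i (ρ g v) + j (τ g z) = σ g (i v + j z)
    rw [hi, hj, map_add]
  · rintro ⟨v, z⟩ ⟨v', z'⟩ h
    have h0 : i v + j z = i v' + j z' := h
    have h1 := congrArg a h0
    have h2 := congrArg b h0
    simp only [map_add, hai, hbj, haj, hbi, add_zero, zero_add] at h1 h2
    rw [h1, h2]
  · intro w
    exact ⟨(a w, b w), hs w⟩

/-- the swap -/
noncomputable def tau (k : Type u) (V : Type u) [Field k] [AddCommGroup V] [Module k V] :
    V ⊗[k] V →ₗ[k] V ⊗[k] V := (TensorProduct.comm k V V).toLinearMap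

@[simp] lemma tau_tmul (v w : V) : tau k V (v ⊗ₜ[k] w) = w ⊗ₜ[k] v := rfl

lemma tau_tau (x : V ⊗[k] V) : tau k V (tau k V x) = x := by
  induction x using TensorProduct.induction_on with
  | zero => simp
  | tmul a b => simp
  | add x y hx hy => simp only [map_add, hx, hy]

/-- the (anti)symmetriser -/
noncomputable def ee (k : Type u) (V : Type u) [Field k] [AddCommGroup V] [Module k V] (ε : k) :
    V ⊗[k] V →ₗ[k] V ⊗[k] V := (2 : k)⁻¹ • (LinearMap.id + ε • tau k V)

lemma ee_apply (ε : k) (x : V ⊗[k] V) : ee k V ε x = (2 : k)⁻¹ • (x + ε • tau k V x) := rfl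

lemma ee_idem (h2 : (2 : k) ≠ 0) {ε : k} (hε : ε * ε = 1) (x : V ⊗[k] V) :
    ee k V ε (ee k V ε x) = ee k V ε x := by
  have h2' : (2 : k) * (2 : k)⁻¹ = 1 := mul_inv_cancel₀ h2
  simp only [ee_apply, map_smul, map_add, tau_tau]
  match_scalars
  · linear_combination ((2 : k)⁻¹ * (2 : k)⁻¹) * hε + (2 : k)⁻¹ * h2'
  · linear_combination (2 : k)⁻¹ * ε * h2'

lemma ee_neg {ε : k} (hε : ε * ε = 1) (x : V ⊗[k] V) : ee k V (-ε) (ee k V ε x) = 0 := by
  simp only [ee_apply, map_smul, map_add, tau_tau]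
  match_scalars
  · linear_combination -((2 : k)⁻¹ * (2 : k)⁻¹) * hε
  · ring

lemma ee_add (h2 : (2 : k) ≠ 0) {ε : k} (x : V ⊗[k] V) : ee k V ε x + ee k V (-ε) x = x := by
  have h2' : (2 : k) * (2 : k)⁻¹ = 1 := mul_inv_cancel₀ h2
  simp only [ee_apply]
  match_scalars
  · linear_combination h2'
  · ring

lemma tau_eqv (ρ : Representation k G V) : Eqv (ρ.tprod ρ) (ρ.tprod ρ) (tau k V) := by
  intro g x
  induction x using TensorProduct.induction_on with
  | zero => simp
  | tmul a b => rfl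
  | add x y hx hy => simp only [map_add, hx, hy]

lemma ee_eqv (ρ : Representation k G V) (ε : k) : Eqv (ρ.tprod ρ) (ρ.tprod ρ) (ee k V ε) :=
  ((Eqv.id _).add ((tau_eqv ρ).smul ε)).smul _

/-- the symmetric (`ε = 1`) or alternating (`ε = -1`) square -/
noncomputable def pp (ρ : Representation k G V) (ε : k) : Gr k G := cls (rangeRep (ee_eqv ρ ε))

/-- projection to the square -/
noncomputable def pr (k : Type u) (V : Type u) [Field k] [AddCommGroup V] [Module k V] (ε : k) :
    V ⊗[k] V →ₗ[k] LinearMap.range (ee k V ε) := (ee k V ε).rangeRestrict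

/-- inclusion of the square -/
noncomputable def inc (k : Type u) (V : Type u) [Field k] [AddCommGroup V] [Module k V] (ε : k) :
    LinearMap.range (ee k V ε) →ₗ[k] V ⊗[k] V := (LinearMap.range (ee k V ε)).subtype

lemma pr_eqv (ρ : Representation k G V) (ε : k) :
    Eqv (ρ.tprod ρ) (rangeRep (ee_eqv ρ ε)) (pr k V ε) :=
  fun g x => Subtype.ext (ee_eqv ρ ε g x)

lemma inc_eqv (ρ : Representation k G V) (ε : k) :
    Eqv (rangeRep (ee_eqv ρ ε)) (ρ.tprod ρ) (inc k V ε) := fun _ _ => rfl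

lemma inc_pr (ε : k) (x : V ⊗[k] V) : inc k V ε (pr k V ε x) = ee k V ε x := rfl

lemma ee_inc (h2 : (2 : k) ≠ 0) {ε : k} (hε : ε * ε = 1) (y : LinearMap.range (ee k V ε)) :
    ee k V ε (inc k V ε y) = inc k V ε y := by
  obtain ⟨y, x, rfl⟩ := y
  exact ee_idem h2 hε x

lemma pr_inc (h2 : (2 : k) ≠ 0) {ε : k} (hε : ε * ε = 1) (y : LinearMap.range (ee k V ε)) :
    pr k V ε (inc k V ε y) = y := Subtype.ext (ee_inc h2 hε y)

lemma sq_eq (ρ : Representation k G V) (h2 : (2 : k) ≠ 0) {ε : k} (hε : ε * ε = 1) :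
    cls ρ * cls ρ = pp ρ ε + pp ρ (-ε) := by
  have hε' : -ε * -ε = 1 := by rw [← hε]; ring
  rw [← cls_mul, pp, pp]
  refine cls_of_two (i := inc k V ε) (j := inc k V (-ε)) (a := pr k V ε) (b := pr k V (-ε))
    (inc_eqv ρ ε) (inc_eqv ρ (-ε)) (pr_inc h2 hε) (pr_inc h2 hε') ?_ ?_ ?_
  · rintro ⟨y, x, rfl⟩
    apply Subtype.ext
    have := ee_neg hε' x
    rw [neg_neg] at this
    exact this
  · rintro ⟨y, x, rfl⟩
    apply Subtype.ext
    exact ee_neg hε x
  · intro w
    rw [inc_pr, inc_pr]; exact ee_add h2 w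

lemma trace_tau (a : V →ₗ[k] V) (b : V →ₗ[k] V) :
    LinearMap.trace k (V ⊗[k] V) (tau k V ∘ₗ TensorProduct.map a b) =
      LinearMap.trace k V (a ∘ₗ b) := trace_swap_map a b

lemma two_dim_pp (ρ : Representation k G V) (h2 : (2 : k) ≠ 0) {ε : k} (hε : ε * ε = 1) :
    2 * ((pp ρ ε).dim : k) =
      (Module.finrank k V : k) * ((Module.finrank k V : k) + ε) := by
  have h1 : LinearMap.trace k (V ⊗[k] V) (ee k V ε) = ((pp ρ ε).dim : k) := by
    have e1 : ee k V ε = inc k V ε ∘ₗ pr k V ε := rfl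
    have e2 : pr k V ε ∘ₗ inc k V ε = LinearMap.id := LinearMap.ext (pr_inc h2 hε)
    rw [e1, LinearMap.trace_comp_comm', e2, LinearMap.trace_id]
    rfl
  have h3 : LinearMap.trace k (V ⊗[k] V) (tau k V) = (Module.finrank k V : k) := by
    have e1 : tau k V = tau k V ∘ₗ TensorProduct.map LinearMap.id LinearMap.id := by
      rw [TensorProduct.map_id]; rfl
    rw [e1, trace_tau]
    simp
  rw [← h1]
  unfold ee
  rw [map_smul, map_add, map_smul, LinearMap.trace_id, Module.finrank_tensorProduct, h3]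
  simp only [smul_eq_mul, Nat.cast_mul]
  field_simp

/-- the action of endomorphisms on the tensor square -/
noncomputable def act (k : Type u) (V : Type u) [Field k] [AddCommGroup V] [Module k V] :
    (V →ₗ[k] V) →ₗ[k] (V ⊗[k] V →ₗ[k] V ⊗[k] V) :=
  LinearMap.rTensorHom V + LinearMap.lTensorHom V

lemma act_apply (a : V →ₗ[k] V) : act k V a =
    TensorProduct.map a LinearMap.id + TensorProduct.map LinearMap.id a := rfl

lemma act_tmul (a : V →ₗ[k] V) (v w : V) : act k V a (v ⊗ₜ[k] w) = a v ⊗ₜ[k] w + v ⊗ₜ[k] a w := rfl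

lemma act_tau (a : V →ₗ[k] V) (x : V ⊗[k] V) : act k V a (tau k V x) = tau k V (act k V a x) := by
  induction x using TensorProduct.induction_on with
  | zero => simp
  | tmul v w => simp only [tau_tmul, act_tmul, map_add]; rw [add_comm]
  | add x y hx hy => simp only [map_add, hx, hy]

lemma act_ee (a : V →ₗ[k] V) (ε : k) (x : V ⊗[k] V) :
    act k V a (ee k V ε x) = ee k V ε (act k V a x) := by
  simp only [ee_apply, map_smul, map_add, act_tau]

/-- the traces -/
lemma trace_act (h2 : (2 : k) ≠ 0) {ε : k} (hε : ε * ε = 1) (a b : V →ₗ[k] V) :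
    LinearMap.trace k _ ((pr k V ε ∘ₗ act k V a ∘ₗ inc k V ε) ∘ₗ
      (pr k V ε ∘ₗ act k V b ∘ₗ inc k V ε)) =
    ((Module.finrank k V : k) + 2 * ε) * LinearMap.trace k V (a ∘ₗ b) +
      LinearMap.trace k V a * LinearMap.trace k V b := by
  have h1 : (pr k V ε ∘ₗ act k V a ∘ₗ inc k V ε) ∘ₗ (pr k V ε ∘ₗ act k V b ∘ₗ inc k V ε) =
      pr k V ε ∘ₗ ((act k V a ∘ₗ act k V b) ∘ₗ inc k V ε) := by
    apply LinearMap.ext
    intro y
    simp only [LinearMap.comp_apply, inc_pr]
    rw [← act_ee, ee_inc h2 hε]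
  have h3 : ((act k V a ∘ₗ act k V b) ∘ₗ inc k V ε) ∘ₗ pr k V ε =
      (2 : k)⁻¹ • (act k V a ∘ₗ act k V b + ε • (tau k V ∘ₗ (act k V a ∘ₗ act k V b))) := by
    apply LinearMap.ext
    intro x
    simp only [LinearMap.comp_apply, inc_pr, LinearMap.smul_apply, LinearMap.add_apply]
    rw [act_ee, act_ee, ee_apply]
  have h4 : act k V a ∘ₗ act k V b = TensorProduct.map (a ∘ₗ b) LinearMap.id +
      TensorProduct.map a b + (TensorProduct.map b a + TensorProduct.map LinearMap.id (a ∘ₗ b)) := by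
    apply TensorProduct.ext'
    intro v w
    simp only [LinearMap.comp_apply, act_tmul, map_add, LinearMap.add_apply,
      TensorProduct.map_tmul, LinearMap.id_apply]
    abel
  rw [h1, LinearMap.trace_comp_comm', h3, h4]
  simp only [LinearMap.comp_add, map_smul, map_add, LinearMap.trace_tensorProduct', trace_tau,
    LinearMap.trace_id, LinearMap.comp_id, LinearMap.id_comp, smul_eq_mul]
  rw [LinearMap.trace_comp_comm' b a]
  field_simp
  ring

/-- action of endomorphisms on the square `pp` -/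
noncomputable def iP (k : Type u) (V : Type u) [Field k] [AddCommGroup V] [Module k V] (ε : k) :
    (V →ₗ[k] V) →ₗ[k] (LinearMap.range (ee k V ε) →ₗ[k] LinearMap.range (ee k V ε)) where
  toFun a := pr k V ε ∘ₗ act k V a ∘ₗ inc k V ε
  map_add' a b := by
    rw [map_add, LinearMap.add_comp, LinearMap.comp_add]
  map_smul' c a := by
    rw [map_smul, LinearMap.smul_comp, LinearMap.comp_smul]; rfl

lemma act_linHom (ρ : Representation k G V) (g : G) (a : V →ₗ[k] V) (x : V ⊗[k] V) :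
    act k V (ρ.linHom ρ g a) x = (ρ.tprod ρ) g (act k V a ((ρ.tprod ρ) g⁻¹ x)) := by
  induction x using TensorProduct.induction_on with
  | zero => simp
  | tmul v w =>
    have e1 : (ρ.tprod ρ) g⁻¹ (v ⊗ₜ[k] w) = ρ g⁻¹ v ⊗ₜ[k] ρ g⁻¹ w := rfl
    have e2 : ∀ x y : V, (ρ.tprod ρ) g (x ⊗ₜ[k] y) = ρ g x ⊗ₜ[k] ρ g y := fun _ _ => rfl
    rw [e1, act_tmul, act_tmul, map_add, e2, e2, linHom_apply', linHom_apply', rho_inv',
      rho_inv']
  | add x y hx hy => simp only [map_add, hx, hy]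

lemma iP_eqv (ρ : Representation k G V) (ε : k) :
    Eqv (V := V →ₗ[k] V)
      (W := LinearMap.range (ee k V ε) →ₗ[k] LinearMap.range (ee k V ε))
      (ρ.linHom ρ) ((rangeRep (ee_eqv ρ ε)).linHom (rangeRep (ee_eqv ρ ε))) (iP k V ε) := by
  intro g a
  apply LinearMap.ext
  intro y
  rw [linHom_apply']
  change pr k V ε (act k V (ρ.linHom ρ g a) (inc k V ε y)) =
    rangeRep (ee_eqv ρ ε) g (pr k V ε (act k V a (inc k V ε (rangeRep (ee_eqv ρ ε) g⁻¹ y))))
  rw [act_linHom, pr_eqv, inc_eqv]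

/-- the trace pairing -/
noncomputable def bP (k : Type u) (V : Type u) [Field k] [AddCommGroup V] [Module k V]
    (A : Type u) [AddCommGroup A] [Module k A] (K : Type u) [AddCommGroup K] [Module k K]
    (κ : K →ₗ[k] (A →ₗ[k] V)) :
    (V →ₗ[k] A) →ₗ[k] Module.Dual k K :=
  LinearMap.mk₂ k (fun φ b => LinearMap.trace k V (κ b ∘ₗ φ))
    (fun a b c => by rw [LinearMap.comp_add, map_add])
    (fun c a b => by rw [LinearMap.comp_smul, map_smul])
    (fun a b c => by rw [map_add, LinearMap.add_comp, map_add])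
    (fun c a b => by rw [map_smul, LinearMap.smul_comp, map_smul])

lemma bP_eqv {A K : Type u} [AddCommGroup A] [Module k A] [AddCommGroup K] [Module k K]
    [FiniteDimensional k A] {ρ : Representation k G V} {α : Representation k G A}
    {υ : Representation k G K} {κ : K →ₗ[k] (A →ₗ[k] V)} (hκ : Eqv υ (α.linHom ρ) κ) :
    Eqv (ρ.linHom α) υ.dual (bP k V A K κ) := by
  intro g φ
  apply LinearMap.ext
  intro b
  change LinearMap.trace k V (κ b ∘ₗ (ρ.linHom α g φ)) = LinearMap.trace k V (κ (υ g⁻¹ b) ∘ₗ φ)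
  rw [hκ]
  rw [← trace_conj_rho ρ g (α.linHom ρ g⁻¹ (κ b) ∘ₗ φ)]
  congr 1
  apply LinearMap.ext
  intro v
  simp only [LinearMap.comp_apply, linHom_apply', inv_inv, rho_inv']

/-- general principle: nondegenerate trace pairing gives a summand -/
lemma summand_of_pairing {A K L : Type u} [AddCommGroup A] [Module k A] [AddCommGroup K]
    [Module k K] [AddCommGroup L] [Module k L]
    [FiniteDimensional k A] [FiniteDimensional k K] [FiniteDimensional k L]
    {ρ : Representation k G V} {α : Representation k G A}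
    {υ : Representation k G K} {ω : Representation k G L}
    {κ : K →ₗ[k] (A →ₗ[k] V)} (hκ : Eqv υ (α.linHom ρ) κ)
    {j : L →ₗ[k] (V →ₗ[k] A)} (hj : Eqv ω (ρ.linHom α) j)
    (hdim : Module.finrank k L = Module.finrank k K)
    (hnd : ∀ l : L, (∀ b : K, LinearMap.trace k V (κ b ∘ₗ j l) = 0) → l = 0) :
    ∃ R, (cls ρ).star * cls α = cls ω + R := by
  rw [← cls_linHom]
  have hinj : Function.Injective (bP k V A K κ ∘ₗ j) := by
    rw [← LinearMap.ker_eq_bot, LinearMap.ker_eq_bot']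
    intro l hl
    exact hnd l fun b => LinearMap.congr_fun hl b
  have hd : Module.finrank k L = Module.finrank k (Module.Dual k K) := by
    rw [hdim]; exact Subspace.dual_finrank_eq.symm
  refine ⟨_, cls_of_bij hj (bP_eqv hκ) ⟨hinj, ?_⟩⟩
  exact (LinearMap.injective_iff_surjective_of_finrank_eq_finrank hd).1 hinj

/-- `End V` or the trace zero part is a summand of `End P` -/
lemma norm_pp {K : Type u} [AddCommGroup K] [Module k K] [FiniteDimensional k K]
    (ρ : Representation k G V) (h2 : (2 : k) ≠ 0) {ε : k} (hε : ε * ε = 1)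
    {υ : Representation k G K} {κ : K →ₗ[k] (V →ₗ[k] V)} (hκ : Eqv υ (ρ.linHom ρ) κ)
    (hnd : ∀ a : K, (∀ b : K, ((Module.finrank k V : k) + 2 * ε) *
      LinearMap.trace k V (κ b ∘ₗ κ a) + LinearMap.trace k V (κ b) * LinearMap.trace k V (κ a) = 0)
      → a = 0) : ∃ R, (pp ρ ε).star * pp ρ ε = cls υ + R := by
  have h := (iP_eqv ρ ε).comp hκ
  unfold pp
  refine summand_of_pairing (κ := iP k V ε ∘ₗ κ) (j := iP k V ε ∘ₗ κ) h h rfl ?_
  intro l hl
  apply hnd
  intro b
  rw [← trace_act h2 hε]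
  exact hl b

lemma norm_pp_full (ρ : Representation k G V) (h2 : (2 : k) ≠ 0) {ε : k} (hε : ε * ε = 1)
    (hd : (Module.finrank k V : k) + 2 * ε ≠ 0) (hd' : (Module.finrank k V : k) + ε ≠ 0) :
    ∃ R, (pp ρ ε).star * pp ρ ε = (cls ρ).star * cls ρ + R := by
  rw [← cls_linHom]
  refine norm_pp ρ h2 hε (Eqv.id _) ?_
  intro a ha
  set d : k := (Module.finrank k V : k) with hdd
  have h3 : (d + 2 * ε) • a + (LinearMap.trace k V a) • (LinearMap.id : V →ₗ[k] V) = 0 := by
    apply trace_nondeg'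
    intro b
    have := ha b
    simp only [LinearMap.id_apply] at this
    rw [LinearMap.comp_add, LinearMap.comp_smul, LinearMap.comp_smul, LinearMap.comp_id, map_add,
      map_smul, map_smul, smul_eq_mul, smul_eq_mul, mul_comm (LinearMap.trace k V a)]
    exact this
  have h4 := congrArg (LinearMap.trace k V) h3
  rw [map_add, map_smul, map_smul, LinearMap.trace_id, map_zero, smul_eq_mul, smul_eq_mul,
    ← hdd] at h4
  have h5 : (2 * (d + ε)) * LinearMap.trace k V a = 0 := by linear_combination h4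
  have h6 : LinearMap.trace k V a = 0 := by
    rcases mul_eq_zero.1 h5 with h | h
    · exact absurd h (mul_ne_zero h2 hd')
    · exact h
  rw [h6, zero_smul, add_zero] at h3
  exact (smul_eq_zero.1 h3).resolve_left hd

lemma norm_pp_sl (ρ : Representation k G V) (h2 : (2 : k) ≠ 0) {ε : k} (hε : ε * ε = 1)
    (hd : (Module.finrank k V : k) + 2 * ε ≠ 0) (hd' : (Module.finrank k V : k) ≠ 0) :
    ∃ R, (pp ρ ε).star * pp ρ ε = sl ρ + R := by
  refine norm_pp ρ h2 hε (κ := (LinearMap.ker (LinearMap.trace k V)).subtype)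
    (υ := kerRep (trace_eqv ρ)) (fun _ _ => rfl) ?_
  intro a ha
  apply Subtype.ext
  change (a : V →ₗ[k] V) = 0
  have ha0 : LinearMap.trace k V (a : V →ₗ[k] V) = 0 := a.2
  apply trace_nondeg'
  intro b
  set d : k := (Module.finrank k V : k) with hdd
  obtain ⟨b', hb'⟩ : ∃ b' : V →ₗ[k] V, b' = b - (LinearMap.trace k V b / d) • LinearMap.id :=
    ⟨_, rfl⟩
  have hb0 : LinearMap.trace k V b' = 0 := by
    rw [hb', map_sub, map_smul, LinearMap.trace_id, smul_eq_mul, ← hdd, div_mul_cancel₀ _ hd',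
      sub_self]
  have h3 := ha ⟨b', hb0⟩
  simp only [Submodule.subtype_apply] at h3
  rw [ha0, mul_zero, add_zero] at h3
  have h4 := (mul_eq_zero.1 h3).resolve_left hd
  have h5 : b = b' + (LinearMap.trace k V b / d) • LinearMap.id := by rw [hb']; abel
  rw [h5, LinearMap.add_comp, LinearMap.smul_comp, LinearMap.id_comp, map_add, map_smul, h4, ha0,
    smul_zero, add_zero]

/-- contraction of the second factor -/
noncomputable def ctr (k : Type u) (V : Type u) [Field k] [AddCommGroup V] [Module k V] :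
    Module.Dual k V →ₗ[k] (V ⊗[k] V →ₗ[k] V) :=
  (LinearMap.llcomp k (V ⊗[k] V) (V ⊗[k] k) V (TensorProduct.rid k V).toLinearMap) ∘ₗ
    LinearMap.lTensorHom V

lemma ctr_tmul (f : Module.Dual k V) (x y : V) : ctr k V f (x ⊗ₜ[k] y) = f y • x := by
  simp [ctr]

lemma ctr_dual (ρ : Representation k G V) (g : G) (f : Module.Dual k V) (x : V ⊗[k] V) :
    ctr k V (ρ.dual g f) x = ρ g (ctr k V f ((ρ.tprod ρ) g⁻¹ x)) := by
  induction x using TensorProduct.induction_on with
  | zero => simp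
  | tmul v w =>
    have e1 : (ρ.tprod ρ) g⁻¹ (v ⊗ₜ[k] w) = ρ g⁻¹ v ⊗ₜ[k] ρ g⁻¹ w := rfl
    rw [e1, ctr_tmul, ctr_tmul, map_smul, rho_inv']
    rfl
  | add x y hx hy => simp only [map_add, hx, hy]

/-- `x` is a summand of `star x * pp` -/
lemma star_mul_pp (ρ : Representation k G V) (h2 : (2 : k) ≠ 0) {ε : k}
    (hd' : (Module.finrank k V : k) + ε ≠ 0) :
    ∃ R, (cls ρ).star * pp ρ ε = cls ρ + R := by
  obtain ⟨κ, hκ⟩ : ∃ κ : Module.Dual k V →ₗ[k] (LinearMap.range (ee k V ε) →ₗ[k] V),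
      ∀ f x, κ f x = ctr k V f (inc k V ε x) :=
    ⟨(LinearMap.lcomp k V (inc k V ε)) ∘ₗ ctr k V, fun _ _ => rfl⟩
  obtain ⟨j, hj⟩ : ∃ j : V →ₗ[k] (V →ₗ[k] LinearMap.range (ee k V ε)),
      ∀ v w, j v w = pr k V ε (w ⊗ₜ[k] v) :=
    ⟨(LinearMap.llcomp k V (V ⊗[k] V) _ (pr k V ε)) ∘ₗ (TensorProduct.mk k V V).flip,
      fun _ _ => rfl⟩
  unfold pp
  refine summand_of_pairing (κ := κ) (j := j) (ω := ρ) (υ := ρ.dual) ?_ ?_
    (Subspace.dual_finrank_eq).symm ?_
  · intro g f
    apply LinearMap.ext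
    intro x
    rw [hκ, linHom_apply', hκ, ctr_dual, inc_eqv]
  · intro g v
    apply LinearMap.ext
    intro w
    rw [hj, linHom_apply', hj, ← pr_eqv]
    have e1 : (ρ.tprod ρ) g (ρ g⁻¹ w ⊗ₜ[k] v) = ρ g (ρ g⁻¹ w) ⊗ₜ[k] ρ g v := rfl
    rw [e1, rho_inv']
  · intro v hv
    rw [← Module.forall_dual_apply_eq_zero_iff k]
    intro f
    have h1 : κ f ∘ₗ j v = (2 : k)⁻¹ • (f v • LinearMap.id + ε • f.smulRight v) := by
      apply LinearMap.ext
      intro w
      rw [LinearMap.comp_apply, hκ, hj, inc_pr, ee_apply, map_smul, map_add, map_smul, tau_tmul,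
        ctr_tmul, ctr_tmul]
      rfl
    have h3 := hv f
    rw [h1, map_smul, map_add, map_smul, map_smul, LinearMap.trace_id, LinearMap.trace_smulRight,
      smul_eq_mul, smul_eq_mul, smul_eq_mul] at h3
    have h4 : ((Module.finrank k V : k) + ε) * f v = 0 := by
      rcases mul_eq_zero.1 h3 with h | h
      · exact absurd h (inv_ne_zero h2)
      · linear_combination h
    exact (mul_eq_zero.1 h4).resolve_left hd'

end

end Pool.Agent.V7H61
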