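import Pool.Agent.V7H61.Tower

set_option autoImplicit false
set_option linter.unusedSectionVars false

/-!
Relations between classes in the tower.
-/

open scoped TensorProduct

universe u v

namespace Pool.Agent.V7H61

section

variable {k : Type u} {G : Type v} [Field k] [Group G]
variable {U V W X : Type u} [AddCommGroup U] [Module k U] [AddCommGroup V] [Module k V]
  [AddCommGroup W] [Module k W] [AddCommGroup X] [Module k X]
  [FiniteDimensional k U] [FiniteDimensional k V] [FiniteDimensional k W] [FiniteDimensional k X]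
variable {ι : Type} [Fintype ι] [DecidableEq ι]

lemma lT_eqv {ρ : Representation k G V} {σ : Representation k G W} {f : V →ₗ[k] W}
    (hf : Eqv ρ σ f) (τ : Representation k G X) :
    Eqv (τ.tprod ρ) (τ.tprod σ) (LinearMap.lTensor X f) := by
  intro g t
  induction t using TensorProduct.induction_on with
  | zero => simp
  | tmul x v =>
    change τ g x ⊗ₜ[k] f (ρ g v) = τ g x ⊗ₜ[k] σ g (f v)
    rw [hf]
  | add x y hx hy => simp only [map_add, hx, hy]

/-- kernel version -/
lemma ker_split {φ : Representation k G V} {β : Representation k G W} {b : V →ₗ[k] W}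
    (hb : Eqv φ β b) (τ : Representation k G X)
    {i : X ⊗[k] W →ₗ[k] X ⊗[k] V} (hi : Eqv (τ.tprod β) (τ.tprod φ) i)
    (hbij : Function.Bijective (LinearMap.lTensor X b ∘ₗ i)) :
    cls τ * cls φ = cls τ * cls β + cls τ * cls (kerRep hb) := by
  rw [← cls_mul, ← cls_mul, ← cls_mul, ← cls_add]
  have hsub : Eqv (kerRep hb) φ (LinearMap.ker b).subtype := fun _ _ => rfl
  have hinjs : Function.Injective (LinearMap.lTensor X (LinearMap.ker b).subtype) :=
    Module.Flat.lTensor_preserves_injective_linearMap _ (Submodule.injective_subtype _)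
  have hex : Function.Exact (LinearMap.lTensor X (LinearMap.ker b).subtype)
      (LinearMap.lTensor X b) := Module.Flat.lTensor_exact X (LinearMap.exact_subtype_ker_map b)
  refine (cls_bij (V := (X ⊗[k] W) × (X ⊗[k] (LinearMap.ker b))) (W := X ⊗[k] V)
    (ρ := (τ.tprod β).prod (τ.tprod (kerRep hb))) (σ := τ.tprod φ)
    (i.coprod (LinearMap.lTensor X (LinearMap.ker b).subtype)) ?_ ⟨?_, ?_⟩).symm
  · rintro g ⟨s, t⟩
    change i ((τ.tprod β) g s) + LinearMap.lTensor X (LinearMap.ker b).subtype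
      ((τ.tprod (kerRep hb)) g t) = (τ.tprod φ) g
        (i s + LinearMap.lTensor X (LinearMap.ker b).subtype t)
    rw [hi, lT_eqv hsub τ, map_add]
  · rintro ⟨s, t⟩ ⟨s', t'⟩ h
    have h0 : i s + LinearMap.lTensor X (LinearMap.ker b).subtype t =
      i s' + LinearMap.lTensor X (LinearMap.ker b).subtype t' := h
    have hz : ∀ t, LinearMap.lTensor X b (LinearMap.lTensor X (LinearMap.ker b).subtype t) = 0 :=
      fun t => (hex _).2 ⟨t, rfl⟩
    have h1 := congrArg (LinearMap.lTensor X b) h0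
    rw [map_add, map_add, hz, hz, add_zero, add_zero] at h1
    have h2 := hbij.1 (a₁ := s) (a₂ := s') h1
    subst h2
    rw [hinjs (add_left_cancel h0)]
  · intro y
    obtain ⟨s, hs⟩ := hbij.2 (LinearMap.lTensor X b y)
    have h1 : LinearMap.lTensor X b (y - i s) = 0 := by
      rw [map_sub, ← hs]; simp
    obtain ⟨t, ht⟩ := (hex _).1 h1
    refine ⟨(s, t), ?_⟩
    change i s + LinearMap.lTensor X (LinearMap.ker b).subtype t = y
    rw [ht]; abel

/-- the cokernel of an equivariant map -/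
noncomputable def quoRep {ρ : Representation k G V} {σ : Representation k G W} {f : V →ₗ[k] W}
    (hf : Eqv ρ σ f) : Representation k G (W ⧸ LinearMap.range f) :=
  σ.quotient (LinearMap.range f) fun g v hv => by
    obtain ⟨w, rfl⟩ := hv
    exact ⟨ρ g w, hf g w⟩

/-- cokernel version -/
lemma coker_split {β : Representation k G W} {φ : Representation k G V} {a : W →ₗ[k] V}
    (ha : Eqv β φ a) (τ : Representation k G X)
    {r : X ⊗[k] V →ₗ[k] X ⊗[k] W} (hr : Eqv (τ.tprod φ) (τ.tprod β) r)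
    (hbij : Function.Bijective (r ∘ₗ LinearMap.lTensor X a)) :
    cls τ * cls φ = cls τ * cls β + cls τ * cls (quoRep ha) := by
  rw [← cls_mul, ← cls_mul, ← cls_mul, ← cls_add]
  have hmk : Eqv φ (quoRep ha) (LinearMap.range a).mkQ := fun _ _ => rfl
  have hex : Function.Exact (LinearMap.lTensor X a)
      (LinearMap.lTensor X (LinearMap.range a).mkQ) :=
    lTensor_exact X (LinearMap.exact_map_mkQ_range a) (Submodule.mkQ_surjective _)
  have hsur : Function.Surjective (LinearMap.lTensor X (LinearMap.range a).mkQ) :=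
    LinearMap.lTensor_surjective X (Submodule.mkQ_surjective _)
  refine cls_bij (V := X ⊗[k] V) (W := (X ⊗[k] W) × (X ⊗[k] (V ⧸ LinearMap.range a)))
    (ρ := τ.tprod φ) (σ := (τ.tprod β).prod (τ.tprod (quoRep ha)))
    (r.prod (LinearMap.lTensor X (LinearMap.range a).mkQ)) ?_ ⟨?_, ?_⟩
  · intro g t
    exact Prod.ext (hr g t) (lT_eqv hmk τ g t)
  · rw [← LinearMap.ker_eq_bot, LinearMap.ker_eq_bot']
    intro t ht
    have h1 : r t = 0 := congrArg Prod.fst ht
    have h2 : LinearMap.lTensor X (LinearMap.range a).mkQ t = 0 := congrArg Prod.snd ht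
    obtain ⟨s, rfl⟩ := (hex _).1 h2
    have h3 : s = 0 := hbij.1 (by rw [map_zero]; exact h1)
    rw [h3, map_zero]
  · rintro ⟨s, t⟩
    obtain ⟨y, hy⟩ := hsur t
    obtain ⟨w, hw⟩ := hbij.2 (s - r y)
    refine ⟨y + LinearMap.lTensor X a w, Prod.ext ?_ ?_⟩
    · change r (y + LinearMap.lTensor X a w) = s
      rw [map_add]
      have h5 : r (LinearMap.lTensor X a w) = s - r y := hw
      rw [h5]; abel
    · change LinearMap.lTensor X (LinearMap.range a).mkQ (y + LinearMap.lTensor X a w) = t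
      rw [map_add, hy, (hex _).2 ⟨w, rfl⟩, add_zero]

variable {D D' : MRep k G ι} {α : Representation k G U} {β : Representation k G V}
    {γ : Representation k G W} {r : k}

lemma Stg.next_cls (S : Stg D D' α β γ r) (hP : Pair D D')
    (hq : (Fintype.card ι : k) - r ≠ 0) :
    cls γ * D'.cl = cls β + cls (kerRep (bm_eqv hP S.ej)) := by
  rw [← cls_leg]
  refine cls_of_bij (am_eqv hP S.ep) (bm_eqv hP S.ej) ⟨?_, ?_⟩
  · intro v w h
    have h1 : bm S.j (am S.p v) = bm S.j (am S.p w) := h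
    rw [S.ba, S.ba] at h1
    exact smul_right_injective _ hq h1
  · intro v
    refine ⟨((Fintype.card ι : k) - r)⁻¹ • v, ?_⟩
    change bm S.j (am S.p _) = v
    rw [S.ba, smul_smul, mul_inv_cancel₀ hq, one_smul]

/-- pairing map -/
noncomputable def CC (j : W →ₗ[k] (ι → V)) : W ⊗[k] (ι → W) →ₗ[k] V ⊗[k] W :=
  ∑ c, TensorProduct.map (cf j c) (LinearMap.proj c)

/-- copairing map -/
noncomputable def CC' (p : (ι → V) →ₗ[k] W) : V ⊗[k] W →ₗ[k] W ⊗[k] (ι → W) :=
  ∑ c, TensorProduct.map (cg p c) (sng k W c)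

lemma CC_tmul (j : W →ₗ[k] (ι → V)) (w : W) (f : ι → W) :
    CC j (w ⊗ₜ[k] f) = ∑ c, (j w c) ⊗ₜ[k] (f c) := by
  rw [CC, LinearMap.sum_apply]; rfl

lemma CC'_tmul (p : (ι → V) →ₗ[k] W) (v : V) (w : W) :
    CC' p (v ⊗ₜ[k] w) = ∑ c, (p (sng k V c v)) ⊗ₜ[k] (sng k W c w) := by
  rw [CC', LinearMap.sum_apply]; rfl

lemma bil_sum (B : V →ₗ[k] W →ₗ[k] X) (M N : ι → ι → k) (x : ι → V) (y : ι → W) :
    ∑ c, B (∑ a, M c a • x a) (∑ b, N c b • y b) =
      ∑ a, ∑ b, (∑ c, M c a * N c b) • B (x a) (y b) := by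
  have h : ∀ c, B (∑ a, M c a • x a) (∑ b, N c b • y b) =
      ∑ a, ∑ b, (M c a * N c b) • B (x a) (y b) := by
    intro c
    have h0 : B (∑ a, M c a • x a) = ∑ a, M c a • B (x a) := by simp [map_sum, map_smul]
    rw [h0, LinearMap.sum_apply]
    refine Finset.sum_congr rfl fun a _ => ?_
    rw [LinearMap.smul_apply, map_sum, Finset.smul_sum]
    refine Finset.sum_congr rfl fun b _ => ?_
    rw [map_smul, smul_smul]
  rw [Finset.sum_congr rfl fun c _ => h c, Finset.sum_comm]
  refine Finset.sum_congr rfl fun a _ => ?_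
  rw [Finset.sum_comm]
  refine Finset.sum_congr rfl fun b _ => ?_
  rw [Finset.sum_smul]

lemma bil_one (B : V →ₗ[k] W →ₗ[k] X) (M N : ι → ι → k)
    (h : ∀ a b, ∑ c, M c a * N c b = if a = b then 1 else 0) (x : ι → V) (y : ι → W) :
    ∑ c, B (∑ a, M c a • x a) (∑ b, N c b • y b) = ∑ a, B (x a) (y a) := by
  rw [bil_sum]
  refine Finset.sum_congr rfl fun a _ => ?_
  simp only [h, ite_smul, one_smul, zero_smul, Finset.sum_ite_eq, Finset.mem_univ, if_true]

lemma CC_eqv {j : W →ₗ[k] (ι → V)} (hP : Pair D D') (hj : Eqv γ (leg D β) j) :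
    Eqv (γ.tprod (leg D' γ)) (β.tprod γ) (CC j) := by
  intro g t
  induction t using TensorProduct.induction_on with
  | zero => simp only [map_zero]
  | tmul w f =>
    have e1 : (γ.tprod (leg D' γ)) g (w ⊗ₜ[k] f) = γ g w ⊗ₜ[k] leg D' γ g f := rfl
    have e2 : ∀ (x : V) (y : W), (β.tprod γ) g (x ⊗ₜ[k] y) = β g x ⊗ₜ[k] γ g y := fun _ _ => rfl
    rw [e1, CC_tmul, CC_tmul, map_sum]
    simp only [e2, hj g, leg_apply]
    exact bil_one (TensorProduct.mk k V W) (D.m g) (D'.m g) (hP.sum' g)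
      (fun a => β g (j w a)) (fun a => γ g (f a))
  | add x y hx hy => simp only [map_add, hx, hy]

lemma CC'_eqv {p : (ι → V) →ₗ[k] W} (hP : Pair D D') (hp : Eqv (leg D β) γ p) :
    Eqv (β.tprod γ) (γ.tprod (leg D' γ)) (CC' p) := by
  intro g t
  induction t using TensorProduct.induction_on with
  | zero => simp only [map_zero]
  | tmul v w =>
    have e1 : (β.tprod γ) g (v ⊗ₜ[k] w) = β g v ⊗ₜ[k] γ g w := rfl
    have e2 : ∀ (x : W) (y : ι → W), (γ.tprod (leg D' γ)) g (x ⊗ₜ[k] y) =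
      γ g x ⊗ₜ[k] leg D' γ g y := fun _ _ => rfl
    rw [e1, CC'_tmul, CC'_tmul, map_sum]
    simp only [e2, leg_sng, ← hp g, map_sum, map_smul]
    exact (bil_one (TensorProduct.mk k W (ι → W)) (fun c a => D.m g a c) (fun c a => D'.m g a c)
      (hP g) (fun a => p (sng k V a (β g v))) (fun a => sng k W a (γ g w))).symm
  | add x y hx hy => simp only [map_add, hx, hy]

/-- the relation at the top of the tower -/
lemma Stg.top (S : Stg D D' α β γ r) (hP : Pair D D') (hq : (Fintype.card ι : k) - r = 0)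
    (hI : S.Inj) : ∃ z, cls γ * (cls γ * D'.cl) = cls γ * cls β + (cls γ * cls β + cls γ * z) := by
  have hba : ∀ v, bm S.j (am S.p v) = 0 := fun v => by rw [S.ba, hq, zero_smul]
  obtain ⟨T, hT⟩ : ∃ T : W ⊗[k] V →ₗ[k] V ⊗[k] W,
      T = ∑ c, TensorProduct.map (cf S.j c) (cg S.p c) := ⟨_, rfl⟩
  obtain ⟨T', hT'⟩ : ∃ T' : V ⊗[k] W →ₗ[k] W ⊗[k] V,
      T' = ∑ e, TensorProduct.map (cg S.p e) (cf S.j e) := ⟨_, rfl⟩
  have hTT : T' ∘ₗ T = LinearMap.id - r • (Sp S.p S.pm ∘ₗ Sm S.j S.jm) := by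
    rw [hT, hT']; exact S.T'T
  have hinj : Function.Injective T := by
    rw [← LinearMap.ker_eq_bot, LinearMap.ker_eq_bot']
    intro x hx
    apply hI
    have h1 := LinearMap.congr_fun hTT x
    simp only [LinearMap.comp_apply, LinearMap.sub_apply, LinearMap.smul_apply,
      LinearMap.id_apply, hx, map_zero] at h1
    exact (sub_eq_zero.1 h1.symm)
  have hinj' : Function.Injective (T' ∘ₗ T) := by
    rw [← LinearMap.ker_eq_bot, LinearMap.ker_eq_bot']
    intro x hx
    apply hI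
    rw [hTT] at hx
    exact sub_eq_zero.1 hx
  have hd : Module.finrank k (W ⊗[k] V) = Module.finrank k (V ⊗[k] W) := by
    rw [Module.finrank_tensorProduct, Module.finrank_tensorProduct, mul_comm]
  have hbT : Function.Bijective T :=
    ⟨hinj, (LinearMap.injective_iff_surjective_of_finrank_eq_finrank hd).1 hinj⟩
  have hsT' : Function.Surjective T' := by
    have h1 : Function.Surjective (T' ∘ₗ T) := LinearMap.surjective_of_injective hinj'
    rw [LinearMap.coe_comp] at h1
    exact h1.of_comp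
  have hbT' : Function.Bijective T' :=
    ⟨(LinearMap.injective_iff_surjective_of_finrank_eq_finrank hd.symm).2 hsT', hsT'⟩
  have h1 : CC S.j ∘ₗ LinearMap.lTensor W (am S.p) = T := by
    rw [hT]
    apply TensorProduct.ext'
    intro w v
    rw [LinearMap.sum_apply, LinearMap.comp_apply, LinearMap.lTensor_tmul, CC_tmul]
    refine Finset.sum_congr rfl fun c _ => ?_
    rw [am_apply]; rfl
  have h2 : LinearMap.lTensor W (bm S.j) ∘ₗ CC' S.p = T' := by
    rw [hT']
    apply TensorProduct.ext'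
    intro v w
    rw [LinearMap.sum_apply, LinearMap.comp_apply, CC'_tmul, map_sum]
    refine Finset.sum_congr rfl fun c _ => ?_
    rw [LinearMap.lTensor_tmul, bm_sng]; rfl
  have ea := am_eqv hP S.ep
  have eb := bm_eqv hP S.ej
  have eT : Eqv (γ.tprod β) (β.tprod γ) T := by
    rw [← h1]; exact (CC_eqv hP S.ej).comp (lT_eqv ea γ)
  have eT' : Eqv (β.tprod γ) (γ.tprod β) T' := by
    rw [← h2]; exact (lT_eqv eb γ).comp (CC'_eqv hP S.ep)
  -- kernel step
  obtain ⟨F', hF'⟩ : ∃ F' : V ⊗[k] W ≃ₗ[k] W ⊗[k] V, F'.toLinearMap = T' :=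
    ⟨LinearEquiv.ofBijective T' hbT', rfl⟩
  obtain ⟨F, hF⟩ : ∃ F : W ⊗[k] V ≃ₗ[k] V ⊗[k] W, F.toLinearMap = T :=
    ⟨LinearEquiv.ofBijective T hbT, rfl⟩
  have eF' : Eqv (γ.tprod β) (β.tprod γ) F'.symm.toLinearMap :=
    Eqv.symm (ρ := β.tprod γ) (σ := γ.tprod β) (e := F') (by rw [hF']; exact eT')
  have eF : Eqv (β.tprod γ) (γ.tprod β) F.symm.toLinearMap :=
    Eqv.symm (ρ := γ.tprod β) (σ := β.tprod γ) (e := F) (by rw [hF]; exact eT)
  have k1 := ker_split eb γ (i := CC' S.p ∘ₗ F'.symm.toLinearMap)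
    ((CC'_eqv hP S.ep).comp eF') (by
      rw [← LinearMap.comp_assoc, h2, ← hF']
      have : F'.toLinearMap ∘ₗ F'.symm.toLinearMap = LinearMap.id := by ext; simp
      rw [this]; exact Function.bijective_id)
  obtain ⟨a', ha'⟩ : ∃ a' : V →ₗ[k] LinearMap.ker (bm S.j), ∀ v, (a' v : ι → W) = am S.p v :=
    ⟨LinearMap.codRestrict _ (am S.p) hba, fun _ => rfl⟩
  have ea' : Eqv β (kerRep eb) a' := fun g v => Subtype.ext (by
    rw [ha', kerRep_coe, ha', ea])
  have esub : Eqv (kerRep eb) (leg D' γ) (LinearMap.ker (bm S.j)).subtype := fun _ _ => rfl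
  have k2 := coker_split ea' γ
    (r := F.symm.toLinearMap ∘ₗ CC S.j ∘ₗ LinearMap.lTensor W (LinearMap.ker (bm S.j)).subtype)
    (eF.comp ((CC_eqv hP S.ej).comp (lT_eqv esub γ))) (by
      have h3 : (LinearMap.ker (bm S.j)).subtype ∘ₗ a' = am S.p := LinearMap.ext ha'
      rw [LinearMap.comp_assoc, LinearMap.comp_assoc, ← LinearMap.lTensor_comp, h3, h1, ← hF]
      have : F.symm.toLinearMap ∘ₗ F.toLinearMap = LinearMap.id := by ext; simp
      rw [this]; exact Function.bijective_id)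
  refine ⟨cls (quoRep ea'), ?_⟩
  rw [← cls_leg, k1, k2]

end

end Pool.Agent.V7H61
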