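import Pool.Agent.V7H61.Leg

set_option autoImplicit false
set_option linter.unusedSectionVars false

/-!
The tower of Jones-Wenzl type summands of alternating tensor products.
-/

open scoped TensorProduct

universe u v

namespace Pool.Agent.V7H61

section aux

variable {k : Type u} [Field k]
variable {A B C E : Type u} [AddCommGroup A] [Module k A] [AddCommGroup B] [Module k B]
  [AddCommGroup C] [Module k C] [AddCommGroup E] [Module k E]
variable {κ : Type} [Fintype κ]

lemma comp_sum' (f : B →ₗ[k] C) (g : κ → A →ₗ[k] B) : f ∘ₗ (∑ c, g c) = ∑ c, f ∘ₗ g c := by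
  apply LinearMap.ext; intro x
  simp [LinearMap.sum_apply, map_sum]

lemma sum_comp' (f : κ → B →ₗ[k] C) (g : A →ₗ[k] B) : (∑ c, f c) ∘ₗ g = ∑ c, f c ∘ₗ g := by
  apply LinearMap.ext; intro x
  simp [LinearMap.sum_apply]

lemma dbl {κ' : Type} [Fintype κ'] (f : κ → B →ₗ[k] C) (g : κ' → A →ₗ[k] B) :
    (∑ c, f c) ∘ₗ (∑ e, g e) = ∑ c, ∑ e, f c ∘ₗ g e := by
  rw [sum_comp']
  exact Finset.sum_congr rfl fun c _ => comp_sum' _ _

lemma tmap_sub_right (f : A →ₗ[k] B) (g h : C →ₗ[k] E) :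
    TensorProduct.map f (g - h) = TensorProduct.map f g - TensorProduct.map f h :=
  TensorProduct.ext' fun x y => by simp [TensorProduct.tmul_sub]

lemma tmap_sub_left (f g : A →ₗ[k] B) (h : C →ₗ[k] E) :
    TensorProduct.map (f - g) h = TensorProduct.map f h - TensorProduct.map g h :=
  TensorProduct.ext' fun x y => by simp [TensorProduct.sub_tmul]

lemma tmap_sum_left (f : κ → A →ₗ[k] B) (h : C →ₗ[k] E) :
    TensorProduct.map (∑ c, f c) h = ∑ c, TensorProduct.map (f c) h := by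
  have := map_sum (TensorProduct.mapBilinear (RingHom.id k) A C B E) f Finset.univ
  have h2 := LinearMap.congr_fun this h
  rw [LinearMap.sum_apply] at h2
  exact h2

lemma tmap_sum_right (f : A →ₗ[k] B) (h : κ → C →ₗ[k] E) :
    TensorProduct.map f (∑ c, h c) = ∑ c, TensorProduct.map f (h c) :=
  map_sum (TensorProduct.mapBilinear (RingHom.id k) A C B E f) h Finset.univ

end aux

section

variable {k : Type u} {G : Type v} [Field k] [Group G]
variable {U V W : Type u} [AddCommGroup U] [Module k U] [AddCommGroup V] [Module k V]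
  [AddCommGroup W] [Module k W]
variable {ι : Type} [Fintype ι] [DecidableEq ι]

/-- coaction type map -/
def am (p : (ι → V) →ₗ[k] W) : V →ₗ[k] (ι → W) := lmap ι p ∘ₗ ins2 k ι V

/-- contraction type map -/
def bm (j : W →ₗ[k] (ι → V)) : (ι → W) →ₗ[k] V := con2 k ι V ∘ₗ lmap ι j

lemma am_apply (p : (ι → V) →ₗ[k] W) (v : V) (c : ι) : am p v c = p (sng k V c v) := by
  change p (ins2 k ι V v c) = _
  congr 1
  funext e
  rw [ins2_apply, sng_apply]
  simp [eq_comm]

lemma bm_apply (j : W →ₗ[k] (ι → V)) (f : ι → W) : bm j f = ∑ c, j (f c) c := rfl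

lemma bm_sng (j : W →ₗ[k] (ι → V)) (c : ι) (w : W) : bm j (sng k W c w) = j w c := by
  rw [bm_apply, Finset.sum_eq_single c]
  · simp [sng_apply]
  · intro b _ hb; simp [sng_apply, hb]
  · intro h; exact absurd (Finset.mem_univ c) h

lemma am_eqv {D D' : MRep k G ι} (h : Pair D D') {β : Representation k G V}
    {γ : Representation k G W} {p : (ι → V) →ₗ[k] W} (hp : Eqv (leg D β) γ p) :
    Eqv β (leg D' γ) (am p) := (lmap_eqv D' hp).comp (ins2_eqv h.symm β)

lemma bm_eqv {D D' : MRep k G ι} (h : Pair D D') {β : Representation k G V}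
    {γ : Representation k G W} {j : W →ₗ[k] (ι → V)} (hj : Eqv γ (leg D β) j) :
    Eqv (leg D' γ) β (bm j) := (con2_eqv h.symm β).comp (lmap_eqv D' hj)

/-- the data of one stage of the tower -/
structure Stg (D D' : MRep k G ι) (α : Representation k G U) (β : Representation k G V)
    (γ : Representation k G W) (r : k) where
  /-- previous inclusion -/
  jm : V →ₗ[k] (ι → U)
  /-- previous projection -/
  pm : (ι → U) →ₗ[k] V
  /-- inclusion -/
  j : W →ₗ[k] (ι → V)
  /-- projection -/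
  p : (ι → V) →ₗ[k] W
  ejm : Eqv β (leg D' α) jm
  epm : Eqv (leg D' α) β pm
  ej : Eqv γ (leg D β) j
  ep : Eqv (leg D β) γ p
  pj : ∀ w, p (j w) = w
  jp : ∀ f, j (p f) = f - r • am pm (bm jm f)
  rpm : r = 0 ∨ ∀ v, pm (jm v) = v

variable {D D' : MRep k G ι} {α : Representation k G U} {β : Representation k G V}
    {γ : Representation k G W} {r : k}

/-- components -/
def cf (j : W →ₗ[k] (ι → V)) (c : ι) : W →ₗ[k] V := LinearMap.proj c ∘ₗ j

/-- components -/
def cg (p : (ι → V) →ₗ[k] W) (c : ι) : V →ₗ[k] W := p ∘ₗ sng k V c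

@[simp] lemma cf_apply (j : W →ₗ[k] (ι → V)) (c : ι) (w : W) : cf j c w = j w c := rfl
@[simp] lemma cg_apply (p : (ι → V) →ₗ[k] W) (c : ι) (v : V) : cg p c v = p (sng k V c v) := rfl

lemma sum_cg_cf (j : W →ₗ[k] (ι → V)) (p : (ι → V) →ₗ[k] W) :
    ∑ c, cg p c ∘ₗ cf j c = p ∘ₗ j := by
  apply LinearMap.ext
  intro w
  rw [LinearMap.sum_apply]
  simp only [LinearMap.comp_apply, cf_apply, cg_apply]
  rw [← map_sum, sum_sng]

lemma Stg.cf_cg (S : Stg D D' α β γ r) (c e : ι) :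
    cf S.j c ∘ₗ cg S.p e =
      (if c = e then (1 : k) else 0) • LinearMap.id - r • (cg S.pm c ∘ₗ cf S.jm e) := by
  apply LinearMap.ext
  intro v
  simp only [LinearMap.comp_apply, cf_apply, cg_apply, LinearMap.sub_apply, LinearMap.smul_apply,
    LinearMap.id_apply]
  rw [S.jp, Pi.sub_apply, Pi.smul_apply, bm_sng, am_apply, sng_apply]
  congr 1
  by_cases h : c = e <;> simp [h]

/-- composite of projection and inclusion, previous stage, up to the coefficient -/
lemma Stg.r_sum (S : Stg D D' α β γ r) :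
    r • (∑ c, cg S.pm c ∘ₗ cf S.jm c) = r • (LinearMap.id : V →ₗ[k] V) := by
  rw [sum_cg_cf]
  rcases S.rpm with h | h
  · generalize S.pm ∘ₗ S.jm = X
    rw [h, zero_smul, zero_smul]
  · congr 1
    exact LinearMap.ext h

lemma Stg.ba (S : Stg D D' α β γ r) (v : V) :
    bm S.j (am S.p v) = ((Fintype.card ι : k) - r) • v := by
  have h1 : bm S.j (am S.p v) = (∑ c, cf S.j c ∘ₗ cg S.p c) v := by
    rw [bm_apply, LinearMap.sum_apply]
    refine Finset.sum_congr rfl fun c _ => ?_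
    rw [am_apply]; rfl
  have h2 := LinearMap.congr_fun S.r_sum v
  rw [h1, Finset.sum_congr rfl fun c _ => S.cf_cg c c, Finset.sum_sub_distrib,
    ← Finset.smul_sum, LinearMap.sub_apply, h2]
  simp [sub_smul, Nat.cast_smul_eq_nsmul]

/-- the operator `S` -/
noncomputable def Sm (j : W →ₗ[k] (ι → V)) (jm : V →ₗ[k] (ι → U)) : W ⊗[k] V →ₗ[k] V ⊗[k] U :=
  ∑ c, TensorProduct.map (cf j c) (cf jm c)

/-- the operator `S'` -/
noncomputable def Sp (p : (ι → V) →ₗ[k] W) (pm : (ι → U) →ₗ[k] V) :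
    V ⊗[k] U →ₗ[k] W ⊗[k] V :=
  ∑ c, TensorProduct.map (cg p c) (cg pm c)

/-- the injectivity statement carried along the tower -/
def Stg.Inj (S : Stg D D' α β γ r) : Prop :=
  ∀ x : W ⊗[k] V, x = r • Sp S.p S.pm (Sm S.j S.jm x) → x = 0

lemma Sp_Sm (j : W →ₗ[k] (ι → V)) (jm : V →ₗ[k] (ι → U)) (p : (ι → V) →ₗ[k] W)
    (pm : (ι → U) →ₗ[k] V) : Sp p pm ∘ₗ Sm j jm =
      ∑ c, ∑ e, TensorProduct.map (cg p c ∘ₗ cf j e) (cg pm c ∘ₗ cf jm e) := by
  rw [Sp, Sm, dbl]
  exact Finset.sum_congr rfl fun _ _ => Finset.sum_congr rfl fun _ _ =>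
    (TensorProduct.map_comp _ _ _ _).symm

lemma Stg.T'T (S : Stg D D' α β γ r) :
    (∑ e, TensorProduct.map (cg S.p e) (cf S.j e)) ∘ₗ
      (∑ c, TensorProduct.map (cf S.j c) (cg S.p c)) =
    LinearMap.id - r • (Sp S.p S.pm ∘ₗ Sm S.j S.jm) := by
  have h1 : ∀ c e, TensorProduct.map (cg S.p e) (cf S.j e) ∘ₗ
      TensorProduct.map (cf S.j c) (cg S.p c) =
      (if e = c then (1 : k) else 0) • TensorProduct.map (cg S.p e ∘ₗ cf S.j c) LinearMap.id -
        r • TensorProduct.map (cg S.p e ∘ₗ cf S.j c) (cg S.pm e ∘ₗ cf S.jm c) := by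
    intro c e
    rw [← TensorProduct.map_comp, S.cf_cg e c, tmap_sub_right,
      TensorProduct.map_smul_right, TensorProduct.map_smul_right]
  rw [dbl, Sp_Sm]
  simp only [h1, Finset.sum_sub_distrib]
  simp only [Finset.smul_sum, ite_smul, one_smul, zero_smul, Finset.sum_ite_eq,
    Finset.mem_univ, if_true]
  congr 1
  rw [← tmap_sum_left, sum_cg_cf]
  have h3 : S.p ∘ₗ S.j = LinearMap.id := LinearMap.ext S.pj
  rw [h3, TensorProduct.map_id]

/-- the next stage -/
noncomputable def Stg.next (S : Stg D D' α β γ r) (hP : Pair D D')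
    (hq : (Fintype.card ι : k) - r ≠ 0) :
    Stg D' D β γ (kerRep (bm_eqv hP S.ej)) ((Fintype.card ι : k) - r)⁻¹ where
  jm := S.j
  pm := S.p
  j := (LinearMap.ker (bm S.j)).subtype
  p := LinearMap.codRestrict (LinearMap.ker (bm S.j))
    (LinearMap.id - ((Fintype.card ι : k) - r)⁻¹ • (am S.p ∘ₗ bm S.j)) (fun f => by
      rw [LinearMap.mem_ker, LinearMap.sub_apply, LinearMap.smul_apply, LinearMap.comp_apply,
        map_sub, map_smul, S.ba, LinearMap.id_apply, smul_smul, inv_mul_cancel₀ hq, one_smul,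
        sub_self])
  ejm := S.ej
  epm := S.ep
  ej := fun _ _ => rfl
  ep := fun g f => by
    apply Subtype.ext
    change leg D' γ g f - ((Fintype.card ι : k) - r)⁻¹ • am S.p (bm S.j (leg D' γ g f)) =
      leg D' γ g (f - ((Fintype.card ι : k) - r)⁻¹ • am S.p (bm S.j f))
    rw [bm_eqv hP S.ej, am_eqv hP S.ep, map_sub, map_smul]
  pj := fun w => by
    apply Subtype.ext
    change (w : ι → W) - ((Fintype.card ι : k) - r)⁻¹ • am S.p (bm S.j (w : ι → W)) = w
    rw [LinearMap.mem_ker.1 w.2, map_zero, smul_zero, sub_zero]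
  jp := fun f => rfl
  rpm := Or.inr S.pj

lemma Stg.next_j (S : Stg D D' α β γ r) (hP : Pair D D')
    (hq : (Fintype.card ι : k) - r ≠ 0) : (S.next hP hq).jm = S.j := rfl

/-- the composite at the next stage -/
lemma Stg.SS' (S : Stg D D' α β γ r) {X : Type u} [AddCommGroup X] [Module k X]
    {ξ : Representation k G X} {q : k}
    (hq : (Fintype.card ι : k) - r = q) (hq0 : q ≠ 0) (T : Stg D' D β γ ξ q⁻¹)
    (hTjm : T.jm = S.j) (hTpm : T.pm = S.p) :
    Sm T.j S.j ∘ₗ Sp T.p S.p =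
      (q - q⁻¹) • LinearMap.id + (q⁻¹ * r) • (Sp S.p S.pm ∘ₗ Sm S.j S.jm) := by
  have h1 : ∀ c e, TensorProduct.map (cf T.j c) (cf S.j c) ∘ₗ
      TensorProduct.map (cg T.p e) (cg S.p e) =
      (if c = e then (1 : k) else 0) • TensorProduct.map LinearMap.id LinearMap.id
      - (if c = e then (1 : k) else 0) •
        (r • TensorProduct.map LinearMap.id (cg S.pm c ∘ₗ cf S.jm e))
      - (if c = e then (1 : k) else 0) •
        (q⁻¹ • TensorProduct.map (cg S.p c ∘ₗ cf S.j e) LinearMap.id)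
      + (q⁻¹ * r) • TensorProduct.map (cg S.p c ∘ₗ cf S.j e) (cg S.pm c ∘ₗ cf S.jm e) := by
    intro c e
    have h2 := T.cf_cg c e
    rw [hTjm, hTpm] at h2
    rw [← TensorProduct.map_comp, S.cf_cg c e, h2, tmap_sub_left, tmap_sub_right,
      tmap_sub_right]
    simp only [TensorProduct.map_smul_left, TensorProduct.map_smul_right]
    by_cases h : c = e
    · simp only [h, if_true]
      module
    · simp only [h, if_false]
      module
  rw [Sp_Sm, Sm, Sp, dbl]
  simp only [h1, Finset.sum_add_distrib, Finset.sum_sub_distrib]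
  simp only [Finset.smul_sum, ite_smul, one_smul, zero_smul, Finset.sum_ite_eq,
    Finset.mem_univ, if_true]
  congr 1
  have h3 : S.p ∘ₗ S.j = LinearMap.id := LinearMap.ext S.pj
  have e1 : ∑ _c : ι, TensorProduct.map (LinearMap.id : W →ₗ[k] W) (LinearMap.id : V →ₗ[k] V) =
      (Fintype.card ι : k) • LinearMap.id := by
    rw [Finset.sum_const, Finset.card_univ, ← Nat.cast_smul_eq_nsmul k, TensorProduct.map_id]
  have e2 : ∑ c, r • TensorProduct.map (LinearMap.id : W →ₗ[k] W) (cg S.pm c ∘ₗ cf S.jm c) =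
      r • LinearMap.id := by
    rw [← Finset.smul_sum, ← tmap_sum_right, ← TensorProduct.map_smul_right, S.r_sum,
      TensorProduct.map_smul_right, TensorProduct.map_id]
  have e3 : ∑ c, q⁻¹ • TensorProduct.map (cg S.p c ∘ₗ cf S.j c) (LinearMap.id : V →ₗ[k] V) =
      q⁻¹ • LinearMap.id := by
    rw [← Finset.smul_sum, ← tmap_sum_left, sum_cg_cf, h3, TensorProduct.map_id]
  have h9 : q - q⁻¹ = (Fintype.card ι : k) - r - q⁻¹ := by rw [hq]
  rw [e1, e2, e3, h9]
  module

lemma Stg.next_inj (S : Stg D D' α β γ r) (hP : Pair D D')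
    (hq : (Fintype.card ι : k) - r ≠ 0) (hI : S.Inj) : (S.next hP hq).Inj := by
  intro x hx
  have key := S.SS' (q := (Fintype.card ι : k) - r) rfl hq (S.next hP hq) rfl rfl
  change x = ((Fintype.card ι : k) - r)⁻¹ • Sp (S.next hP hq).p S.p
    (Sm (S.next hP hq).j S.j x) at hx
  generalize (S.next hP hq).j = Tj at *
  generalize (S.next hP hq).p = Tp at *
  obtain ⟨q, hqd⟩ : ∃ q, q = (Fintype.card ι : k) - r := ⟨_, rfl⟩
  rw [← hqd] at hx key hq
  obtain ⟨y, hy⟩ : ∃ y, y = Sm Tj S.j x := ⟨_, rfl⟩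
  rw [← hy] at hx
  have h1 : y = q⁻¹ • ((q - q⁻¹) • y + (q⁻¹ * r) • Sp S.p S.pm (Sm S.j S.jm y)) := by
    have h2 := LinearMap.congr_fun key y
    simp only [LinearMap.comp_apply, LinearMap.add_apply, LinearMap.smul_apply,
      LinearMap.id_apply] at h2
    rw [← h2, ← map_smul, ← hx]
    exact hy
  have h3 : y = r • Sp S.p S.pm (Sm S.j S.jm y) := by
    have h4 : (q⁻¹ * q⁻¹) • y = (q⁻¹ * q⁻¹) • (r • Sp S.p S.pm (Sm S.j S.jm y)) := by
      rw [smul_add, smul_smul, smul_smul, mul_sub, inv_mul_cancel₀ hq, sub_smul, one_smul] at h1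
      have h5 : (q⁻¹ * q⁻¹) • y = (q⁻¹ * (q⁻¹ * r)) • Sp S.p S.pm (Sm S.j S.jm y) := by
        have h6 : y + (q⁻¹ * q⁻¹) • y = y + (q⁻¹ * (q⁻¹ * r)) • Sp S.p S.pm (Sm S.j S.jm y) := by
          nth_rewrite 1 [h1]
          abel
        exact add_left_cancel h6
      rw [h5, smul_smul, mul_assoc]
    have h0 : q⁻¹ * q⁻¹ ≠ 0 := mul_ne_zero (inv_ne_zero hq) (inv_ne_zero hq)
    exact smul_right_injective _ h0 h4
  have h7 := hI y h3
  rw [hx, h7, map_zero, smul_zero]

end

end Pool.Agent.V7H61
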