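import Pool.Agent.V7H61.Bridge

set_option autoImplicit false
set_option linter.unusedSectionVars false

/-!
Stable self-duality up to a twist, and the final statements in the language of classes.
-/

open scoped TensorProduct

universe u v

namespace Pool.Agent.V7H61

section

variable {k : Type u} {G : Type v} [Field k] [Group G] [Fintype G]

lemma Dom.proj_zero {χ : Gr k G →+* ℝ} (h : Dom χ) {Q : Gr k G} (hQ : Q.Proj) : χ Q = 0 := by
  have h1 := h.le Q
  rw [c_eq_zero.2 hQ, Nat.cast_zero] at h1
  exact le_antisymm h1 (h.nonneg Q)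

lemma et_one : ET (1 : Gr k G) := ⟨0, Pool.Agent.V7H61.proj_zero, by rw [star_one, one_mul, add_zero]⟩

lemma gam_one_le : (1 : Gr k G).gam ≤ 1 := by
  apply gam_le zero_le_one
  intro r hr
  refine ⟨1, fun n => ?_⟩
  rw [one_pow, one_mul]
  have h1 : ((1 : Gr k G).c : ℝ) ≤ 1 := by exact_mod_cast c_one_le
  exact h1.trans (one_le_pow₀ (le_of_lt hr))

/-- the complement of `M` in `M* ⊗ D` is projective when `D` is endotrivial -/
lemma twist_proj {M D R : Gr k G} (hD : ET D) (h : M.star * D = M + R) : R.Proj := by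
  obtain ⟨Q, hQ, hDQ⟩ := hD
  apply proj_of_dom
  intro χ hχ
  have h1 : χ D * χ D.star = 1 := by
    rw [← map_mul, hDQ, map_add, map_one, hχ.proj_zero hQ, add_zero]
  have h2 := congrArg χ h
  rw [map_mul, map_add] at h2
  have h3 := congrArg (fun x => χ x.star) h
  simp only [star_mul, star_add, star_star, map_mul, map_add] at h3
  have h4 : χ R + χ R.star * χ D = 0 := by
    have h5 : χ M * (χ D * χ D.star) = χ M + χ R + χ R.star * χ D := by
      calc χ M * (χ D * χ D.star) = (χ M * χ D.star) * χ D := by ring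
        _ = (χ M.star + χ R.star) * χ D := by rw [h3]
        _ = χ M.star * χ D + χ R.star * χ D := by ring
        _ = _ := by rw [h2]
    rw [h1, mul_one] at h5
    linarith
  have h6 := hχ.nonneg R
  have h7 := mul_nonneg (hχ.nonneg R.star) (hχ.nonneg D)
  linarith

/-- the growth rate of a module stably self-dual up to a twist of growth at most one -/
theorem gam_twist' {M D P P' : Gr k G} (hP : P.Proj) (hP' : P'.Proj)
    (h : M.star * D + P = M + P') (hD : D.gam ≤ 1) : M.gam = Real.sqrt (M * M.star).gam := by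
  have h0 := gam_norm_le M
  have h5 : M.gam ^ 2 ≤ (M * M.star).gam := by
    by_cases h1 : (1 : Gr k G).Proj
    · rw [gam_eq_zero_of_proj (all_proj h1 _), gam_eq_zero_of_proj (all_proj h1 _)]; norm_num
    · obtain ⟨χ, hχ, h2⟩ := exists_dom h1 M
      rw [← h2]
      have h3 := congrArg χ h
      rw [map_add, map_add, map_mul, hχ.proj_zero hP, hχ.proj_zero hP', add_zero, add_zero] at h3
      have h6 : χ D ≤ 1 := (hχ.le_gam D).trans hD
      have h4 := hχ.le_gam (M * M.star)
      rw [map_mul] at h4
      have h7 : χ M ≤ χ M.star := by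
        rw [← h3]
        calc χ M.star * χ D ≤ χ M.star * 1 := mul_le_mul_of_nonneg_left h6 (hχ.nonneg _)
          _ = χ M.star := mul_one _
      calc χ M ^ 2 = χ M * χ M := sq _
        _ ≤ χ M * χ M.star := mul_le_mul_of_nonneg_left h7 (hχ.nonneg _)
        _ ≤ _ := h4
  have h6 : M.gam ^ 2 = (M * M.star).gam := le_antisymm h5 h0
  rw [← h6, Real.sqrt_sq (gam_nonneg _)]

/-- torsion elements of the stable Green ring have growth rate at most one -/
theorem gam_torsion {D P Q : Gr k G} {m : ℕ} (hm : 1 ≤ m) (hP : P.Proj) (hQ : Q.Proj)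
    (h : D ^ m + P = 1 + Q) : D.gam ≤ 1 := by
  by_cases h1 : (1 : Gr k G).Proj
  · rw [gam_eq_zero_of_proj (all_proj h1 _)]; exact zero_le_one
  · obtain ⟨χ, hχ, h2⟩ := exists_dom h1 D
    rw [← h2]
    have h3 := congrArg χ h
    rw [map_add, map_add, map_pow, map_one, hχ.proj_zero hP, hχ.proj_zero hQ, add_zero,
      add_zero] at h3
    exact ((pow_eq_one_iff_of_nonneg (hχ.nonneg D) (by omega)).1 h3).le

lemma gam_dim_one {D : Gr k G} (h : D.dim = 1) : D.gam ≤ 1 := by
  apply gam_le zero_le_one
  intro r hr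
  refine ⟨1, fun n => ?_⟩
  have h2 : (D ^ n).dim = 1 := by
    induction n with
    | zero => rw [pow_zero, dim_one]
    | succ n ih => rw [pow_succ, dim_mul, ih, h]
  have h1 : ((D ^ n).c : ℝ) ≤ 1 := by
    have := c_le_dim (D ^ n)
    rw [h2] at this
    exact_mod_cast this
  rw [one_mul]
  exact h1.trans (one_le_pow₀ (le_of_lt hr))

/-- the trichotomy -/
theorem trichotomy (M : Gr k G) (hodd : (2 : k) ≠ 0 ∨ (M.dim : k) ≠ 0)
    (hg : (M * M.star).gam < 4) :
    M.Proj ∨ ET M ∨ ((2 : k) ≠ 0 ∧ ((M.dim : k) = 2 ∨ (M.dim : k) = -2) ∧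
      ∃ D P : Gr k G, ET D ∧ P.Proj ∧ M.star * D = M + P) := by
  have hlt : ∀ χ : Gr k G →+* ℝ, Dom χ → χ M * χ M.star < 4 := by
    intro χ hχ
    rw [← map_mul]
    exact lt_of_le_of_lt (hχ.le_gam _) hg
  by_cases hA : ∃ ε : k, ε * ε = 1 ∧ (M.dim : k) = 2 * ε
  · obtain ⟨ε, hε, hd⟩ := hA
    have hε0 : ε ≠ 0 := fun h => by rw [h] at hε; simp at hε
    have h2 : (2 : k) ≠ 0 := by
      rcases hodd with h | h
      · exact h
      · intro h2; exact h (by rw [hd, h2, zero_mul])
    right; right
    refine ⟨h2, ?_, ?_⟩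
    · have : (ε - 1) * (ε + 1) = 0 := by linear_combination hε
      rcases mul_eq_zero.1 this with h | h
      · left; rw [hd]; linear_combination 2 * h
      · right; rw [hd]; linear_combination 2 * h
    induction M using Gr.ind with | _ V ρ
    rw [dim_cls] at hd
    have hε' : -ε * -ε = 1 := by rw [← hε]; ring
    obtain ⟨R, hR⟩ := star_mul_pp ρ h2 (ε := -ε)
      (by rw [hd, show 2 * ε + -ε = ε by ring]; exact hε0)
    have hET : ET (pp ρ (-ε)) := by
      have hdD : ((pp ρ (-ε)).dim : k) = 1 := by
        have := two_dim_pp ρ h2 hε'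
        rw [hd] at this
        have h4 : (2 : k) * (((pp ρ (-ε)).dim : k) - 1) = 0 := by
          linear_combination this + 2 * hε
        have h5 := (mul_eq_zero.1 h4).resolve_left h2
        linear_combination h5
      apply et_of_sl
      · rw [pp, dim_cls] at hdD
        rw [hdD]; exact one_ne_zero
      · intro χ hχ
        rw [mul_comm]
        exact thmE hχ.nn h2 hε ρ hd (hlt χ hχ)
    exact ⟨pp ρ (-ε), R, hET, twist_proj hET hR, hR⟩
  · rcases small_structure M hodd hg with h | h | ⟨D, R, hD, hR⟩
    · exact Or.inl h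
    · exact Or.inr (Or.inl h)
    · -- only in the excluded case
      rcases dim_cases M with h | h | ⟨h2, h⟩
      · exact absurd h hA
      · right; left
        obtain ⟨h3, hd⟩ := h
        have hd0 : (M.dim : k) ≠ 0 := fun h0 => by rw [h0] at hd; simp at hd
        by_cases h2 : (2 : k) = 0
        · have hd1 : (M.dim : k) = 1 := by
            rcases cast_two_zero h2 M.dim with h | h
            · exact absurd h hd0
            · exact h
          have key : ∀ χ : Gr k G →+* ℝ, Dom χ → χ M * χ M.star = 1 := fun χ hχ =>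
            (thmC2 hχ.nn h2 M hd1).resolve_right (not_le.2 (hlt χ hχ))
          induction M using Gr.ind with | _ V ρ
          exact et_of_sl ρ hd0 key
        · induction M using Gr.ind with | _ V ρ
          rw [dim_cls] at hd hd0
          refine et_of_sl ρ hd0 fun χ hχ => ?_
          have h := (thmC5 hχ.nn h2 h3 hd ρ rfl).resolve_right (not_le.2 (hlt χ hχ))
          have hN := congrArg χ (one_add_sl ρ hd0)
          rw [cls_linHom, map_mul, map_add, map_one, h, add_zero, mul_comm] at hN
          exact hN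
      · left
        have hz : (M * M.star).Proj := proj_of_dom fun χ hχ => by
          rw [map_mul]
          exact (thmB hχ.nn h2 M h.1 h.2.1 h.2.2.1 h.2.2.2).resolve_right
            (not_le.2 (hlt χ hχ))
        obtain ⟨r, hr⟩ := zigzag M
        have h1 : (M + r).Proj := by
          rw [← hr, ← mul_assoc]; exact hz.mul _
        exact h1.left

end

end Pool.Agent.V7H61
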